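import Pool.Agent.Y797.TW.Def
set_option autoImplicit false

/-!
Definitions: the varieties `W(z) = λ Φ(x)`, where `W` is a product of a monomial and of sums of
affinely independent monomials, and `Φ` is the equation of a tower of graphs with multiplicities.
-/

namespace Pool.Agent.E8helper18.LF

open Pool.Agent.TH826.MK (KQ symb Torus)

open Pool.Agent.Y797.TW (Tower)

open MvPolynomial

/-- The data of a factorized Laurent polynomial
`W = z ^ m0 ∏_a ∑_j co_{a,j} z ^ ex_{a,j}` in the variables `z_0, ..., z_N`. -/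
structure Laurent (K : Type*) [Field K] (N : ℕ) where
  /-- the exponent of the monomial factor -/
  m0 : Fin (N + 1) → ℤ
  /-- the number of the other factors -/
  A : ℕ
  /-- the number of the monomials of a factor, minus one -/
  s : Fin A → ℕ
  /-- the exponents of the monomials -/
  ex : (a : Fin A) → Fin (s a + 1) → Fin (N + 1) → ℤ
  /-- the coefficients of the monomials -/
  co : (a : Fin A) → Fin (s a + 1) → K

namespace Laurent

variable {K : Type*} [Field K] {N : ℕ} (W : Laurent K N)

/-- The coefficients are roots of unity. -/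
def Cyclotomic : Prop := ∀ a j, ∃ k : ℕ, k ≠ 0 ∧ W.co a j ^ k = 1

/-- The exponents of each factor are affinely independent (the Newton polytope of the factor is a
simplex, whose vertices are the exponents). -/
def Simplices : Prop :=
  ∀ a, LinearIndependent ℚ fun (j : Fin (W.s a)) (i : Fin (N + 1)) =>
    ((W.ex a j.succ i - W.ex a 0 i : ℤ) : ℚ)

/-- The point `0` is an interior point of the Newton polytope of `W` (the sum of `m0` and the
simplices): every nonzero integral linear form is positive at some vertex. -/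
def Interior : Prop :=
  ∀ l : Fin (N + 1) → ℤ, l ≠ 0 → ∃ v : ∀ a, Fin (W.s a + 1),
    0 < ∑ i, l i * (W.m0 i + ∑ a, W.ex a (v a) i)

/-- Some nonzero integral linear form has a maximum `≤ 1` on the Newton polytope of `W` (this holds
for every reflexive polytope). -/
def HeightOne : Prop :=
  ∃ l : Fin (N + 1) → ℤ, l ≠ 0 ∧ ∀ v : ∀ a, Fin (W.s a + 1),
    ∑ i, l i * (W.m0 i + ∑ a, W.ex a (v a) i) ≤ 1

/-- The value of `W` at the point `z` of a field over `K`. -/
noncomputable def eval {L : Type*} [Field L] (c : K →+* L) (z : Fin (N + 1) → L) : L :=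
  (∏ i, z i ^ W.m0 i) * ∏ a, ∑ j, c (W.co a j) * ∏ i, z i ^ W.ex a j i

end Laurent

/-- The data of the varieties: the Laurent polynomial `W`, the tower of graphs `φ_{j,i}` with the
polynomial `g`, and the multiplicities `ν_{j,i}`. -/
structure Dat (K : Type*) [Field K] (N n : ℕ) where
  /-- the Laurent polynomial -/
  W : Laurent K N
  /-- the tower of graphs, and the polynomial `g` -/
  B : Tower K n
  /-- the multiplicities -/
  nu : (j : Fin (n + 1)) → Fin (B.r j + 1) → ℕ

/-- the variables: `z_i`, `z_i⁻¹`, `x_j`, and the inverse of `∏_{j,i} (x_j - φ_{j,i})` -/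
abbrev Var (N n : ℕ) : Type := (Fin (N + 1) ⊕ Fin (N + 1)) ⊕ Option (Fin (n + 1))

section mono

variable (K : Type*) [Field K] {N n : ℕ}

/-- the variable `z_i` -/
noncomputable def zv (i : Fin (N + 1)) : MvPolynomial (Var N n) K := X (Sum.inl (Sum.inl i))

/-- the variable `z_i⁻¹` -/
noncomputable def zi (i : Fin (N + 1)) : MvPolynomial (Var N n) K := X (Sum.inl (Sum.inr i))

/-- the inverse of `∏_{j,i} (x_j - φ_{j,i})` -/
noncomputable def yv : MvPolynomial (Var N n) K := X (Sum.inr none)

/-- the polynomials in the `x_j` -/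
noncomputable def emb : MvPolynomial (Fin (n + 1)) K →+* MvPolynomial (Var N n) K :=
  (rename fun j => Sum.inr (some j) : MvPolynomial (Fin (n + 1)) K →ₐ[K] _).toRingHom

/-- the monomial `∏_i z_i ^ e_i` -/
noncomputable def mono (e : Fin (N + 1) → ℤ) : MvPolynomial (Var N n) K :=
  ∏ i, zv K i ^ (e i).toNat * zi K i ^ (-e i).toNat

end mono

namespace Dat

variable {K : Type*} [Field K] {N n : ℕ} (D : Dat K N n) (lam : K)

/-- the corners of the tower -/
abbrev Ix : Type := (j : Fin (n + 1)) → Fin (D.B.r j + 1)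

/-- The polynomial `Φ = g ∏_{j,i} (x_j - φ_{j,i}) ^ ν_{j,i}`. -/
noncomputable def Phi : MvPolynomial (Fin (n + 1)) K :=
  D.B.g * ∏ j, ∏ i, D.B.fac j i ^ D.nu j i

/-- The product of all `x_j - φ_{j,i}`. -/
noncomputable def all : MvPolynomial (Fin (n + 1)) K := ∏ j, ∏ i, D.B.fac j i

/-- The Laurent polynomial `W`. -/
noncomputable def poly : MvPolynomial (Var N n) K :=
  mono K D.W.m0 * ∏ a, ∑ j, C (D.W.co a j) * mono K (D.W.ex a j)

/-- The equation `W = λ Φ`. -/
noncomputable def relW : MvPolynomial (Var N n) K := D.poly - C lam * emb K D.Phi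

/-- The equation `y ∏ (x_j - φ_{j,i}) = 1`. -/
noncomputable def relY : MvPolynomial (Var N n) K := yv K * emb K D.all - 1

/-- The equations `z_i z_i⁻¹ = 1`, `W = λ Φ` and `y ∏ (x_j - φ_{j,i}) = 1`. -/
noncomputable def rels : Set (MvPolynomial (Var N n) K) :=
  (Set.range fun i => zv K i * zi K i - 1) ∪ {D.relW lam} ∪ {D.relY}

/-- The coordinate ring of the open part `∏ (x_j - φ_{j,i}) ≠ 0` of the variety `W(z) = λ Φ(x)`,
`z_0 ... z_N ≠ 0`. -/
def CRing : Type _ := MvPolynomial (Var N n) K ⧸ Ideal.span (D.rels lam)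

noncomputable instance : CommRing (D.CRing lam) :=
  show CommRing (MvPolynomial (Var N n) K ⧸ Ideal.span (D.rels lam)) from inferInstance

/-- The functions defined by the polynomials. -/
noncomputable def mkC : MvPolynomial (Var N n) K →+* D.CRing lam :=
  Ideal.Quotient.mk (Ideal.span (D.rels lam))

theorem mkC_rels {p : MvPolynomial (Var N n) K} (hp : p ∈ D.rels lam) : D.mkC lam p = 0 :=
  Ideal.Quotient.eq_zero_iff_mem.2 (Ideal.subset_span hp)

theorem mkC_z (i : Fin (N + 1)) : D.mkC lam (zv K i) * D.mkC lam (zi K i) = 1 := by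
  have h := D.mkC_rels lam (p := zv K i * zi K i - 1) (Or.inl (Or.inl ⟨i, rfl⟩))
  rwa [map_sub, map_mul, map_one, sub_eq_zero] at h

theorem mkC_poly : D.mkC lam D.poly = D.mkC lam (C lam) * D.mkC lam (emb K D.Phi) := by
  have h : D.mkC lam (D.poly - C lam * emb K D.Phi) = 0 :=
    D.mkC_rels lam (p := D.relW lam) (Or.inl (Or.inr rfl))
  rwa [map_sub, map_mul, sub_eq_zero] at h

theorem mkC_y : D.mkC lam (yv K) * D.mkC lam (emb K D.all) = 1 := by
  have h : D.mkC lam (yv K * emb K D.all - 1) = 0 :=
    D.mkC_rels lam (p := D.relY) (Or.inr rfl)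
  rwa [map_sub, map_mul, map_one, sub_eq_zero] at h

/-- the unit `z_i` -/
noncomputable def uz (i : Fin (N + 1)) : (D.CRing lam)ˣ where
  val := D.mkC lam (zv K i)
  inv := D.mkC lam (zi K i)
  val_inv := D.mkC_z lam i
  inv_val := by rw [mul_comm]; exact D.mkC_z lam i

theorem isUnit_fac (j : Fin (n + 1)) (i : Fin (D.B.r j + 1)) :
    IsUnit (D.mkC lam (emb K (D.B.fac j i))) := by
  refine isUnit_of_dvd_one ?_
  rw [← D.mkC_y lam]
  refine Dvd.dvd.mul_left ?_ _
  unfold all
  simp only [map_prod]
  exact (Finset.dvd_prod_of_mem (fun i => D.mkC lam (emb K (D.B.fac j i)))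
    (Finset.mem_univ i)).trans
    (Finset.dvd_prod_of_mem (fun j => ∏ i, D.mkC lam (emb K (D.B.fac j i))) (Finset.mem_univ j))

/-- the unit `x_j - φ_{j,i}` -/
noncomputable def ux (j : Fin (n + 1)) (i : Fin (D.B.r j + 1)) : (D.CRing lam)ˣ :=
  (D.isUnit_fac lam j i).unit

theorem coe_ux (j : Fin (n + 1)) (i : Fin (D.B.r j + 1)) :
    (D.ux lam j i : D.CRing lam) = D.mkC lam (emb K (D.B.fac j i)) := rfl

/-- The entries `z_0, ..., z_N, x_0 - φ_{0,k_0}, ..., x_n - φ_{n,k_n}`. -/
noncomputable def ent (k : D.Ix) : Fin (N + 1 + (n + 1)) → (D.CRing lam)ˣ :=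
  Fin.append (D.uz lam) fun j => D.ux lam j (k j)

/-- The restriction of polynomials to the graph `x_j = φ_{j,i}`: `φ_{j,i}` is substituted for
`x_j`. -/
noncomputable def res (j : Fin (n + 1)) (i : Fin (D.B.r j + 1)) :
    MvPolynomial (Fin (n + 1)) K →ₐ[K] MvPolynomial (Fin (n + 1)) K :=
  bind₁ (Function.update X j (D.B.phi j i))

/-- The restriction of `φ_{l,t}` to the graph `x_j = φ_{j,i}`. -/
noncomputable def rphi (j : Fin (n + 1)) (i : Fin (D.B.r j + 1)) (l : Fin (n + 1))
    (t : Fin (D.B.r l + 1)) : MvPolynomial (Fin (n + 1)) K := D.res j i (D.B.phi l t)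

/-- The corners `k` and `k'` lie on the same graph `x_j = φ_{j,k_j}` of level `j` and on the same
graphs of the levels `l > j`, and their graphs of the levels `l < j` have the same restrictions to
the graph of level `j`. -/
def Same (j : Fin (n + 1)) (k k' : D.Ix) : Prop :=
  k' j = k j ∧ (∀ l, j < l → k' l = k l) ∧
    ∀ l, l < j → D.rphi j (k j) l (k' l) = D.rphi j (k j) l (k l)

/-- The sums over each level vanish. -/
def LevelSums (m : D.Ix → ℚ) : Prop :=
  ∀ (j : Fin (n + 1)) (k : D.Ix), ∑ i, m (Function.update k j i) = 0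

open Classical in
/-- For every graph of multiplicity `ν_{j,i} = 0` the sum over all corners on this graph with the same
graphs of the higher levels and the same restrictions of the graphs of the lower levels vanishes. -/
def ZeroSums (m : D.Ix → ℚ) : Prop :=
  ∀ (j : Fin (n + 1)) (k : D.Ix), D.nu j (k j) = 0 →
    ∑ k' ∈ Finset.univ.filter (D.Same j k), m k' = 0

/-- The admissible coefficients. -/
def IsAdm (m : D.Ix → ℚ) : Prop := D.LevelSums m ∧ D.ZeroSums m

/-- The space of the admissible coefficients. -/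
noncomputable def Adm : Submodule ℚ (D.Ix → ℚ) where
  carrier := {m | D.IsAdm m}
  add_mem' := by
    rintro a b ⟨ha1, ha2⟩ ⟨hb1, hb2⟩
    refine ⟨fun j k => ?_, fun j k h => ?_⟩
    · simp only [Pi.add_apply, Finset.sum_add_distrib, ha1 j k, hb1 j k, add_zero]
    · simp only [Pi.add_apply, Finset.sum_add_distrib, ha2 j k h, hb2 j k h, add_zero]
  zero_mem' := ⟨fun j k => by simp, fun j k h => by simp⟩
  smul_mem' := by
    rintro c a ⟨ha1, ha2⟩
    refine ⟨fun j k => ?_, fun j k h => ?_⟩
    · simp only [Pi.smul_apply, smul_eq_mul, ← Finset.mul_sum, ha1 j k, mul_zero]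
    · simp only [Pi.smul_apply, smul_eq_mul, ← Finset.mul_sum, ha2 j k h, mul_zero]

/-- The dimension of the space of the admissible coefficients. -/
noncomputable def dim : ℕ := Module.finrank ℚ D.Adm

/-- A linearly independent family of admissible coefficients of the length of the dimension (a basis
of the space of the admissible coefficients). -/
def IsBasis (B : Fin D.dim → D.Ix → ℚ) : Prop := (∀ m, D.IsAdm (B m)) ∧ LinearIndependent ℚ B

/-- The group `K_{N+n+2} ⊗ ℚ` of the coordinate ring. -/
abbrev KM : Type _ := KQ (D.CRing lam) (N + 1 + (n + 1))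

/-- The symbol `{z_0, ..., z_N, x_0 - φ_{0,k_0}, ..., x_n - φ_{n,k_n}}`. -/
noncomputable def sy (k : D.Ix) : D.KM lam := symb (D.ent lam k)

/-- The class `∑_k m_k {z_0, ..., z_N, x_0 - φ_{0,k_0}, ..., x_n - φ_{n,k_n}}`. -/
noncomputable def cl (m : D.Ix → ℚ) : D.KM lam := ∑ k, m k • D.sy lam k

/-- The tori of dimension `N + n + 1` in the complex points of the coordinate ring. -/
abbrev Tor : Type _ := Torus (D.CRing lam) (N + 1 + n)

/-- The regulator of a class on a torus. -/
noncomputable def rg (Γ : D.Tor lam) (c : D.KM lam) : ℝ := Γ.reg c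

/-- The matrix of the regulators of all corner symbols on tori `Γ_t`. -/
noncomputable def cornerMat (Γ : D.Ix → D.Tor lam) : Matrix D.Ix D.Ix ℝ :=
  Matrix.of fun t k => D.rg lam (Γ t) (D.sy lam k)

/-- The matrix of the regulators of the classes of `B_m` on tori `Γ_l`. -/
noncomputable def regMat (Γ : Fin D.dim → D.Tor lam) (B : Fin D.dim → D.Ix → ℚ) :
    Matrix (Fin D.dim) (Fin D.dim) ℝ :=
  Matrix.of fun l m => D.rg lam (Γ l) (D.cl lam (B m))

open Classical in
/-- The number `s_{j,i,l}` of the different restrictions of the `φ_{l,t}`, `0 ≤ t ≤ r_l`, to the graph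
`x_j = φ_{j,i}`. -/
noncomputable def nres (j : Fin (n + 1)) (i : Fin (D.B.r j + 1)) (l : Fin (n + 1)) : ℕ :=
  (Finset.univ.image fun t => D.rphi j i l t).card

/-- The numbers `s_{j,i,l} - 1` for `l < j`, `1` for `l = j` and `r_l` for `l > j`. -/
noncomputable def rr (j : Fin (n + 1)) (i : Fin (D.B.r j + 1)) (l : Fin (n + 1)) : ℕ :=
  if l < j then D.nres j i l - 1 else if l = j then 1 else D.B.r l

/-- The sum of `∏_{l < j} (s_{j,i,l} - 1) ∏_{l > j} r_l` over all `(j, i)` with `ν_{j,i} = 0`. -/
noncomputable def defect : ℕ := ∑ j, ∑ i, if D.nu j i = 0 then ∏ l, D.rr j i l else 0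

end Dat

end Pool.Agent.E8helper18.LF
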