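import Pool.Agent.E8helper18.LF.Def
set_option autoImplicit false

/-!
The dimension of the space of the admissible coefficients, if all multiplicities are positive.
-/

namespace Pool.Agent.E8helper18.LF

section chi

/-- `χ(i + 1, i') = δ_{i,i'}` and `χ(0, i') = -1` -/
def chi {r : ℕ} (i : Fin (r + 1)) (i' : Fin r) : ℚ :=
  Fin.cases (-1) (fun l => if l = i' then 1 else 0) i

theorem chi_zero {r : ℕ} (i' : Fin r) : chi 0 i' = -1 := rfl

theorem chi_succ {r : ℕ} (i i' : Fin r) : chi i.succ i' = if i = i' then 1 else 0 := rfl

theorem sum_chi {r : ℕ} (i' : Fin r) : ∑ i, chi i i' = 0 := by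
  rw [Fin.sum_univ_succ, chi_zero]
  simp only [chi_succ]
  rw [Finset.sum_ite_eq' Finset.univ i' fun _ => (1 : ℚ), if_pos (Finset.mem_univ _)]
  ring

end chi

variable {K : Type*} [Field K] {N n : ℕ} (D : Dat K N n)

/-- the expansion of a function on the corners with positive indices -/
noncomputable def ext : ((∀ j, Fin (D.B.r j)) → ℚ) →ₗ[ℚ] (D.Ix → ℚ) where
  toFun a k := ∑ k', a k' * ∏ j, chi (k j) (k' j)
  map_add' a b := by
    funext k
    simp only [Pi.add_apply, add_mul, Finset.sum_add_distrib]
  map_smul' c a := by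
    funext k
    simp only [Pi.smul_apply, smul_eq_mul, RingHom.id_apply, Finset.mul_sum]
    exact Finset.sum_congr rfl fun _ _ => by ring

theorem ext_apply (a : (∀ j, Fin (D.B.r j)) → ℚ) (k : D.Ix) :
    ext D a k = ∑ k', a k' * ∏ j, chi (k j) (k' j) := rfl

theorem ext_succ (a : (∀ j, Fin (D.B.r j)) → ℚ) (k : ∀ j, Fin (D.B.r j)) :
    ext D a (fun j => (k j).succ) = a k := by
  rw [ext_apply, Finset.sum_eq_single k]
  · simp [chi_succ]
  · intro k' _ hk'
    obtain ⟨j, hj⟩ := Function.ne_iff.1 hk'
    rw [Finset.prod_eq_zero (Finset.mem_univ j), mul_zero]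
    rw [chi_succ, if_neg (Ne.symm hj)]
  · intro h
    exact absurd (Finset.mem_univ _) h

theorem sum_ext (a : (∀ j, Fin (D.B.r j)) → ℚ) (j : Fin (n + 1)) (k : D.Ix) :
    ∑ i, ext D a (Function.update k j i) = 0 := by
  simp only [ext_apply]
  rw [Finset.sum_comm]
  refine Finset.sum_eq_zero fun k' _ => ?_
  rw [← Finset.mul_sum]
  have h : ∀ i, ∏ l, chi (Function.update k j i l) (k' l) =
      chi i (k' j) * ∏ l ∈ Finset.univ.erase j, chi (k l) (k' l) := by
    intro i
    rw [← Finset.mul_prod_erase _ _ (Finset.mem_univ j), Function.update_self]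
    congr 1
    refine Finset.prod_congr rfl fun l hl => ?_
    rw [Function.update_of_ne (Finset.ne_of_mem_erase hl)]
  simp only [h]
  rw [← Finset.sum_mul, sum_chi, zero_mul, mul_zero]

theorem eq_zero {m : D.Ix → ℚ} (h1 : ∀ (j : Fin (n + 1)) (k : D.Ix),
    ∑ i, m (Function.update k j i) = 0)
    (h2 : ∀ k : ∀ j, Fin (D.B.r j), m (fun j => (k j).succ) = 0) : m = 0 := by
  have main : ∀ (N : ℕ) (k : D.Ix), (Finset.univ.filter fun j => k j = 0).card = N → m k = 0 := by
    intro N
    induction N with
    | zero =>
      intro k hk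
      rw [Finset.card_eq_zero, Finset.filter_eq_empty_iff] at hk
      have h3 : ∀ j, ∃ i : Fin (D.B.r j), i.succ = k j := fun j =>
        Fin.exists_succ_eq.2 (hk (Finset.mem_univ j))
      choose k' hk' using h3
      have h4 := h2 k'
      have h5 : (fun j => (k' j).succ) = k := funext hk'
      rw [h5] at h4
      exact h4
    | succ N ih =>
      intro k hk
      obtain ⟨j, hj⟩ : (Finset.univ.filter fun j => k j = 0).Nonempty := by
        rw [← Finset.card_pos, hk]
        exact Nat.succ_pos _
      have hj0 : k j = 0 := (Finset.mem_filter.1 hj).2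
      have h3 := h1 j k
      rw [Fin.sum_univ_succ] at h3
      have h4 : Function.update k j 0 = k := by rw [← hj0, Function.update_eq_self]
      rw [h4, Finset.sum_eq_zero, add_zero] at h3
      · exact h3
      · intro i _
        refine ih _ ?_
        have h5 : (Finset.univ.filter fun l => Function.update k j i.succ l = 0) =
            (Finset.univ.filter fun l => k l = 0).erase j := by
          ext l
          simp only [Finset.mem_filter, Finset.mem_univ, true_and, Finset.mem_erase]
          by_cases hl : l = j
          · subst hl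
            rw [Function.update_self]
            constructor
            · intro h
              exact absurd h (Fin.succ_ne_zero i)
            · intro h
              exact absurd rfl h.1
          · rw [Function.update_of_ne hl]
            exact ⟨fun h => ⟨hl, h⟩, fun h => h.2⟩
        rw [h5, Finset.card_erase_of_mem hj, hk]
        rfl
  funext k
  exact main _ k rfl

theorem finrank_Adm (h : ∀ j i, D.nu j i ≠ 0) :
    Module.finrank ℚ D.Adm = ∏ j, D.B.r j := by
  classical
  have hmem : ∀ a, ext D a ∈ D.Adm := fun a =>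
    ⟨fun j k => sum_ext D a j k, fun j k hk => absurd hk (h j (k j))⟩
  have hinj : Function.Injective (LinearMap.codRestrict D.Adm (ext D) hmem) := by
    intro a b hab
    funext k
    have h1 : ext D a = ext D b := congrArg Subtype.val hab
    have h2 := congrFun h1 fun j => (k j).succ
    rwa [ext_succ, ext_succ] at h2
  have hsurj : Function.Surjective (LinearMap.codRestrict D.Adm (ext D) hmem) := by
    rintro ⟨m, hm⟩
    refine ⟨fun k => m fun j => (k j).succ, Subtype.ext ?_⟩
    show ext D _ = m
    rw [← sub_eq_zero]
    refine eq_zero D (fun j k => ?_) fun k => ?_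
    · simp only [Pi.sub_apply, Finset.sum_sub_distrib, sum_ext, hm.1 j k, sub_zero]
    · rw [Pi.sub_apply, ext_succ, sub_self]
  rw [← (LinearEquiv.ofBijective _ ⟨hinj, hsurj⟩).finrank_eq, Module.finrank_pi]
  simp [Fintype.card_pi]

end Pool.Agent.E8helper18.LF
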