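import Pool.Agent.E8helper18.LF.Irr
set_option autoImplicit false

/-!
The ring of the Laurent polynomials in `z_0, ..., z_N`, and the valuation given by an integral
linear form on the exponents.
-/

namespace Pool.Agent.E8helper18.LF

open MvPolynomial

open WithZero (exp log)

open scoped WithZero LaurentPolynomial

section LR

variable (K : Type*) [Field K] (N : ℕ)

/-- the Laurent polynomials -/
abbrev LR : Type _ := Localization.Away (∏ i, X i : MvPolynomial (Fin (N + 1)) K)

variable {K N}

theorem prod_X_ne_zero : (∏ i, X i : MvPolynomial (Fin (N + 1)) K) ≠ 0 :=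
  Finset.prod_ne_zero_iff.2 fun _ _ => MvPolynomial.X_ne_zero _

noncomputable instance : IsDomain (LR K N) :=
  IsLocalization.isDomain_of_le_nonZeroDivisors (R := MvPolynomial (Fin (N + 1)) K) _
    (powers_le_nonZeroDivisors_of_noZeroDivisors prod_X_ne_zero)

theorem isUnit_sz (i : Fin (N + 1)) :
    IsUnit (algebraMap (MvPolynomial (Fin (N + 1)) K) (LR K N) (X i)) := by
  have h : IsUnit (algebraMap (MvPolynomial (Fin (N + 1)) K) (LR K N) (∏ i, X i)) :=
    IsLocalization.Away.algebraMap_isUnit _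
  refine isUnit_of_dvd_unit ?_ h
  exact map_dvd _ (Finset.dvd_prod_of_mem (fun i => (X i : MvPolynomial (Fin (N + 1)) K))
    (Finset.mem_univ i))

/-- the unit `z_i` -/
noncomputable def sz (i : Fin (N + 1)) : (LR K N)ˣ := (isUnit_sz i).unit

theorem coe_sz (i : Fin (N + 1)) :
    ((sz i : (LR K N)ˣ) : LR K N) = algebraMap (MvPolynomial (Fin (N + 1)) K) (LR K N) (X i) := rfl

/-- the monomial `z ^ e` -/
noncomputable def sm (e : Fin (N + 1) → ℤ) : (LR K N)ˣ := ∏ i, sz i ^ e i

/-- the constants -/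
noncomputable def sC : K →+* LR K N :=
  (algebraMap (MvPolynomial (Fin (N + 1)) K) (LR K N)).comp C

end LR

section hom

variable {K : Type*} [Field K] {N : ℕ} (l : Fin (N + 1) → ℤ)

/-- `z_i ↦ z_i t ^ l_i` -/
noncomputable def th : MvPolynomial (Fin (N + 1)) K →+*
    LaurentPolynomial (MvPolynomial (Fin (N + 1)) K) :=
  MvPolynomial.eval₂Hom (LaurentPolynomial.C.comp C)
    fun i => LaurentPolynomial.C (X i) * LaurentPolynomial.T (l i)

theorem th_injective : Function.Injective (th (K := K) l) := by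
  have h : ((LaurentPolynomial.eval₂ (RingHom.id (MvPolynomial (Fin (N + 1)) K)) 1).comp (th l)) =
      RingHom.id _ := by
    refine MvPolynomial.ringHom_ext (fun c => ?_) fun i => ?_
    · unfold th
      rw [RingHom.comp_apply, MvPolynomial.eval₂Hom_C, RingHom.comp_apply,
        LaurentPolynomial.eval₂_C]
    · unfold th
      rw [RingHom.comp_apply, MvPolynomial.eval₂Hom_X', LaurentPolynomial.eval₂_C_mul_T]
      simp
  intro a b hab
  have h1 := congrArg (LaurentPolynomial.eval₂ (RingHom.id (MvPolynomial (Fin (N + 1)) K)) 1) hab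
  have h2 : ∀ a, LaurentPolynomial.eval₂ (RingHom.id (MvPolynomial (Fin (N + 1)) K)) 1 (th l a) =
      a := fun a => congrArg (fun f => f a) h
  rwa [h2, h2] at h1

variable (K N) in
/-- the field of the rational functions in the `z_i` -/
abbrev FR : Type _ := FractionRing (MvPolynomial (Fin (N + 1)) K)

/-- the unit `t` -/
noncomputable def ut : (RatFunc (FR K N))ˣ := Units.mk0 RatFunc.X RatFunc.X_ne_zero

/-- Laurent polynomials in `t` are rational functions of `t` -/
noncomputable def ph : LaurentPolynomial (MvPolynomial (Fin (N + 1)) K) →+* RatFunc (FR K N) :=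
  LaurentPolynomial.eval₂ (RatFunc.C.comp (algebraMap (MvPolynomial (Fin (N + 1)) K) (FR K N))) ut

theorem ph_injective : Function.Injective (ph (K := K) (N := N)) := by
  rw [injective_iff_map_eq_zero]
  intro f hf
  obtain ⟨n, f', hf'⟩ := LaurentPolynomial.exists_T_pow f
  have h1 : ph (K := K) (N := N) (Polynomial.toLaurent f') = 0 := by
    rw [hf', map_mul, hf, zero_mul]
  unfold ph at h1
  rw [LaurentPolynomial.eval₂_toLaurent] at h1
  have h2 : Polynomial.eval₂ (RatFunc.C.comp (algebraMap (MvPolynomial (Fin (N + 1)) K) (FR K N)))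
      ((ut : (RatFunc (FR K N))ˣ) : RatFunc (FR K N)) f' =
      algebraMap (Polynomial (FR K N)) (RatFunc (FR K N)) (f'.map (algebraMap (MvPolynomial (Fin (N + 1)) K) (FR K N))) := by
    have h3 : Polynomial.eval₂RingHom (RatFunc.C.comp (algebraMap (MvPolynomial (Fin (N + 1)) K) (FR K N)))
        ((ut : (RatFunc (FR K N))ˣ) : RatFunc (FR K N)) =
        (algebraMap (Polynomial (FR K N)) (RatFunc (FR K N))).comp
          (Polynomial.mapRingHom (algebraMap (MvPolynomial (Fin (N + 1)) K) (FR K N))) := by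
      refine Polynomial.ringHom_ext (fun a => ?_) ?_
      · rw [Polynomial.coe_eval₂RingHom, Polynomial.eval₂_C, RingHom.comp_apply,
          RingHom.comp_apply, Polynomial.coe_mapRingHom, Polynomial.map_C, RatFunc.algebraMap_C]
      · rw [Polynomial.coe_eval₂RingHom, Polynomial.eval₂_X, RingHom.comp_apply,
          Polynomial.coe_mapRingHom, Polynomial.map_X, RatFunc.algebraMap_X]
        rfl
    exact congrArg (fun g => g f') h3
  rw [h2] at h1
  have h4 : f'.map (algebraMap (MvPolynomial (Fin (N + 1)) K) (FR K N)) = 0 :=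
    (injective_iff_map_eq_zero _).1 (RatFunc.algebraMap_injective (FR K N)) _ h1
  have h5 : f' = 0 := by
    rw [← Polynomial.map_zero (algebraMap (MvPolynomial (Fin (N + 1)) K) (FR K N))] at h4
    exact Polynomial.map_injective _ (IsFractionRing.injective _ _) h4
  rw [h5, map_zero] at hf'
  have h6 : f * LaurentPolynomial.T n * LaurentPolynomial.T (-n) = f := by
    rw [mul_assoc, ← LaurentPolynomial.T_add, add_neg_cancel, LaurentPolynomial.T_zero, mul_one]
  rw [← h6, ← hf', zero_mul]

/-- `z_i ↦ z_i t ^ l_i` -/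
noncomputable def ps : MvPolynomial (Fin (N + 1)) K →+* RatFunc (FR K N) := ph.comp (th l)

theorem ps_injective : Function.Injective (ps (K := K) l) :=
  ph_injective.comp (th_injective l)

theorem ps_C (c : K) : ps l (C c) = RatFunc.C (algebraMap (MvPolynomial (Fin (N + 1)) K) (FR K N) (C c)) := by
  unfold ps th ph
  rw [RingHom.comp_apply, MvPolynomial.eval₂Hom_C, RingHom.comp_apply,
    LaurentPolynomial.eval₂_C]
  rfl

theorem ps_X (i : Fin (N + 1)) : ps (K := K) l (X i) =
    RatFunc.C (algebraMap (MvPolynomial (Fin (N + 1)) K) (FR K N) (X i)) * RatFunc.X ^ l i := by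
  unfold ps th ph
  rw [RingHom.comp_apply, MvPolynomial.eval₂Hom_X', LaurentPolynomial.eval₂_C_mul_T,
    Units.val_zpow_eq_zpow_val]
  rfl

theorem isUnit_ps : IsUnit (ps (K := K) l (∏ i, X i)) :=
  isUnit_iff_ne_zero.2 ((map_ne_zero_iff _ (ps_injective l)).2 prod_X_ne_zero)

/-- the extension to the Laurent polynomials -/
noncomputable def pL : LR K N →+* RatFunc (FR K N) :=
  IsLocalization.Away.lift (∏ i, X i : MvPolynomial (Fin (N + 1)) K) (isUnit_ps l)

theorem pL_alg (p : MvPolynomial (Fin (N + 1)) K) :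
    pL l (algebraMap (MvPolynomial (Fin (N + 1)) K) (LR K N) p) = ps l p := by
  unfold pL
  rw [IsLocalization.Away.lift_eq]

theorem pL_injective : Function.Injective (pL (K := K) l) := by
  rw [injective_iff_map_eq_zero]
  intro s hs
  obtain ⟨⟨p, q⟩, hpq⟩ := IsLocalization.surj (Submonoid.powers
    (∏ i, X i : MvPolynomial (Fin (N + 1)) K)) s
  have h1 : pL l (algebraMap (MvPolynomial (Fin (N + 1)) K) (LR K N) p) = 0 := by
    have h2 : algebraMap (MvPolynomial (Fin (N + 1)) K) (LR K N) p = s * algebraMap (MvPolynomial (Fin (N + 1)) K) (LR K N) (q : MvPolynomial (Fin (N + 1)) K) :=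
      hpq.symm
    rw [h2, map_mul, hs, zero_mul]
  rw [pL_alg] at h1
  have h3 : p = 0 := (injective_iff_map_eq_zero _).1 (ps_injective l) p h1
  have h4 : s * algebraMap (MvPolynomial (Fin (N + 1)) K) (LR K N) (q : MvPolynomial (Fin (N + 1)) K) = 0 := by
    refine hpq.trans ?_
    show algebraMap (MvPolynomial (Fin (N + 1)) K) (LR K N) p = 0
    rw [h3, map_zero]
  have h5 : IsUnit (algebraMap (MvPolynomial (Fin (N + 1)) K) (LR K N) (q : MvPolynomial (Fin (N + 1)) K)) :=
    IsLocalization.map_units (LR K N) q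
  exact (h5.mul_left_eq_zero).1 h4

/-- the unit `z_i` in the field of the rational functions in the `z_i` -/
theorem X_ne (i : Fin (N + 1)) : (algebraMap (MvPolynomial (Fin (N + 1)) K) (FR K N) (X i)) ≠ 0 :=
  (map_ne_zero_iff _ (IsFractionRing.injective _ _)).2 (MvPolynomial.X_ne_zero i)

/-- the monomial `z ^ e` as a rational function -/
noncomputable def fm (e : Fin (N + 1) → ℤ) : FR K N :=
  ∏ i, (algebraMap (MvPolynomial (Fin (N + 1)) K) (FR K N) (X i)) ^ e i

theorem pL_sm (e : Fin (N + 1) → ℤ) : pL (K := K) l (sm e : (LR K N)ˣ) =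
    RatFunc.C (fm e : FR K N) * RatFunc.X ^ ∑ i, l i * e i := by
  unfold sm fm
  rw [Units.coe_prod, map_prod, map_prod]
  have h : ∀ i, pL (K := K) l ((sz i ^ e i : (LR K N)ˣ) : LR K N) =
      RatFunc.C ((algebraMap (MvPolynomial (Fin (N + 1)) K) (FR K N) (X i)) ^ e i) *
        RatFunc.X ^ (l i * e i) := by
    intro i
    have h1 : pL (K := K) l ((sz i ^ e i : (LR K N)ˣ) : LR K N) =
        (pL l ((sz i : (LR K N)ˣ) : LR K N)) ^ e i := by
      have h2 := congrArg (fun u : (RatFunc (FR K N))ˣ => (u : RatFunc (FR K N)))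
        (map_zpow (Units.map (pL (K := K) (N := N) l).toMonoidHom) (sz i) (e i))
      simp only [Units.val_zpow_eq_zpow_val] at h2
      exact h2
    rw [h1, coe_sz, pL_alg, ps_X, mul_zpow, ← zpow_mul, map_zpow₀]
  rw [Finset.prod_congr rfl fun i _ => h i, Finset.prod_mul_distrib]
  congr 1
  have hX : (RatFunc.X : RatFunc (FR K N)) ≠ 0 := RatFunc.X_ne_zero
  have h2 : ∀ s : Finset (Fin (N + 1)), ∏ i ∈ s, (RatFunc.X : RatFunc (FR K N)) ^ (l i * e i) =
      RatFunc.X ^ ∑ i ∈ s, l i * e i := by
    classical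
    intro s
    induction s using Finset.induction_on with
    | empty => simp
    | insert a s ha ih => rw [Finset.prod_insert ha, Finset.sum_insert ha, zpow_add₀ hX, ih]
  exact h2 Finset.univ

theorem pL_sC (c : K) : pL l (sC c : LR K N) = RatFunc.C (algebraMap (MvPolynomial (Fin (N + 1)) K) (FR K N) (C c)) := by
  unfold sC
  rw [RingHom.comp_apply, pL_alg, ps_C]

open Classical in
/-- the valuation -/
noncomputable def vv : Valuation (LR K N) ℤᵐ⁰ :=
  (RatFunc.inftyValuation (FR K N)).comap (pL l)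

open Classical in
theorem vv_apply (s : LR K N) : vv l s = RatFunc.inftyValuation (FR K N) (pL l s) := rfl

theorem vv_eq_zero {s : LR K N} (h : vv l s = 0) : s = 0 := by
  classical
  rw [vv_apply, map_eq_zero] at h
  exact (injective_iff_map_eq_zero _).1 (pL_injective l) s h

theorem vv_sC {c : K} (hc : c ≠ 0) : vv l (sC c : LR K N) = 1 := by
  classical
  rw [vv_apply, pL_sC, RatFunc.inftyValuation.C]
  rw [map_ne_zero_iff _ (IsFractionRing.injective _ _)]
  exact fun h => hc (MvPolynomial.C_injective _ _ (by rw [h, map_zero]))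

theorem vv_sC_le (c : K) : vv l (sC c : LR K N) ≤ 1 := by
  by_cases hc : c = 0
  · rw [hc, map_zero, map_zero]
    exact zero_le
  · rw [vv_sC l hc]

theorem fm_ne_zero (e : Fin (N + 1) → ℤ) : fm (K := K) (N := N) e ≠ 0 :=
  Finset.prod_ne_zero_iff.2 fun i _ => zpow_ne_zero _ (X_ne i)

theorem vv_sm (e : Fin (N + 1) → ℤ) : vv l ((sm e : (LR K N)ˣ) : LR K N) =
    exp (∑ i, l i * e i) := by
  classical
  rw [vv_apply, pL_sm, map_mul, RatFunc.inftyValuation.C _ (fm_ne_zero e), one_mul,
    RatFunc.inftyValuation.X_zpow]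

/-- different monomials are linearly independent -/
theorem sum_fm_ne_zero {ι : Type*} (s : Finset ι) (hs : s.Nonempty) (e : ι → Fin (N + 1) → ℤ)
    (he : Set.InjOn e s) (c : ι → K) (hc : ∀ j ∈ s, c j ≠ 0) :
    ∑ j ∈ s, algebraMap (MvPolynomial (Fin (N + 1)) K) (FR K N) (C (c j)) * fm (e j) ≠ 0 := by
  classical
  -- a monomial to clear the denominators
  set b : ℕ := ∑ j ∈ s, ∑ i, (e j i).natAbs with hb
  have hbe : ∀ j ∈ s, ∀ i, 0 ≤ e j i + b := by
    intro j hj i
    have h1 : (e j i).natAbs ≤ b :=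
      (Finset.single_le_sum (f := fun i => (e j i).natAbs) (fun _ _ => Nat.zero_le _)
        (Finset.mem_univ i)).trans
        (Finset.single_le_sum (f := fun j => ∑ i, (e j i).natAbs) (fun _ _ => Nat.zero_le _) hj)
    omega
  set p : MvPolynomial (Fin (N + 1)) K := ∑ j ∈ s,
    monomial (Finsupp.equivFunOnFinite.symm fun i => (e j i + b).toNat) (c j) with hp
  have hmul : (∑ j ∈ s, algebraMap (MvPolynomial (Fin (N + 1)) K) (FR K N) (C (c j)) * fm (e j)) * fm (fun _ => (b : ℤ)) =
      algebraMap (MvPolynomial (Fin (N + 1)) K) (FR K N) p := by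
    rw [Finset.sum_mul, hp, map_sum]
    refine Finset.sum_congr rfl fun j hj => ?_
    rw [mul_assoc, MvPolynomial.monomial_eq, map_mul]
    congr 1
    unfold fm
    rw [← Finset.prod_mul_distrib, Finsupp.prod_fintype _ _ fun i => pow_zero _, map_prod]
    refine Finset.prod_congr rfl fun i _ => ?_
    rw [← zpow_add₀ (X_ne i), map_pow, ← zpow_natCast]
    congr 1
    show e j i + b = (((e j i + b).toNat : ℕ) : ℤ)
    rw [Int.toNat_of_nonneg (hbe j hj i)]
  intro h0
  rw [h0, zero_mul] at hmul
  have hp0 : p = 0 := by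
    have h1 := hmul.symm
    rwa [map_eq_zero_iff _ (IsFractionRing.injective _ _)] at h1
  obtain ⟨j0, hj0⟩ := hs
  have hcoeff : p.coeff (Finsupp.equivFunOnFinite.symm fun i => (e j0 i + b).toNat) = c j0 := by
    rw [hp, MvPolynomial.coeff_sum, Finset.sum_eq_single j0]
    · rw [MvPolynomial.coeff_monomial, if_pos rfl]
    · intro j hj hne
      rw [MvPolynomial.coeff_monomial, if_neg]
      intro heq
      apply hne
      apply he hj hj0
      funext i
      have h2 := congrFun (Finsupp.equivFunOnFinite.symm.injective heq) i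
      have h3 := hbe j hj i
      have h4 := hbe j0 hj0 i
      omega
    · intro h
      exact absurd hj0 h
  rw [hp0, MvPolynomial.coeff_zero] at hcoeff
  exact hc j0 hj0 hcoeff.symm

/-- the valuation of a sum of different monomials -/
theorem vv_sum {s : ℕ} (e : Fin (s + 1) → Fin (N + 1) → ℤ) (he : Function.Injective e)
    (c : Fin (s + 1) → K) (hc : ∀ j, c j ≠ 0) {M : ℤ} (hM : ∀ j, ∑ i, l i * e j i ≤ M)
    (hM' : ∃ j, ∑ i, l i * e j i = M) :
    vv l (∑ j, sC (c j) * ((sm (e j) : (LR K N)ˣ) : LR K N)) = exp M := by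
  classical
  rw [vv_apply, map_sum]
  have h1 : ∀ j, pL l (sC (c j) * ((sm (e j) : (LR K N)ˣ) : LR K N)) =
      RatFunc.C (algebraMap (MvPolynomial (Fin (N + 1)) K) (FR K N) (C (c j)) * fm (e j)) * RatFunc.X ^ ∑ i, l i * e j i := by
    intro j
    rw [map_mul, pL_sC, pL_sm, map_mul, mul_assoc]
  simp only [h1]
  set T := Finset.univ.filter fun j => ∑ i, l i * e j i = M with hT
  rw [← Finset.sum_filter_add_sum_filter_not Finset.univ fun j => ∑ i, l i * e j i = M]
  have h2 : ∑ j ∈ Finset.univ.filter (fun j => ∑ i, l i * e j i = M),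
      RatFunc.C (algebraMap (MvPolynomial (Fin (N + 1)) K) (FR K N) (C (c j)) * fm (e j)) *
        (RatFunc.X : RatFunc (FR K N)) ^ ∑ i, l i * e j i =
      RatFunc.C (∑ j ∈ T, algebraMap (MvPolynomial (Fin (N + 1)) K) (FR K N) (C (c j)) * fm (e j)) * RatFunc.X ^ M := by
    rw [map_sum, Finset.sum_mul]
    refine Finset.sum_congr rfl fun j hj => ?_
    rw [(Finset.mem_filter.1 hj).2]
  have h3 : RatFunc.inftyValuation (FR K N)
      (RatFunc.C (∑ j ∈ T, algebraMap (MvPolynomial (Fin (N + 1)) K) (FR K N) (C (c j)) * fm (e j)) * RatFunc.X ^ M) =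
      exp M := by
    rw [map_mul, RatFunc.inftyValuation.C, one_mul, RatFunc.inftyValuation.X_zpow]
    obtain ⟨j, hj⟩ := hM'
    exact sum_fm_ne_zero T ⟨j, Finset.mem_filter.2 ⟨Finset.mem_univ _, hj⟩⟩ e he.injOn c
      fun j _ => hc j
  rw [h2]
  have h4 : RatFunc.inftyValuation (FR K N)
      (∑ j ∈ Finset.univ.filter (fun j => ¬ ∑ i, l i * e j i = M),
        RatFunc.C (algebraMap (MvPolynomial (Fin (N + 1)) K) (FR K N) (C (c j)) * fm (e j)) *
          (RatFunc.X : RatFunc (FR K N)) ^ ∑ i, l i * e j i) < exp M := by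
    refine Valuation.map_sum_lt _ (WithZero.exp_ne_zero) fun j hj => ?_
    rw [map_mul, RatFunc.inftyValuation.C, one_mul, RatFunc.inftyValuation.X_zpow,
      WithZero.exp_lt_exp]
    · exact lt_of_le_of_ne (hM j) (Finset.mem_filter.1 hj).2
    · refine mul_ne_zero ?_ (fm_ne_zero _)
      rw [map_ne_zero_iff _ (IsFractionRing.injective _ _)]
      exact fun h => hc j (MvPolynomial.C_injective _ _ (by rw [h, map_zero]))
  rw [← h3] at h4 ⊢
  exact Valuation.map_add_eq_of_lt_left _ h4

end hom

end Pool.Agent.E8helper18.LF
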