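import Pool.Agent.E8helper18.LF.Def
import Pool.Agent.E8helper18.LF.Val
set_option autoImplicit false

/-!
The coordinate rings are domains, if some integral linear form has the maximum `1` on the Newton
polytope, and `Φ` is not constant.
-/

namespace Pool.Agent.E8helper18.LF

open MvPolynomial

open WithZero (exp log)

open scoped WithZero MonomialOrder

namespace Laurent

variable {K : Type*} [Field K] {N : ℕ} (W : Laurent K N)

/-- `W` as an element of the ring of the Laurent polynomials -/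
noncomputable def toS : LR K N :=
  ((sm W.m0 : (LR K N)ˣ) : LR K N) *
    ∏ a, ∑ j, sC (W.co a j) * ((sm (W.ex a j) : (LR K N)ˣ) : LR K N)

variable {W}

theorem ex_injective (hS : W.Simplices) (a : Fin W.A) : Function.Injective (W.ex a) := by
  have hli := hS a
  intro j j' h
  have hne0 : ∀ j : Fin (W.s a), W.ex a j.succ ≠ W.ex a 0 := by
    intro j h
    refine hli.ne_zero j ?_
    funext i
    simp [h]
  refine Fin.cases (fun h => ?_) (fun j h => ?_) j h
  · refine Fin.cases (fun _ => rfl) (fun j' h => ?_) j' h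
    exact absurd h.symm (hne0 j')
  · refine Fin.cases (fun h => ?_) (fun j' h => ?_) j' h
    · exact absurd h (hne0 j)
    · congr 1
      apply hli.injective
      funext i
      simp only
      rw [h]

theorem vv_toS (hC : W.Cyclotomic) (hS : W.Simplices) (hI : W.Interior) {l : Fin (N + 1) → ℤ}
    (hl : l ≠ 0) (hle : ∀ v : ∀ a, Fin (W.s a + 1),
      ∑ i, l i * (W.m0 i + ∑ a, W.ex a (v a) i) ≤ 1) : vv l W.toS = exp (1 : ℤ) := by
  classical
  have hco : ∀ a j, W.co a j ≠ 0 := by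
    intro a j h0
    obtain ⟨k, hk, h1⟩ := hC a j
    rw [h0, zero_pow hk] at h1
    exact zero_ne_one h1
  have hex : ∀ a, ∃ v : Fin (W.s a + 1), ∀ j, ∑ i, l i * W.ex a j i ≤ ∑ i, l i * W.ex a v i := by
    intro a
    obtain ⟨v, -, hv⟩ := Finset.exists_max_image Finset.univ
      (fun j => ∑ i, l i * W.ex a j i) Finset.univ_nonempty
    exact ⟨v, fun j => hv j (Finset.mem_univ _)⟩
  choose v hv using hex
  have hsum : ∀ w : ∀ a, Fin (W.s a + 1), ∑ i, l i * (W.m0 i + ∑ a, W.ex a (w a) i) =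
      ∑ i, l i * W.m0 i + ∑ a, ∑ i, l i * W.ex a (w a) i := by
    intro w
    rw [Finset.sum_comm, ← Finset.sum_add_distrib]
    refine Finset.sum_congr rfl fun i _ => ?_
    rw [mul_add, Finset.mul_sum]
  have h1 : ∑ i, l i * W.m0 i + ∑ a, ∑ i, l i * W.ex a (v a) i = 1 := by
    refine le_antisymm ?_ ?_
    · rw [← hsum]
      exact hle v
    · obtain ⟨w, hw⟩ := hI l hl
      rw [hsum] at hw
      have h2 : ∑ a, ∑ i, l i * W.ex a (w a) i ≤ ∑ a, ∑ i, l i * W.ex a (v a) i :=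
        Finset.sum_le_sum fun a _ => hv a (w a)
      linarith
  unfold toS
  rw [map_mul, map_prod, vv_sm]
  have h3 : ∀ a, vv l (∑ j, sC (W.co a j) * ((sm (W.ex a j) : (LR K N)ˣ) : LR K N)) =
      exp (∑ i, l i * W.ex a (v a) i) := fun a =>
    vv_sum l (W.ex a) (ex_injective hS a) (W.co a) (hco a) (hv a) ⟨v a, rfl⟩
  have h4 : ∀ s : Finset (Fin W.A), ∏ a ∈ s, exp (∑ i, l i * W.ex a (v a) i) =
      exp (∑ a ∈ s, ∑ i, l i * W.ex a (v a) i) := by
    intro s
    induction s using Finset.induction_on with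
    | empty => simp
    | insert a s ha ih => rw [Finset.prod_insert ha, Finset.sum_insert ha, WithZero.exp_add, ih]
  rw [Finset.prod_congr rfl fun a _ => h3 a, h4, ← WithZero.exp_add, h1]

end Laurent

section main

variable {K : Type*} [Field K] {N n : ℕ} (D : Dat K N n) (lam : K)

/-- the equation `W - λ Φ` -/
noncomputable def eqF : MvPolynomial (Fin (n + 1)) (LR K N) :=
  C D.W.toS - map sC (C lam * D.Phi)

theorem coeff_eqF_zero : (eqF D lam).coeff 0 = D.W.toS - sC (lam * D.Phi.coeff 0) := by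
  unfold eqF
  rw [MvPolynomial.coeff_sub, MvPolynomial.coeff_C, if_pos rfl, MvPolynomial.coeff_map,
    MvPolynomial.coeff_C_mul]

theorem coeff_eqF {α : Fin (n + 1) →₀ ℕ} (hα : α ≠ 0) :
    (eqF D lam).coeff α = -sC (lam * D.Phi.coeff α) := by
  unfold eqF
  rw [MvPolynomial.coeff_sub, MvPolynomial.coeff_C, if_neg (Ne.symm hα),
    MvPolynomial.coeff_map, MvPolynomial.coeff_C_mul, zero_sub]

variable {D lam}

theorem sC_injective : Function.Injective (sC : K →+* LR K N) := RingHom.injective _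

theorem val_eqF_zero (hC : D.W.Cyclotomic) (hS : D.W.Simplices) (hI : D.W.Interior)
    {l : Fin (N + 1) → ℤ} (hl : l ≠ 0) (hle : ∀ v : ∀ a, Fin (D.W.s a + 1),
      ∑ i, l i * (D.W.m0 i + ∑ a, D.W.ex a (v a) i) ≤ 1) :
    vv l ((eqF D lam).coeff 0) = exp (1 : ℤ) := by
  have h1 := Laurent.vv_toS hC hS hI hl hle
  have h2 := vv_sC_le l (N := N) (lam * D.Phi.coeff 0)
  rw [coeff_eqF_zero, ← h1]
  refine Valuation.map_sub_eq_of_lt_left (vv (K := K) l) ?_
  rw [h1]
  refine lt_of_le_of_lt h2 ?_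
  rw [← WithZero.exp_zero, WithZero.exp_lt_exp]
  exact one_pos

theorem val_eqF {l : Fin (N + 1) → ℤ} (α : Fin (n + 1) →₀ ℕ) (hα : α ≠ 0)
    (h : (eqF D lam).coeff α ≠ 0) :
    IsUnit ((eqF D lam).coeff α) ∧ vv l ((eqF D lam).coeff α) = 1 := by
  rw [coeff_eqF D lam hα] at h ⊢
  have h1 : lam * D.Phi.coeff α ≠ 0 := by
    intro h0
    rw [h0, map_zero, neg_zero] at h
    exact h rfl
  refine ⟨((isUnit_iff_ne_zero.2 h1).map (sC : K →+* LR K N)).neg, ?_⟩
  rw [Valuation.map_neg, vv_sC l h1]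

theorem exists_coeff (hlam : lam ≠ 0) (hP : ∀ c : K, D.Phi ≠ C c) :
    ∃ α, α ≠ 0 ∧ (eqF D lam).coeff α ≠ 0 := by
  have h : ∃ α, α ≠ 0 ∧ D.Phi.coeff α ≠ 0 := by
    by_contra hcon
    push Not at hcon
    refine hP (D.Phi.coeff 0) ?_
    ext α
    rw [MvPolynomial.coeff_C]
    split_ifs with h
    · rw [h]
    · exact hcon α (Ne.symm h)
  obtain ⟨α, hα, hα'⟩ := h
  refine ⟨α, hα, ?_⟩
  rw [coeff_eqF D lam hα, neg_ne_zero, map_ne_zero_iff _ sC_injective]
  exact mul_ne_zero hlam hα'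

theorem irreducible_eqF (hC : D.W.Cyclotomic) (hS : D.W.Simplices) (hI : D.W.Interior)
    (hH : D.W.HeightOne) (hlam : lam ≠ 0) (hP : ∀ c : K, D.Phi ≠ C c) :
    Irreducible (eqF D lam) := by
  obtain ⟨l, hl, hle⟩ := hH
  exact irreducible_of_val MonomialOrder.lex (vv l) (fun x hx => vv_eq_zero l hx)
    (val_eqF_zero hC hS hI hl hle) (fun α h1 h2 => val_eqF α h1 h2) (exists_coeff hlam hP)

theorem not_dvd (hC : D.W.Cyclotomic) (hS : D.W.Simplices) (hI : D.W.Interior)
    (hH : D.W.HeightOne) (hlam : lam ≠ 0) (hP : ∀ c : K, D.Phi ≠ C c)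
    {q : MvPolynomial (Fin (n + 1)) K} (hq : q ≠ 0) : ¬ eqF D lam ∣ map sC q := by
  obtain ⟨l, hl, hle⟩ := hH
  rintro ⟨H, hH⟩
  have hq' : map (sC : K →+* LR K N) q ≠ 0 :=
    (map_ne_zero_iff _ (MvPolynomial.map_injective _ sC_injective)).2 hq
  have hH0 : H ≠ 0 := by
    rintro rfl
    rw [mul_zero] at hH
    exact hq' hH
  have hF0 : eqF D lam ≠ 0 := by
    intro h
    rw [h, zero_mul] at hH
    exact hq' hH
  set m : MonomialOrder (Fin (n + 1)) := MonomialOrder.lex with hm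
  have hv0 := val_eqF_zero (lam := lam) hC hS hI hl hle
  have h1lt : (1 : ℤᵐ⁰) < exp (1 : ℤ) := by
    rw [← WithZero.exp_zero, WithZero.exp_lt_exp]
    exact one_pos
  have hlt : ∀ δ : Fin (n + 1) →₀ ℕ, δ ≠ 0 →
      vv l ((eqF D lam).coeff δ) < vv l ((eqF D lam).coeff 0) := by
    intro δ hδ
    rw [hv0]
    by_cases h : (eqF D lam).coeff δ = 0
    · rw [h, map_zero]
      exact WithZero.exp_pos
    · rw [(val_eqF δ hδ h).2]
      exact h1lt
  obtain ⟨γ, hγ0, hγ1, hγ2⟩ := exists_top m (vv l) (fun x hx => vv_eq_zero l hx) hH0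
  have h2 := val_coeff_add m (vv l) (G := eqF D lam) (β := 0) (by rw [hv0]; exact WithZero.exp_ne_zero)
    (fun δ => by
      by_cases hδ : δ = 0
      · rw [hδ]
      · exact (hlt δ hδ).le)
    (fun δ hδ => hlt δ fun h => by rw [h] at hδ; exact lt_irrefl _ hδ) hγ0 hγ1 hγ2
  rw [← hH, zero_add, MvPolynomial.coeff_map, hv0] at h2
  have h3 := vv_sC_le l (N := N) (q.coeff γ)
  rw [h2] at h3
  -- the leading coefficients
  have h4 := m.coeff_mul_of_degree_add (f := eqF D lam) (g := H)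
  rw [← hH, MvPolynomial.coeff_map] at h4
  have h5 : sC (q.coeff (m.degree (eqF D lam) + m.degree H)) ≠ (0 : LR K N) := by
    rw [h4]
    exact mul_ne_zero (m.leadingCoeff_ne_zero_iff.2 hF0) (m.leadingCoeff_ne_zero_iff.2 hH0)
  have h6 : q.coeff (m.degree (eqF D lam) + m.degree H) ≠ 0 := by
    intro h
    rw [h, map_zero] at h5
    exact h5 rfl
  have h7 := congrArg (vv l) h4
  rw [vv_sC l h6, map_mul] at h7
  have hdeg : m.degree (eqF D lam) ≠ 0 := by
    intro h
    obtain ⟨α, hα, hα'⟩ := exists_coeff (D := D) hlam hP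
    have h8 := m.eq_C_of_degree_eq_zero h
    rw [h8, MvPolynomial.coeff_C, if_neg (Ne.symm hα)] at hα'
    exact hα' rfl
  have h9 : vv l (m.leadingCoeff (eqF D lam)) = 1 :=
    (val_eqF (m.degree (eqF D lam)) hdeg (m.leadingCoeff_ne_zero_iff.2 hF0)).2
  rw [h9, one_mul] at h7
  have h10 : vv l (H.coeff γ) < 1 := by
    have h11 : vv l (H.coeff γ) < exp (1 : ℤ) * vv l (H.coeff γ) := by
      calc vv l (H.coeff γ) = 1 * vv l (H.coeff γ) := (one_mul _).symm
        _ < exp (1 : ℤ) * vv l (H.coeff γ) :=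
          mul_lt_mul_of_pos_right h1lt (zero_lt_iff.2 hγ0)
    exact lt_of_lt_of_le h11 h3
  have h12 : vv l (m.leadingCoeff H) ≤ vv l (H.coeff γ) := hγ1 _
  rw [← h7] at h12
  exact absurd h10 (not_lt.2 h12)

end main

end Pool.Agent.E8helper18.LF
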