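import Pool.Agent.E8helper18.LF.Dom
set_option autoImplicit false

/-!
The coordinate ring is isomorphic to a localization of a domain.
-/

namespace Pool.Agent.E8helper18.LF

open MvPolynomial

section ring

variable {K : Type*} [Field K] {N n : ℕ} (D : Dat K N n) (lam : K)

/-- the quotient by the equation -/
def QR : Type _ := MvPolynomial (Fin (n + 1)) (LR K N) ⧸ Ideal.span {eqF D lam}

noncomputable instance : CommRing (QR D lam) :=
  show CommRing (MvPolynomial (Fin (n + 1)) (LR K N) ⧸ Ideal.span {eqF D lam}) from inferInstance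

/-- the map to the quotient -/
noncomputable def mkQ : MvPolynomial (Fin (n + 1)) (LR K N) →+* QR D lam :=
  Ideal.Quotient.mk (Ideal.span {eqF D lam})

/-- the product of the `x_j - φ_{j,i}` -/
noncomputable def aQ : QR D lam := mkQ D lam (map sC D.all)

/-- the localization -/
abbrev QL : Type _ := Localization.Away (aQ D lam)

/-- the map to the localization -/
noncomputable def toL : MvPolynomial (Fin (n + 1)) (LR K N) →+* QL D lam :=
  (algebraMap (QR D lam) (QL D lam)).comp (mkQ D lam)

theorem toL_eqF : toL D lam (eqF D lam) = 0 := by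
  unfold toL
  have h : mkQ D lam (eqF D lam) = 0 :=
    Ideal.Quotient.eq_zero_iff_mem.2 (Ideal.mem_span_singleton_self _)
  rw [RingHom.comp_apply, h, map_zero]

theorem isUnit_toL : IsUnit (toL D lam (map sC D.all)) :=
  IsLocalization.Away.algebraMap_isUnit (aQ D lam)

/-- the values of the variables -/
noncomputable def gL : Var N n → QL D lam :=
  Sum.elim (Sum.elim (fun i => toL D lam (C ((sz i : (LR K N)ˣ) : LR K N)))
    fun i => toL D lam (C (((sz i)⁻¹ : (LR K N)ˣ) : LR K N)))
    fun o => o.elim (((isUnit_toL D lam).unit⁻¹ : (QL D lam)ˣ) : QL D lam)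
      fun j => toL D lam (X j)

/-- the map from the polynomial ring -/
noncomputable def psi0 : MvPolynomial (Var N n) K →+* QL D lam :=
  MvPolynomial.eval₂Hom ((toL D lam).comp (C.comp sC)) (gL D lam)

theorem psi0_C (c : K) : psi0 D lam (C c) = toL D lam (C (sC c)) := by
  unfold psi0
  rw [MvPolynomial.eval₂Hom_C]
  rfl

theorem psi0_zv (i : Fin (N + 1)) :
    psi0 D lam (zv K i) = toL D lam (C ((sz i : (LR K N)ˣ) : LR K N)) := by
  unfold psi0 zv
  rw [MvPolynomial.eval₂Hom_X']
  rfl

theorem psi0_zi (i : Fin (N + 1)) :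
    psi0 D lam (zi K i) = toL D lam (C (((sz i)⁻¹ : (LR K N)ˣ) : LR K N)) := by
  unfold psi0 zi
  rw [MvPolynomial.eval₂Hom_X']
  rfl

theorem psi0_yv : psi0 D lam (yv K) = (((isUnit_toL D lam).unit⁻¹ : (QL D lam)ˣ) : QL D lam) := by
  unfold psi0 yv
  rw [MvPolynomial.eval₂Hom_X']
  rfl

theorem psi0_x (j : Fin (n + 1)) : psi0 D lam (X (Sum.inr (some j))) = toL D lam (X j) := by
  unfold psi0
  rw [MvPolynomial.eval₂Hom_X']
  rfl

theorem psi0_emb (p : MvPolynomial (Fin (n + 1)) K) :
    psi0 D lam (emb K p) = toL D lam (map sC p) := by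
  have h : (psi0 D lam).comp (emb K) = (toL D lam).comp (map sC) := by
    refine MvPolynomial.ringHom_ext (fun c => ?_) fun j => ?_
    · rw [RingHom.comp_apply, RingHom.comp_apply, MvPolynomial.map_C]
      unfold emb
      show psi0 D lam (rename _ (C c)) = _
      rw [MvPolynomial.rename_C, psi0_C]
    · rw [RingHom.comp_apply, RingHom.comp_apply, MvPolynomial.map_X]
      unfold emb
      show psi0 D lam (rename _ (X j)) = _
      rw [MvPolynomial.rename_X, psi0_x]
  exact congrArg (fun f => f p) h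

theorem psi0_mono (e : Fin (N + 1) → ℤ) :
    psi0 D lam (mono K e) = toL D lam (C ((sm e : (LR K N)ˣ) : LR K N)) := by
  unfold mono sm
  rw [map_prod, Units.coe_prod, map_prod, map_prod]
  refine Finset.prod_congr rfl fun i _ => ?_
  rw [map_mul, map_pow, map_pow, psi0_zv, psi0_zi, ← map_pow (toL D lam), ← map_pow (toL D lam),
    ← map_mul (toL D lam), ← map_pow C, ← map_pow C, ← map_mul C]
  congr 2
  rw [← Units.val_pow_eq_pow_val, ← Units.val_pow_eq_pow_val, ← Units.val_mul]
  congr 1
  rw [inv_pow, ← zpow_natCast, ← zpow_natCast, ← zpow_neg, ← zpow_add]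
  congr 1
  have := Int.toNat_sub_toNat_neg (e i)
  omega

theorem psi0_poly : psi0 D lam D.poly = toL D lam (C D.W.toS) := by
  unfold Dat.poly Laurent.toS
  rw [map_mul, psi0_mono, map_mul, map_mul, map_prod, map_prod, map_prod]
  congr 1
  refine Finset.prod_congr rfl fun a _ => ?_
  rw [map_sum, map_sum, map_sum]
  refine Finset.sum_congr rfl fun j _ => ?_
  rw [map_mul, map_mul, map_mul, psi0_C, psi0_mono]

theorem psi0_rels {p : MvPolynomial (Var N n) K} (hp : p ∈ D.rels lam) : psi0 D lam p = 0 := by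
  rcases hp with (⟨i, rfl⟩ | rfl) | rfl
  · show psi0 D lam (zv K i * zi K i - 1) = 0
    rw [map_sub, map_mul, map_one, psi0_zv, psi0_zi, ← map_mul, ← map_mul, Units.mul_inv, map_one,
      map_one, sub_self]
  · show psi0 D lam (D.poly - C lam * emb K D.Phi) = 0
    rw [map_sub, map_mul, psi0_poly, psi0_C, psi0_emb, ← map_mul, ← map_sub, ← toL_eqF D lam]
    congr 1
    unfold eqF
    rw [map_mul (map sC), MvPolynomial.map_C]
  · show psi0 D lam (yv K * emb K D.all - 1) = 0
    rw [map_sub, map_mul, map_one, psi0_yv, psi0_emb]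
    have h : (((isUnit_toL D lam).unit⁻¹ : (QL D lam)ˣ) : QL D lam) * toL D lam (map sC D.all) =
        1 := IsUnit.val_inv_mul _
    rw [h, sub_self]

/-- the map from the coordinate ring -/
noncomputable def psi : D.CRing lam →+* QL D lam :=
  Ideal.Quotient.lift (Ideal.span (D.rels lam)) (psi0 D lam) (by
    intro p hp
    have hle : Ideal.span (D.rels lam) ≤ RingHom.ker (psi0 D lam) := by
      rw [Ideal.span_le]
      exact fun q hq => psi0_rels D lam hq
    exact hle hp)

theorem psi_mk (p : MvPolynomial (Var N n) K) : psi D lam (D.mkC lam p) = psi0 D lam p :=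
  Ideal.Quotient.lift_mk _ _ _

/-- the map from the polynomials in the `z_i` -/
noncomputable def gz : MvPolynomial (Fin (N + 1)) K →+* D.CRing lam :=
  MvPolynomial.eval₂Hom ((D.mkC lam).comp C) fun i => D.mkC lam (zv K i)

theorem gz_X (i : Fin (N + 1)) : gz D lam (X i) = D.mkC lam (zv K i) := by
  unfold gz
  rw [MvPolynomial.eval₂Hom_X']

theorem gz_C (c : K) : gz D lam (C c) = D.mkC lam (C c) := by
  unfold gz
  rw [MvPolynomial.eval₂Hom_C]
  rfl

theorem isUnit_gz : IsUnit (gz D lam (∏ i, X i)) := by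
  rw [map_prod]
  refine IsUnit.prod_univ_iff.2 fun i => ?_
  rw [gz_X]
  exact (D.uz lam i).isUnit

/-- the map from the Laurent polynomials -/
noncomputable def gS : LR K N →+* D.CRing lam :=
  IsLocalization.Away.lift (∏ i, X i : MvPolynomial (Fin (N + 1)) K) (isUnit_gz D lam)

theorem gS_alg (p : MvPolynomial (Fin (N + 1)) K) :
    gS D lam (algebraMap (MvPolynomial (Fin (N + 1)) K) (LR K N) p) = gz D lam p := by
  unfold gS
  rw [IsLocalization.Away.lift_eq]

theorem gS_sC (c : K) : gS D lam (sC c) = D.mkC lam (C c) := by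
  unfold sC
  rw [RingHom.comp_apply, gS_alg, gz_C]

theorem gS_sz (i : Fin (N + 1)) : Units.map (gS D lam).toMonoidHom (sz i) = D.uz lam i := by
  refine Units.ext ?_
  show gS D lam ((sz i : (LR K N)ˣ) : LR K N) = D.mkC lam (zv K i)
  rw [coe_sz, gS_alg, gz_X]

theorem mkC_mono (e : Fin (N + 1) → ℤ) :
    D.mkC lam (mono K e) = ((∏ i, D.uz lam i ^ e i : (D.CRing lam)ˣ) : D.CRing lam) := by
  unfold mono
  rw [map_prod, Units.coe_prod]
  refine Finset.prod_congr rfl fun i _ => ?_
  rw [map_mul, map_pow, map_pow]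
  have h1 : D.mkC lam (zv K i) = (D.uz lam i : D.CRing lam) := rfl
  have h2 : D.mkC lam (zi K i) = (((D.uz lam i)⁻¹ : (D.CRing lam)ˣ) : D.CRing lam) := rfl
  rw [h1, h2, ← Units.val_pow_eq_pow_val, ← Units.val_pow_eq_pow_val, ← Units.val_mul]
  congr 1
  rw [inv_pow, ← zpow_natCast, ← zpow_natCast, ← zpow_neg, ← zpow_add]
  congr 1
  have := Int.toNat_sub_toNat_neg (e i)
  omega

theorem gS_sm (e : Fin (N + 1) → ℤ) :
    gS D lam ((sm e : (LR K N)ˣ) : LR K N) = D.mkC lam (mono K e) := by
  rw [mkC_mono]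
  have h1 : Units.map (gS D lam).toMonoidHom (sm e) = ∏ i, D.uz lam i ^ e i := by
    unfold sm
    rw [map_prod]
    refine Finset.prod_congr rfl fun i _ => ?_
    rw [map_zpow, gS_sz]
  exact congrArg (fun u : (D.CRing lam)ˣ => (u : D.CRing lam)) h1

theorem gS_toS : gS D lam D.W.toS = D.mkC lam D.poly := by
  unfold Dat.poly Laurent.toS
  rw [map_mul, map_mul, gS_sm, map_prod, map_prod]
  congr 1
  refine Finset.prod_congr rfl fun a _ => ?_
  rw [map_sum, map_sum]
  refine Finset.sum_congr rfl fun j _ => ?_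
  rw [map_mul, map_mul, gS_sm, gS_sC]

/-- the map from the polynomials over the Laurent polynomials -/
noncomputable def gP : MvPolynomial (Fin (n + 1)) (LR K N) →+* D.CRing lam :=
  MvPolynomial.eval₂Hom (gS D lam) fun j => D.mkC lam (X (Sum.inr (some j)))

theorem gP_C (s : LR K N) : gP D lam (C s) = gS D lam s := by
  unfold gP
  rw [MvPolynomial.eval₂Hom_C]

theorem gP_X (j : Fin (n + 1)) : gP D lam (X j) = D.mkC lam (X (Sum.inr (some j))) := by
  unfold gP
  rw [MvPolynomial.eval₂Hom_X']

theorem gP_map (p : MvPolynomial (Fin (n + 1)) K) :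
    gP D lam (map sC p) = D.mkC lam (emb K p) := by
  have h : (gP D lam).comp (map sC) = (D.mkC lam).comp (emb K) := by
    refine MvPolynomial.ringHom_ext (fun c => ?_) fun j => ?_
    · rw [RingHom.comp_apply, RingHom.comp_apply, MvPolynomial.map_C, gP_C, gS_sC]
      unfold emb
      show _ = D.mkC lam (rename _ (C c))
      rw [MvPolynomial.rename_C]
    · rw [RingHom.comp_apply, RingHom.comp_apply, MvPolynomial.map_X, gP_X]
      unfold emb
      show _ = D.mkC lam (rename _ (X j))
      rw [MvPolynomial.rename_X]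
  exact congrArg (fun f => f p) h

theorem gP_eqF : gP D lam (eqF D lam) = 0 := by
  unfold eqF
  rw [map_sub, gP_C, gS_toS, gP_map, map_mul (emb K), map_mul, sub_eq_zero, D.mkC_poly lam]
  congr 2
  unfold emb
  exact (MvPolynomial.rename_C _ _).symm

/-- the map from the quotient -/
noncomputable def gQ : QR D lam →+* D.CRing lam :=
  Ideal.Quotient.lift (Ideal.span {eqF D lam}) (gP D lam) (by
    intro p hp
    obtain ⟨q, rfl⟩ := Ideal.mem_span_singleton.1 hp
    rw [map_mul, gP_eqF, zero_mul])

theorem gQ_mk (p : MvPolynomial (Fin (n + 1)) (LR K N)) :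
    gQ D lam (mkQ D lam p) = gP D lam p :=
  Ideal.Quotient.lift_mk _ _ _

theorem isUnit_gQ : IsUnit (gQ D lam (aQ D lam)) := by
  unfold aQ
  rw [gQ_mk, gP_map]
  exact IsUnit.of_mul_eq_one_right _ (D.mkC_y lam)

/-- the inverse map -/
noncomputable def gl : QL D lam →+* D.CRing lam :=
  IsLocalization.Away.lift (aQ D lam) (isUnit_gQ D lam)

theorem gl_toL (p : MvPolynomial (Fin (n + 1)) (LR K N)) : gl D lam (toL D lam p) = gP D lam p := by
  unfold gl toL
  rw [RingHom.comp_apply, IsLocalization.Away.lift_eq, gQ_mk]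

theorem gl_psi0 (p : MvPolynomial (Var N n) K) : gl D lam (psi0 D lam p) = D.mkC lam p := by
  have h : (gl D lam).comp (psi0 D lam) = D.mkC lam := by
    refine MvPolynomial.ringHom_ext (fun c => ?_) fun v => ?_
    · rw [RingHom.comp_apply, psi0_C, gl_toL, gP_C, gS_sC]
    · rw [RingHom.comp_apply]
      rcases v with (i | i) | (_ | j)
      · have h1 := psi0_zv D lam i
        unfold zv at h1
        rw [h1, gl_toL, gP_C, coe_sz, gS_alg, gz_X]
        rfl
      · have h1 := psi0_zi D lam i
        unfold zi at h1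
        rw [h1, gl_toL, gP_C]
        have h2 : Units.map (gS D lam).toMonoidHom (sz i)⁻¹ = (D.uz lam i)⁻¹ := by
          rw [map_inv, gS_sz]
        exact congrArg (fun u : (D.CRing lam)ˣ => (u : D.CRing lam)) h2
      · have h1 := psi0_yv D lam
        unfold yv at h1
        rw [h1]
        have h2 : gl D lam (((isUnit_toL D lam).unit⁻¹ : (QL D lam)ˣ) : QL D lam) *
            D.mkC lam (emb K D.all) = 1 := by
          rw [← gP_map, ← gl_toL, ← map_mul, IsUnit.val_inv_mul, map_one]
        have h3 := D.mkC_y lam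
        unfold yv at h3
        have h4 : IsUnit (D.mkC lam (emb K D.all)) := IsUnit.of_mul_eq_one_right _ (D.mkC_y lam)
        exact h4.mul_right_cancel (h2.trans h3.symm)
      · rw [psi0_x, gl_toL, gP_X]
  exact congrArg (fun f => f p) h

theorem psi_injective : Function.Injective (psi D lam) := by
  have h : ∀ a, gl D lam (psi D lam a) = a := by
    intro a
    obtain ⟨p, rfl⟩ := Ideal.Quotient.mk_surjective a
    exact (congrArg (gl D lam) (psi_mk D lam p)).trans (gl_psi0 D lam p)
  exact Function.LeftInverse.injective h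

variable {D lam}

theorem all_ne_zero : D.all ≠ 0 ∨ ∃ j i, D.B.fac j i = 0 := by
  by_cases h : ∃ j i, D.B.fac j i = 0
  · exact Or.inr h
  · push Not at h
    exact Or.inl (Finset.prod_ne_zero_iff.2 fun j _ => Finset.prod_ne_zero_iff.2 fun i _ => h j i)

theorem fac_ne_zero (hG : D.B.Graphs) (j : Fin (n + 1)) (i : Fin (D.B.r j + 1)) :
    D.B.fac j i ≠ 0 := by
  intro h
  unfold Pool.Agent.Y797.TW.Tower.fac at h
  have h1 : j ∈ (D.B.phi j i).vars := by
    rw [← sub_eq_zero.1 h, MvPolynomial.vars_X]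
    exact Finset.mem_singleton_self j
  exact lt_irrefl _ (hG.1 j i j h1)

theorem isDomain (hC : D.W.Cyclotomic) (hS : D.W.Simplices) (hI : D.W.Interior)
    (hH : D.W.HeightOne) (hG : D.B.Graphs) (hlam : lam ≠ 0) (hP : ∀ c : K, D.Phi ≠ C c) :
    IsDomain (D.CRing lam) := by
  have hirr := irreducible_eqF (lam := lam) hC hS hI hH hlam hP
  have hprime : (Ideal.span {eqF D lam}).IsPrime :=
    (Ideal.span_singleton_prime hirr.ne_zero).2 hirr.prime
  have hQ : IsDomain (QR D lam) := Ideal.Quotient.isDomain _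
  have hall : D.all ≠ 0 :=
    Finset.prod_ne_zero_iff.2 fun j _ => Finset.prod_ne_zero_iff.2 fun i _ => fac_ne_zero hG j i
  have ha : aQ D lam ≠ 0 := by
    intro h
    have h2 : map sC D.all ∈ Ideal.span {eqF D lam} := Ideal.Quotient.eq_zero_iff_mem.1 h
    rw [Ideal.mem_span_singleton] at h2
    exact not_dvd hC hS hI hH hlam hP hall h2
  have hL : IsDomain (QL D lam) :=
    IsLocalization.isDomain_of_le_nonZeroDivisors (R := QR D lam) _
      (powers_le_nonZeroDivisors_of_noZeroDivisors ha)
  exact (psi_injective D lam).isDomain (psi D lam)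

end ring

end Pool.Agent.E8helper18.LF
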