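import Pool.Agent.E8helper18.LF.Fib
import Pool.Agent.TH826.MK.Eval
import Pool.Agent.TH577.UA.Loc
set_option autoImplicit false

/-!
Evaluation of the functions at complex points, and tori in the complex points.
-/

namespace Pool.Agent.E8helper18.LF

open Pool.Agent.TH826.MK

open Pool.Agent.TH577.UA (good_pow lw_pow)

open MvPolynomial

section lwz

variable {d : ℕ}

theorem good_inv {g : (Fin d → ℝ) → ℂ} (hg : Good g) : Good fun θ => (g θ)⁻¹ :=
  ⟨hg.smooth.inv hg.ne_zero, fun θ => inv_ne_zero (hg.ne_zero θ)⟩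

theorem lw_inv {g : (Fin d → ℝ) → ℂ} (hg : Good g) (i : Fin d) (θ : Fin d → ℝ) :
    lw (fun θ => (g θ)⁻¹) i θ = -lw g i θ := by
  have h := lw_mul hg (good_inv hg) i θ
  have e : (fun θ => g θ * (g θ)⁻¹) = fun _ => (1 : ℂ) := by
    funext θ
    exact mul_inv_cancel₀ (hg.ne_zero θ)
  rw [e, lw_const] at h
  linear_combination -h

theorem good_zpow {g : (Fin d → ℝ) → ℂ} (hg : Good g) (k : ℤ) : Good fun θ => g θ ^ k := by
  cases k with
  | ofNat k => simpa using good_pow hg k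
  | negSucc k =>
    simp only [zpow_negSucc]
    exact good_inv (good_pow hg (k + 1))

theorem lw_zpow {g : (Fin d → ℝ) → ℂ} (hg : Good g) (k : ℤ) (i : Fin d) (θ : Fin d → ℝ) :
    lw (fun θ => g θ ^ k) i θ = k * lw g i θ := by
  cases k with
  | ofNat k => simpa using lw_pow hg k i θ
  | negSucc k =>
    simp only [zpow_negSucc]
    rw [lw_inv (good_pow hg (k + 1)), lw_pow hg]
    push_cast
    ring

theorem good_zprod {ι : Type*} [Fintype ι] {g : ι → (Fin d → ℝ) → ℂ} (hg : ∀ l, Good (g l))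
    (e : ι → ℤ) : Good fun θ => ∏ l, g l θ ^ e l :=
  good_prod Finset.univ fun l => good_zpow (hg l) (e l)

theorem lw_zprod {ι : Type*} [Fintype ι] {g : ι → (Fin d → ℝ) → ℂ} (hg : ∀ l, Good (g l))
    (e : ι → ℤ) (i : Fin d) (θ : Fin d → ℝ) :
    lw (fun θ => ∏ l, g l θ ^ e l) i θ = ∑ l, (e l : ℂ) * lw (g l) i θ := by
  classical
  rw [lw_prod Finset.univ fun l => good_zpow (hg l) (e l)]
  exact Finset.sum_congr rfl fun l _ => lw_zpow (hg l) (e l) i θ

theorem log_zprod {ι : Type*} [Fintype ι] {g : ι → (Fin d → ℝ) → ℂ} (hg : ∀ l, Good (g l))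
    (e : ι → ℤ) (θ : Fin d → ℝ) :
    Real.log ‖∏ l, g l θ ^ e l‖ = ∑ l, (e l : ℝ) * Real.log ‖g l θ‖ := by
  rw [norm_prod, Real.log_prod]
  · refine Finset.sum_congr rfl fun l _ => ?_
    rw [norm_zpow, Real.log_zpow]
  · intro l _
    exact norm_ne_zero_iff.2 (zpow_ne_zero _ ((hg l).ne_zero θ))

end lwz

section hom

variable {K : Type*} [Field K] {N n : ℕ} {L : Type*} [Field L]

theorem map_mono (F : MvPolynomial (Var N n) K →+* L)
    (hF : ∀ i, F (zv K i) * F (zi K i) = 1) (e : Fin (N + 1) → ℤ) :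
    F (mono K e) = ∏ i, F (zv K i) ^ e i := by
  unfold mono
  rw [map_prod]
  refine Finset.prod_congr rfl fun i _ => ?_
  have h1 : F (zi K i) = (F (zv K i))⁻¹ := eq_inv_of_mul_eq_one_right (hF i)
  have h0 : F (zv K i) ≠ 0 := left_ne_zero_of_mul_eq_one (hF i)
  rw [map_mul, map_pow, map_pow, h1, inv_pow, ← zpow_natCast, ← zpow_natCast, ← zpow_neg,
    ← zpow_add₀ h0]
  congr 1
  have := Int.toNat_sub_toNat_neg (e i)
  omega

theorem map_poly (D : Dat K N n) (F : MvPolynomial (Var N n) K →+* L)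
    (hF : ∀ i, F (zv K i) * F (zi K i) = 1) :
    F D.poly = D.W.eval (F.comp C) fun i => F (zv K i) := by
  unfold Dat.poly Laurent.eval
  rw [map_mul, map_mono F hF, map_prod]
  congr 1
  refine Finset.prod_congr rfl fun a _ => ?_
  rw [map_sum]
  refine Finset.sum_congr rfl fun j _ => ?_
  rw [map_mul, map_mono F hF]
  rfl

end hom

section Ev

variable {K : Type*} [Field K] {N n d : ℕ} {D : Dat K N n} {lam : K} {σ : K →+* ℂ}

/-- the complex points of the open part of the variety -/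
structure Pt (D : Dat K N n) (σ : K →+* ℂ) (lam : K) (z : Fin (N + 1) → ℂ)
    (x : Fin (n + 1) → ℂ) : Prop where
  ne_zero : ∀ i, z i ≠ 0
  eqn : D.W.eval σ z = σ lam * eval₂ σ x D.Phi
  fac : ∀ j i, eval₂ σ x (D.B.fac j i) ≠ 0

/-- the values of the variables -/
noncomputable def vals (D : Dat K N n) (σ : K →+* ℂ) (z : Fin (N + 1) → ℂ)
    (x : Fin (n + 1) → ℂ) : Var N n → ℂ :=
  Sum.elim (Sum.elim z fun i => (z i)⁻¹) fun o => o.elim (eval₂ σ x D.all)⁻¹ x

theorem eval_emb (z : Fin (N + 1) → ℂ) (x : Fin (n + 1) → ℂ) (p : MvPolynomial (Fin (n + 1)) K) :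
    eval₂Hom σ (vals D σ z x) (emb K p) = eval₂ σ x p := by
  unfold emb
  show eval₂ σ (vals D σ z x) (rename _ p) = _
  rw [MvPolynomial.eval₂_rename]
  rfl

theorem eval_all (x : Fin (n + 1) → ℂ) :
    eval₂ σ x D.all = ∏ j, ∏ i, eval₂ σ x (D.B.fac j i) := by
  unfold Dat.all
  rw [MvPolynomial.eval₂_prod]
  simp only [MvPolynomial.eval₂_prod]

theorem eval_Phi (x : Fin (n + 1) → ℂ) :
    eval₂ σ x D.Phi = eval₂ σ x D.B.g * ∏ j, ∏ i, eval₂ σ x (D.B.fac j i) ^ D.nu j i := by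
  unfold Dat.Phi
  rw [MvPolynomial.eval₂_mul, MvPolynomial.eval₂_prod]
  simp only [MvPolynomial.eval₂_prod, MvPolynomial.eval₂_pow]

theorem Pt.all_ne {z : Fin (N + 1) → ℂ} {x : Fin (n + 1) → ℂ} (h : Pt D σ lam z x) :
    eval₂ σ x D.all ≠ 0 := by
  rw [eval_all]
  exact Finset.prod_ne_zero_iff.2 fun j _ => Finset.prod_ne_zero_iff.2 fun i _ => h.fac j i

/-- evaluation of the functions at a complex point -/
noncomputable def evC {z : Fin (N + 1) → ℂ} {x : Fin (n + 1) → ℂ} (h : Pt D σ lam z x) :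
    D.CRing lam →+* ℂ :=
  Ideal.Quotient.lift (Ideal.span (D.rels lam)) (eval₂Hom σ (vals D σ z x)) (by
    intro p hp
    have hle : Ideal.span (D.rels lam) ≤ RingHom.ker (eval₂Hom σ (vals D σ z x)) := by
      rw [Ideal.span_le]
      have hz : ∀ i, eval₂Hom σ (vals D σ z x) (zv K i) * eval₂Hom σ (vals D σ z x) (zi K i) =
          1 := by
        intro i
        unfold zv zi
        rw [MvPolynomial.eval₂Hom_X', MvPolynomial.eval₂Hom_X']
        exact mul_inv_cancel₀ (h.ne_zero i)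
      rintro q ((⟨i, rfl⟩ | rfl) | rfl)
      · show eval₂Hom σ (vals D σ z x) (zv K i * zi K i - 1) = 0
        rw [map_sub, map_mul, hz, map_one, sub_self]
      · show eval₂Hom σ (vals D σ z x) (D.poly - C lam * emb K D.Phi) = 0
        rw [map_sub, map_mul, map_poly D _ hz, eval_emb, MvPolynomial.eval₂Hom_C, sub_eq_zero,
          ← h.eqn]
        have e1 : (eval₂Hom σ (vals D σ z x)).comp (C : K →+* MvPolynomial (Var N n) K) = σ := by
          ext a
          exact MvPolynomial.eval₂Hom_C _ _ _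
        have e2 : (fun i => eval₂Hom σ (vals D σ z x) (zv K i)) = z := by
          funext i
          unfold zv
          rw [MvPolynomial.eval₂Hom_X']
          rfl
        rw [e1, e2]
      · show eval₂Hom σ (vals D σ z x) (yv K * emb K D.all - 1) = 0
        rw [map_sub, map_mul, eval_emb, map_one, sub_eq_zero]
        unfold yv
        rw [MvPolynomial.eval₂Hom_X']
        exact inv_mul_cancel₀ h.all_ne
    exact hle hp)

theorem evC_mk {z : Fin (N + 1) → ℂ} {x : Fin (n + 1) → ℂ} (h : Pt D σ lam z x)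
    (p : MvPolynomial (Var N n) K) : evC h (D.mkC lam p) = eval₂ σ (vals D σ z x) p :=
  Ideal.Quotient.lift_mk _ _ _

theorem evC_congr {z z' : Fin (N + 1) → ℂ} {x x' : Fin (n + 1) → ℂ} (h : Pt D σ lam z x)
    (h' : Pt D σ lam z' x') (e1 : z = z') (e2 : x = x') : evC h = evC h' := by
  subst e1
  subst e2
  rfl

theorem contDiff_eval {ι : Type*} {x : (Fin d → ℝ) → (ι → ℂ)}
    (hx : ∀ k, ContDiff ℝ 2 fun θ => x θ k) (p : MvPolynomial ι K) :
    ContDiff ℝ 2 fun θ => eval₂ σ (x θ) p := by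
  induction p using MvPolynomial.induction_on with
  | C c => simpa using contDiff_const
  | add p q hp hq => simpa using hp.add hq
  | mul_X p k hp => simpa using hp.mul (hx k)

theorem contDiff_evC {z : (Fin d → ℝ) → (Fin (N + 1) → ℂ)} {x : (Fin d → ℝ) → (Fin (n + 1) → ℂ)}
    (hz : ∀ k, ContDiff ℝ 2 fun θ => z θ k) (hx : ∀ k, ContDiff ℝ 2 fun θ => x θ k)
    (h : ∀ θ, Pt D σ lam (z θ) (x θ)) (r : D.CRing lam) :
    ContDiff ℝ 2 fun θ => evC (h θ) r := by
  obtain ⟨p, hp⟩ := Ideal.Quotient.mk_surjective r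
  have e : (fun θ => evC (h θ) r) = fun θ => eval₂ σ (vals D σ (z θ) (x θ)) p := by
    funext θ
    rw [← hp]
    exact evC_mk (h θ) p
  rw [e]
  refine contDiff_eval (fun k => ?_) p
  rcases k with (i | i) | (_ | j)
  · exact hz i
  · exact (hz i).inv fun θ => (h θ).ne_zero i
  · exact (contDiff_eval hx D.all).inv fun θ => (h θ).all_ne
  · exact hx j

/-- a torus in the variety -/
noncomputable def mkT (z : (Fin d → ℝ) → (Fin (N + 1) → ℂ)) (x : (Fin d → ℝ) → (Fin (n + 1) → ℂ))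
    (hz : ∀ k, ContDiff ℝ 2 fun θ => z θ k) (hx : ∀ k, ContDiff ℝ 2 fun θ => x θ k)
    (hzp : ∀ θ i, z (θ + Pi.single i 1) = z θ) (hxp : ∀ θ i, x (θ + Pi.single i 1) = x θ)
    (h : ∀ θ, Pt D σ lam (z θ) (x θ)) : Torus (D.CRing lam) d where
  e θ := evC (h θ)
  smooth r := contDiff_evC hz hx h r
  periodic θ i := evC_congr _ _ (hzp θ i) (hxp θ i)

section mkT

variable (z : (Fin d → ℝ) → (Fin (N + 1) → ℂ)) (x : (Fin d → ℝ) → (Fin (n + 1) → ℂ))
  (hz : ∀ k, ContDiff ℝ 2 fun θ => z θ k) (hx : ∀ k, ContDiff ℝ 2 fun θ => x θ k)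
  (hzp : ∀ θ i, z (θ + Pi.single i 1) = z θ) (hxp : ∀ θ i, x (θ + Pi.single i 1) = x θ)
  (h : ∀ θ, Pt D σ lam (z θ) (x θ))

theorem mkT_C (θ : Fin d → ℝ) (y : K) : (mkT z x hz hx hzp hxp h).e θ (D.mkC lam (C y)) = σ y := by
  show evC (h θ) (D.mkC lam (C y)) = σ y
  rw [evC_mk, MvPolynomial.eval₂_C]

theorem mkT_uz (i : Fin (N + 1)) :
    (mkT z x hz hx hzp hxp h).fn (D.uz lam i : D.CRing lam) = fun θ => z θ i := by
  funext θ
  show evC (h θ) (D.mkC lam (zv K i)) = z θ i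
  rw [evC_mk]
  unfold zv
  rw [MvPolynomial.eval₂_X]
  rfl

theorem mkT_ux (j : Fin (n + 1)) (i : Fin (D.B.r j + 1)) :
    (mkT z x hz hx hzp hxp h).fn (D.ux lam j i : D.CRing lam) =
      fun θ => eval₂ σ (x θ) (D.B.fac j i) := by
  funext θ
  show evC (h θ) (D.mkC lam (emb K (D.B.fac j i))) = _
  rw [evC_mk]
  exact eval_emb _ _ _

end mkT

end Ev

end Pool.Agent.E8helper18.LF
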