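import Pool.Agent.E8helper18.LF.ExDef
set_option autoImplicit false

/-!
The hypotheses hold for the examples.
-/

namespace Pool.Agent.E8helper18.LF

/-- the exponents of the factors `x + y`, `1 + z` -/
def aEx2 : Fin 2 → Fin (1 + 1) → Fin (2 + 1) → ℤ :=
  ![![![1, 0, 0], ![0, 1, 0]], ![![0, 0, 0], ![0, 0, 1]]]

/-- the exponents of the factors `x + y + z`, `1 + y + z` -/
def aEx3 : Fin 2 → Fin (2 + 1) → Fin (2 + 1) → ℤ :=
  ![![![1, 0, 0], ![0, 1, 0], ![0, 0, 1]], ![![0, 0, 0], ![0, 1, 0], ![0, 0, 1]]]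

theorem aE0 : ∀ (j : Fin 2) (i : Fin 3), aEx 0 j i = aEx2 0 j i := by decide

theorem aE1 : ∀ (j : Fin 2) (i : Fin 3), aEx 1 j i = aEx2 1 j i := by decide

theorem aE2 : ∀ (j : Fin 3) (i : Fin 3), aEx 2 j i = aEx3 0 j i := by decide

theorem aE3 : ∀ (j : Fin 3) (i : Fin 3), aEx 3 j i = aEx3 1 j i := by decide

theorem sEx_zero {N : ℕ} (i : Fin (N + 1)) : sEx N 0 i = -1 := rfl

theorem sEx_succ {N : ℕ} (j i : Fin (N + 1)) : sEx N j.succ i = if i = j then 1 else 0 := by
  unfold sEx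
  rw [Fin.cons_succ, Pi.single_apply]

theorem dEx_zero {N : ℕ} (i : Fin (N + 1)) : dEx N 0 i = 0 := rfl

theorem dEx_succ {N : ℕ} (j i : Fin (N + 1)) : dEx N j.succ i = if i = j then 1 else 0 := by
  unfold dEx
  rw [Fin.cons_succ, Pi.single_apply]

theorem sEx_li (N : ℕ) : LinearIndependent ℚ fun (j : Fin (N + 1)) (i : Fin (N + 1)) =>
    ((sEx N j.succ i - sEx N 0 i : ℤ) : ℚ) := by
  rw [Fintype.linearIndependent_iff]
  intro g hg
  have h1 : ∀ i : Fin (N + 1), g i + ∑ j, g j = 0 := by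
    intro i
    have h2 := congrFun hg i
    rw [Finset.sum_apply] at h2
    have h3 : ∀ j : Fin (N + 1), (g j • fun i : Fin (N + 1) =>
        ((sEx N j.succ i - sEx N 0 i : ℤ) : ℚ)) i = (if i = j then g j else 0) + g j := by
      intro j
      rw [Pi.smul_apply, sEx_succ, sEx_zero, smul_eq_mul]
      split_ifs <;> push_cast <;> ring
    rw [Finset.sum_congr rfl fun j _ => h3 j, Finset.sum_add_distrib,
      Finset.sum_ite_eq Finset.univ i, if_pos (Finset.mem_univ _)] at h2
    exact h2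
  have h6 : ∑ i : Fin (N + 1), (g i + ∑ j, g j) = 0 := Finset.sum_eq_zero fun i _ => h1 i
  rw [Finset.sum_add_distrib, Finset.sum_const, Finset.card_univ, Fintype.card_fin,
    nsmul_eq_mul] at h6
  have h5 : (N + 2 : ℚ) * ∑ j : Fin (N + 1), g j = 0 := by
    push_cast at h6
    linear_combination h6
  have h7 : (N + 2 : ℚ) ≠ 0 := by positivity
  have h8 := (mul_eq_zero.1 h5).resolve_left h7
  intro i
  have h9 := h1 i
  rw [h8, add_zero] at h9
  exact h9

theorem dEx_li (N : ℕ) : LinearIndependent ℚ fun (j : Fin (N + 1)) (i : Fin (N + 1)) =>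
    ((dEx N j.succ i - dEx N 0 i : ℤ) : ℚ) := by
  rw [Fintype.linearIndependent_iff]
  intro g hg i
  have h2 := congrFun hg i
  rw [Finset.sum_apply] at h2
  have h3 : ∀ j : Fin (N + 1), (g j • fun i : Fin (N + 1) =>
      ((dEx N j.succ i - dEx N 0 i : ℤ) : ℚ)) i = (if i = j then g j else 0) := by
    intro j
    rw [Pi.smul_apply, dEx_succ, dEx_zero, smul_eq_mul]
    split_ifs <;> push_cast <;> ring
  rw [Finset.sum_congr rfl fun j _ => h3 j, Finset.sum_ite_eq Finset.univ i,
    if_pos (Finset.mem_univ _)] at h2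
  exact h2

variable (K : Type*) [Field K]

theorem good_simplexW (N : ℕ) : (simplexW K N).Cyclotomic ∧ (simplexW K N).Simplices ∧
    (simplexW K N).Interior ∧ (simplexW K N).HeightOne := by
  refine ⟨fun a j => ⟨1, one_ne_zero, one_pow _⟩, fun a => sEx_li N, ?_, ?_⟩
  · show ∀ l : Fin (N + 1) → ℤ, l ≠ 0 → ∃ v : ∀ _ : Fin 1, Fin (N + 1 + 1),
      0 < ∑ i, l i * ((0 : ℤ) + ∑ a : Fin 1, sEx N (v a) i)
    intro l hl
    by_contra hcon
    push Not at hcon
    have h0 : ∀ i : Fin (N + 1), l i ≤ 0 := by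
      intro i
      have h1 := hcon fun _ => i.succ
      simpa only [sEx_succ, Finset.univ_unique, Finset.sum_singleton, zero_add, mul_ite, mul_one,
        mul_zero, Finset.sum_ite_eq', Finset.mem_univ, if_true] using h1
    have h2 := hcon fun _ => 0
    simp only [sEx_zero, Finset.univ_unique, Finset.sum_singleton,
      zero_add, mul_neg, mul_one, Finset.sum_neg_distrib] at h2
    apply hl
    have h3 : ∑ i, l i = 0 := le_antisymm (Finset.sum_nonpos fun i _ => h0 i) (by linarith)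
    funext i
    rw [Pi.zero_apply]
    exact (Finset.sum_eq_zero_iff_of_nonpos fun i _ => h0 i).1 h3 i (Finset.mem_univ _)
  · show ∃ l : Fin (N + 1) → ℤ, l ≠ 0 ∧ ∀ v : ∀ _ : Fin 1, Fin (N + 1 + 1),
      ∑ i, l i * ((0 : ℤ) + ∑ a : Fin 1, sEx N (v a) i) ≤ 1
    refine ⟨Pi.single 0 1, fun h => ?_, fun v => ?_⟩
    · have h1 := congrFun h 0
      simp at h1
    · rw [Finset.sum_eq_single 0]
      · rw [Pi.single_eq_same, Finset.univ_unique, Finset.sum_singleton, zero_add, one_mul]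
        generalize v default = w
        refine Fin.cases ?_ (fun j => ?_) w
        · rw [sEx_zero]
          norm_num
        · rw [sEx_succ]
          split_ifs <;> norm_num
      · intro i _ hi
        rw [Pi.single_eq_of_ne hi, zero_mul]
      · intro h
        exact absurd (Finset.mem_univ _) h

theorem good_dworkW (N : ℕ) : (dworkW K N).Cyclotomic ∧ (dworkW K N).Simplices ∧
    (dworkW K N).Interior ∧ (dworkW K N).HeightOne := by
  refine ⟨fun a j => ⟨1, one_ne_zero, one_pow _⟩, fun a => dEx_li N, ?_, ?_⟩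
  · show ∀ l : Fin (N + 1) → ℤ, l ≠ 0 → ∃ v : ∀ _ : Fin (N + 2), Fin (N + 1 + 1),
      0 < ∑ i, l i * ((-1 : ℤ) + ∑ a : Fin (N + 2), dEx N (v a) i)
    intro l hl
    by_contra hcon
    push Not at hcon
    have h0 : 0 ≤ ∑ i, l i := by
      have h1 := hcon fun _ => 0
      simp only [dEx_zero, Finset.sum_const_zero, add_zero, mul_neg, mul_one,
        Finset.sum_neg_distrib] at h1
      linarith
    have h2 : ∀ i : Fin (N + 1), (N + 2) * l i ≤ ∑ i, l i := by
      intro i
      have h1 := hcon fun _ => i.succ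
      simp only [dEx_succ, Finset.sum_const, Finset.card_univ, Fintype.card_fin, nsmul_eq_mul,
        mul_add, Finset.sum_add_distrib, mul_neg, mul_one, Finset.sum_neg_distrib, mul_ite,
        mul_zero, Finset.sum_ite_eq', Finset.mem_univ, if_true] at h1
      push_cast at h1
      linarith
    have h3 : (N + 2 : ℤ) * ∑ i, l i ≤ (N + 1) * ∑ i, l i := by
      rw [Finset.mul_sum]
      refine (Finset.sum_le_sum fun i _ => h2 i).trans_eq ?_
      rw [Finset.sum_const, Finset.card_univ, Fintype.card_fin, nsmul_eq_mul]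
      push_cast
      ring
    have h4 : ∑ i, l i = 0 := by nlinarith
    apply hl
    have h5 : ∀ i ∈ Finset.univ, l i ≤ 0 := by
      intro i _
      have h6 := h2 i
      rw [h4] at h6
      nlinarith
    funext i
    rw [Pi.zero_apply]
    exact (Finset.sum_eq_zero_iff_of_nonpos h5).1 h4 i (Finset.mem_univ _)
  · show ∃ l : Fin (N + 1) → ℤ, l ≠ 0 ∧ ∀ v : ∀ _ : Fin (N + 2), Fin (N + 1 + 1),
      ∑ i, l i * ((-1 : ℤ) + ∑ a : Fin (N + 2), dEx N (v a) i) ≤ 1
    refine ⟨Pi.single 0 (-1), fun h => ?_, fun v => ?_⟩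
    · have h1 := congrFun h 0
      simp at h1
    · rw [Finset.sum_eq_single 0]
      · have h1 : ∀ w : Fin (N + 1 + 1), 0 ≤ dEx N w 0 := by
          intro w
          refine Fin.cases ?_ (fun j => ?_) w
          · rw [dEx_zero]
          · rw [dEx_succ]
            split_ifs <;> norm_num
        have h2 : 0 ≤ ∑ a, dEx N (v a) 0 := Finset.sum_nonneg fun a _ => h1 _
        rw [Pi.single_eq_same]
        linarith
      · intro i _ hi
        rw [Pi.single_eq_of_ne hi, zero_mul]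
      · intro h
        exact absurd (Finset.mem_univ _) h

theorem good_aperyW : (aperyW K).Cyclotomic ∧ (aperyW K).Simplices ∧
    (aperyW K).Interior ∧ (aperyW K).HeightOne := by
  refine ⟨fun a j => ⟨1, one_ne_zero, one_pow _⟩, ?_, ?_, ?_⟩
  · show ∀ a : Fin 4, LinearIndependent ℚ fun (j : Fin (aS a)) (i : Fin (2 + 1)) =>
      ((aEx a j.succ i - aEx a 0 i : ℤ) : ℚ)
    have h2 : ∀ b : Fin 2, LinearIndependent ℚ fun (j : Fin 1) (i : Fin (2 + 1)) =>
        ((aEx2 b j.succ i - aEx2 b 0 i : ℤ) : ℚ) := by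
      intro b
      rw [Fintype.linearIndependent_iff]
      intro g hg i
      have h0 := congrFun hg 0
      have h2 := congrFun hg 2
      fin_cases b <;> fin_cases i <;> simp [aEx2] at h0 h2 ⊢ <;> assumption
    have h3 : ∀ b : Fin 2, LinearIndependent ℚ fun (j : Fin 2) (i : Fin (2 + 1)) =>
        ((aEx3 b j.succ i - aEx3 b 0 i : ℤ) : ℚ) := by
      intro b
      rw [Fintype.linearIndependent_iff]
      intro g hg i
      have h0 := congrFun hg 1
      have h2 := congrFun hg 2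
      fin_cases b <;> fin_cases i <;> simp [aEx3, Fin.sum_univ_two] at h0 h2 ⊢ <;> assumption
    intro a
    fin_cases a
    · refine Eq.mp ?_ (h2 0)
      congr 1
      funext j i
      rw [← aE0, ← aE0]
      rfl
    · refine Eq.mp ?_ (h2 1)
      congr 1
      funext j i
      rw [← aE1, ← aE1]
      rfl
    · refine Eq.mp ?_ (h3 0)
      congr 1
      funext j i
      rw [← aE2, ← aE2]
      rfl
    · refine Eq.mp ?_ (h3 1)
      congr 1
      funext j i
      rw [← aE3, ← aE3]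
      rfl
  · show ∀ l : Fin (2 + 1) → ℤ, l ≠ 0 → ∃ v : ∀ a : Fin 4, Fin (aS a + 1),
      0 < ∑ i, l i * ((-1 : ℤ) + ∑ a : Fin 4, aEx a (v a) i)
    intro l hl
    by_contra hcon
    push Not at hcon
    have h : ∀ (b0 b1 : Fin 2) (b2 b3 : Fin 3), l 0 * (-1 + (aEx 0 b0 0 + aEx 1 b1 0 +
        aEx 2 b2 0 + aEx 3 b3 0)) + l 1 * (-1 + (aEx 0 b0 1 + aEx 1 b1 1 +
        aEx 2 b2 1 + aEx 3 b3 1)) + l 2 * (-1 + (aEx 0 b0 2 + aEx 1 b1 2 +
        aEx 2 b2 2 + aEx 3 b3 2)) ≤ 0 := by
      intro b0 b1 b2 b3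
      have h1 := hcon fun a => match a with
        | 0 => b0
        | 1 => b1
        | 2 => b2
        | 3 => b3
      rw [Fin.sum_univ_succ, Fin.sum_univ_two] at h1
      simp only [Fin.sum_univ_four] at h1
      rw [← add_assoc] at h1
      exact h1
    simp only [aE0, aE1, aE2, aE3] at h
    have e0 : l 0 = 0 ∧ l 1 = 0 ∧ l 2 = 0 := by
      have a1 := h 0 0 0 0
      have a2 := h 0 0 0 1
      have a3 := h 0 0 0 2
      have a4 := h 0 1 0 0
      have a5 := h 0 1 0 1
      have a6 := h 0 1 0 2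
      have a7 := h 0 1 2 2
      have a8 := h 0 0 2 2
      have a9 := h 1 0 1 0
      have b1 := h 1 0 1 1
      have b2 := h 1 0 1 2
      have b3 := h 1 1 1 0
      have b4 := h 1 1 1 1
      have b5 := h 1 1 2 2
      have b6 := h 1 1 2 0
      have b7 := h 1 1 2 1
      have b8 := h 0 1 2 0
      have b9 := h 0 1 2 1
      simp [aEx2, aEx3] at a1 a2 a3 a4 a5 a6 a7 a8 a9 b1 b2 b3 b4 b5 b6 b7 b8 b9
      omega
    apply hl
    funext i
    fin_cases i
    · exact e0.1
    · exact e0.2.1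
    · exact e0.2.2
  · show ∃ l : Fin (2 + 1) → ℤ, l ≠ 0 ∧ ∀ v : ∀ a : Fin 4, Fin (aS a + 1),
      ∑ i, l i * ((-1 : ℤ) + ∑ a : Fin 4, aEx a (v a) i) ≤ 1
    refine ⟨![1, 0, 0], by decide, ?_⟩
    decide

end Pool.Agent.E8helper18.LF
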