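import Pool.Agent.E8helper18.LF.Def
set_option autoImplicit false

/-!
Examples of the Laurent polynomials `W`.
-/

namespace Pool.Agent.E8helper18.LF

/-- The exponents of the monomials `1/(z_0 ⋯ z_N)`, `z_0`, ..., `z_N`. -/
def sEx (N : ℕ) : Fin (N + 1 + 1) → Fin (N + 1) → ℤ := Fin.cons (fun _ => -1) fun i => Pi.single i 1

/-- The exponents of the monomials `1`, `z_0`, ..., `z_N`. -/
def dEx (N : ℕ) : Fin (N + 1 + 1) → Fin (N + 1) → ℤ := Fin.cons (fun _ => 0) fun i => Pi.single i 1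

/-- The numbers of the monomials, minus one, of the factors `x + y`, `1 + z`, `x + y + z`,
`1 + y + z`. -/
def aS : Fin 4 → ℕ := ![1, 1, 2, 2]

/-- The monomials of the four factors: `0` stands for `1`, and `1`, `2`, `3` for `x`, `y`, `z` (the
last entries of the first two rows are not used). -/
def aT : Fin 4 → Fin 3 → Fin 4 := ![![1, 2, 0], ![0, 3, 0], ![1, 2, 3], ![0, 2, 3]]

/-- The exponents of the four factors. -/
def aEx (a : Fin 4) (j : Fin (aS a + 1)) (i : Fin 3) : ℤ :=
  if aT a (Fin.ofNat 3 j) = i.succ then 1 else 0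

section W

variable (K : Type*) [Field K]

/-- `W = 1/(z_0 ⋯ z_N) + z_0 + ⋯ + z_N` -/
noncomputable def simplexW (N : ℕ) : Laurent K N where
  m0 _ := 0
  A := 1
  s _ := N + 1
  ex _ := sEx N
  co _ _ := 1

/-- `W = (1 + z_0 + ⋯ + z_N) ^ (N + 2) / (z_0 ⋯ z_N)` -/
noncomputable def dworkW (N : ℕ) : Laurent K N where
  m0 _ := -1
  A := N + 2
  s _ := N + 1
  ex _ := dEx N
  co _ _ := 1

/-- `W = (x + y) (1 + z) (x + y + z) (1 + y + z) / (x y z)` -/
noncomputable def aperyW : Laurent K 2 where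
  m0 _ := -1
  A := 4
  s := aS
  ex := aEx
  co _ _ := 1

end W

end Pool.Agent.E8helper18.LF
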