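import Pool.Agent.E8helper18.LF.Def
set_option autoImplicit false

/-!
Toric coordinates near a vertex of the Newton polytope of `W`.
-/

namespace Pool.Agent.E8helper18.LF

namespace Laurent

variable {K : Type*} [Field K] {N : ℕ} {W : Laurent K N}

theorem ex_injective (hS : W.Simplices) (a : Fin W.A) : Function.Injective (W.ex a) := by
  have h := hS a
  have key : ∀ j : Fin (W.s a), W.ex a j.succ ≠ W.ex a 0 := by
    intro j h1
    refine h.ne_zero j ?_
    funext i
    rw [h1, sub_self, Int.cast_zero]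
    rfl
  intro j k
  refine Fin.cases ?_ (fun j => ?_) j
  · refine Fin.cases (fun _ => rfl) (fun k h1 => ?_) k
    exact absurd h1.symm (key k)
  · refine Fin.cases (fun h1 => ?_) (fun k h1 => ?_) k
    · exact absurd h1 (key j)
    · congr 1
      refine h.injective ?_
      funext i
      simp only [h1]

/-- a linear form that separates the vertices of the factors -/
theorem exists_generic (hS : W.Simplices) : ∃ u : Fin (N + 1) → ℤ, ∀ a j k, j ≠ k →
    ∑ i, u i * (W.ex a j i - W.ex a k i) ≠ 0 := by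
  classical
  set P : (a : Fin W.A) → Fin (W.s a + 1) → Fin (W.s a + 1) → Polynomial ℤ := fun a j k =>
    if j = k then 1 else
      ∑ i : Fin (N + 1), Polynomial.C (W.ex a j i - W.ex a k i) * Polynomial.X ^ (i : ℕ) with hP
  have hP0 : ∀ a j k, P a j k ≠ 0 := by
    intro a j k
    by_cases h : j = k
    · simp only [hP, if_pos h]
      exact one_ne_zero
    · simp only [hP, if_neg h]
      intro h0
      apply h
      apply ex_injective hS a
      funext i
      have h1 := congrArg (fun p => Polynomial.coeff p (i : ℕ)) h0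
      simp only [Polynomial.finsetSum_coeff, Polynomial.coeff_C_mul, Polynomial.coeff_X_pow,
        Polynomial.coeff_zero] at h1
      rw [Finset.sum_eq_single i] at h1
      · rw [if_pos rfl, mul_one] at h1
        exact sub_eq_zero.1 h1
      · intro l _ hl
        rw [if_neg, mul_zero]
        intro e
        exact hl (Fin.ext e.symm)
      · intro hh
        exact absurd (Finset.mem_univ i) hh
  have hprod : ∏ a, ∏ j, ∏ k, P a j k ≠ 0 :=
    Finset.prod_ne_zero_iff.2 fun a _ => Finset.prod_ne_zero_iff.2 fun j _ =>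
      Finset.prod_ne_zero_iff.2 fun k _ => hP0 a j k
  have hex : ∃ x : ℤ, (∏ a, ∏ j, ∏ k, P a j k).eval x ≠ 0 := by
    by_contra hcon
    push Not at hcon
    exact hprod (Polynomial.funext fun x => by rw [hcon, Polynomial.eval_zero])
  obtain ⟨x, hx⟩ := hex
  refine ⟨fun i => x ^ (i : ℕ), fun a j k hjk h0 => hx ?_⟩
  rw [Polynomial.eval_prod]
  refine Finset.prod_eq_zero (Finset.mem_univ a) ?_
  rw [Polynomial.eval_prod]
  refine Finset.prod_eq_zero (Finset.mem_univ j) ?_
  rw [Polynomial.eval_prod]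
  refine Finset.prod_eq_zero (Finset.mem_univ k) ?_
  simp only [hP, if_neg hjk, Polynomial.eval_finsetSum, Polynomial.eval_mul, Polynomial.eval_C,
    Polynomial.eval_pow, Polynomial.eval_X]
  rw [← h0]
  exact Finset.sum_congr rfl fun i _ => mul_comm _ _

theorem exists_fan (hS : W.Simplices) (hI : W.Interior) :
    ∃ (U : Fin (N + 1) → Fin (N + 1) → ℤ) (w : ∀ a, Fin (W.s a + 1)), (Matrix.of U).det ≠ 0 ∧
      (∀ a j, j ≠ w a → ∀ l, 1 ≤ ∑ i, U l i * (W.ex a (w a) i - W.ex a j i)) ∧
      ∀ l, 1 ≤ ∑ i, U l i * (W.m0 i + ∑ a, W.ex a (w a) i) := by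
  classical
  obtain ⟨u, hu⟩ := exists_generic hS
  choose w _ hw using fun a => Finset.exists_max_image Finset.univ
    (fun j => ∑ i, u i * W.ex a j i) ⟨0, Finset.mem_univ _⟩
  have hdiff : ∀ a j, j ≠ w a → 1 ≤ ∑ i, u i * (W.ex a (w a) i - W.ex a j i) := by
    intro a j hj
    have h1 := hw a j (Finset.mem_univ j)
    have h2 := hu a (w a) j (Ne.symm hj)
    have h3 : ∑ i, u i * (W.ex a (w a) i - W.ex a j i) =
        ∑ i, u i * W.ex a (w a) i - ∑ i, u i * W.ex a j i := by
      rw [← Finset.sum_sub_distrib]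
      exact Finset.sum_congr rfl fun i _ => mul_sub _ _ _
    omega
  set M : ℤ := 2 + ∑ a, ∑ j, ∑ i, |W.ex a (w a) i - W.ex a j i| with hM
  have hM0 : 0 ≤ ∑ a, ∑ j, ∑ i, |W.ex a (w a) i - W.ex a j i| :=
    Finset.sum_nonneg fun a _ => Finset.sum_nonneg fun j _ => Finset.sum_nonneg fun i _ =>
      abs_nonneg _
  have hMle : ∀ a j i, |W.ex a (w a) i - W.ex a j i| + 2 ≤ M := by
    intro a j i
    have h1 : |W.ex a (w a) i - W.ex a j i| ≤ ∑ i, |W.ex a (w a) i - W.ex a j i| :=
      Finset.single_le_sum (f := fun i => |W.ex a (w a) i - W.ex a j i|)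
        (fun _ _ => abs_nonneg _) (Finset.mem_univ i)
    have h2 : ∑ i, |W.ex a (w a) i - W.ex a j i| ≤ ∑ j, ∑ i, |W.ex a (w a) i - W.ex a j i| :=
      Finset.single_le_sum (f := fun j => ∑ i, |W.ex a (w a) i - W.ex a j i|)
        (fun _ _ => Finset.sum_nonneg fun _ _ => abs_nonneg _) (Finset.mem_univ j)
    have h3 : ∑ j, ∑ i, |W.ex a (w a) i - W.ex a j i| ≤
        ∑ a, ∑ j, ∑ i, |W.ex a (w a) i - W.ex a j i| :=
      Finset.single_le_sum (f := fun a => ∑ j, ∑ i, |W.ex a (w a) i - W.ex a j i|)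
        (fun _ _ => Finset.sum_nonneg fun _ _ => Finset.sum_nonneg fun _ _ => abs_nonneg _)
        (Finset.mem_univ a)
    omega
  set U : Fin (N + 1) → Fin (N + 1) → ℤ := fun l i => (if l = i then 1 else 0) + M * u i with hU
  have hdet : (Matrix.of U).det ≠ 0 := by
    have e : Matrix.of U = 1 + Matrix.replicateCol Unit (fun _ => (1 : ℤ)) *
        Matrix.replicateRow Unit fun i => M * u i := by
      ext l i
      simp [hU, Matrix.one_apply, Matrix.mul_apply]
    rw [e, Matrix.det_one_add_replicateCol_mul_replicateRow]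
    intro h0
    have h1 : (fun i => M * u i) ⬝ᵥ (fun _ => (1 : ℤ)) = M * ∑ i, u i := by
      simp [dotProduct, Finset.mul_sum]
    rw [h1] at h0
    have h2 : M ∣ 1 := ⟨-∑ i, u i, by linarith⟩
    have h3 := Int.le_of_dvd one_pos h2
    omega
  have hsum : ∀ (l : Fin (N + 1)) (e : Fin (N + 1) → ℤ),
      ∑ i, U l i * e i = e l + M * ∑ i, u i * e i := by
    intro l e
    simp only [hU, add_mul, Finset.sum_add_distrib, ite_mul, one_mul, zero_mul,
      Finset.sum_ite_eq, Finset.mem_univ, if_true, Finset.mul_sum, mul_assoc]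
  have hpos : ∀ a j, j ≠ w a → ∀ l, 1 ≤ ∑ i, U l i * (W.ex a (w a) i - W.ex a j i) := by
    intro a j hj l
    rw [hsum l fun i => W.ex a (w a) i - W.ex a j i]
    have h1 := hdiff a j hj
    have h2 := hMle a j l
    have h3 := neg_abs_le (W.ex a (w a) l - W.ex a j l)
    nlinarith
  refine ⟨U, w, hdet, hpos, fun l => ?_⟩
  have hUl : U l ≠ 0 := by
    intro h0
    apply hdet
    exact Matrix.det_eq_zero_of_row_eq_zero l fun i => congrFun h0 i
  obtain ⟨v, hv⟩ := hI (U l) hUl
  have h1 : ∑ i, U l i * (W.m0 i + ∑ a, W.ex a (v a) i) ≤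
      ∑ i, U l i * (W.m0 i + ∑ a, W.ex a (w a) i) := by
    have h2 : ∑ i, U l i * (W.m0 i + ∑ a, W.ex a (w a) i) -
        ∑ i, U l i * (W.m0 i + ∑ a, W.ex a (v a) i) =
        ∑ a, ∑ i, U l i * (W.ex a (w a) i - W.ex a (v a) i) := by
      rw [← Finset.sum_sub_distrib, Finset.sum_comm]
      refine Finset.sum_congr rfl fun i _ => ?_
      rw [← Finset.mul_sum, Finset.sum_sub_distrib]
      ring
    have h3 : 0 ≤ ∑ a, ∑ i, U l i * (W.ex a (w a) i - W.ex a (v a) i) := by
      refine Finset.sum_nonneg fun a _ => ?_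
      by_cases h : v a = w a
      · rw [h]
        simp
      · exact le_trans zero_le_one (hpos a (v a) h l)
    linarith
  omega

end Laurent

end Pool.Agent.E8helper18.LF
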