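import Pool.Agent.TH690.SF.Milnor
set_option autoImplicit false

/-!
Symbols of monomials.
-/

namespace Pool.Agent.E8helper18.LF

open scoped WithZero

open Pool.Agent.TH826.MK

open Pool.Agent.TH826.SX

open Pool.Agent.TH826.EF (onePart onePart_le)

open Pool.Agent.TH690.SF (mem_onePart_of_comp)

section tm

variable {L : Type*} [Field L] {n : ℕ}

/-- the monomial `∏_j t_j ^ e_j` -/
def tm (t : Fin n → Lˣ) (e : Fin n → ℤ) : Lˣ := ∏ j, t j ^ e j

theorem tm_add (t : Fin n → Lˣ) (e e' : Fin n → ℤ) : tm t (e + e') = tm t e * tm t e' := by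
  unfold tm
  rw [← Finset.prod_mul_distrib]
  exact Finset.prod_congr rfl fun j _ => zpow_add _ _ _

theorem tm_smul (t : Fin n → Lˣ) (c : ℤ) (e : Fin n → ℤ) : tm t (c • e) = tm t e ^ c := by
  unfold tm
  rw [← Finset.prod_zpow]
  refine Finset.prod_congr rfl fun j _ => ?_
  rw [← zpow_mul, Pi.smul_apply, smul_eq_mul, mul_comm]

theorem tm_single (t : Fin n → Lˣ) (i : Fin n) : tm t (Pi.single i 1) = t i := by
  unfold tm
  rw [Finset.prod_eq_single i]
  · rw [Pi.single_eq_same, zpow_one]
  · intro j _ hj
    rw [Pi.single_eq_of_ne hj, zpow_zero]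
  · intro h
    exact absurd (Finset.mem_univ i) h

theorem tm_sub (t : Fin n → Lˣ) (e e' : Fin n → ℤ) : tm t (e - e') = tm t e / tm t e' := by
  rw [eq_div_iff_mul_eq', ← tm_add, sub_add_cancel]

theorem update_tm (t : Fin n → Lˣ) (M : Fin n → Fin n → ℤ) (i : Fin n) (x : Fin n → ℤ) :
    (fun k => tm t (Function.update M i x k)) = Function.update (fun k => tm t (M k)) i (tm t x) := by
  funext k
  by_cases h : k = i
  · subst h
    rw [Function.update_self, Function.update_self]
  · rw [Function.update_of_ne h, Function.update_of_ne h]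

/-- the symbols of monomials, as an alternating function of the exponents -/
noncomputable def altm (t : Fin n → Lˣ) : (Fin n → ℤ) [⋀^Fin n]→ₗ[ℤ] KQ L n where
  toFun M := symb fun i => tm t (M i)
  map_update_add' := by
    intro inst M i x y
    have e : inst = instDecidableEqFin n := Subsingleton.elim _ _
    subst e
    rw [update_tm, update_tm, update_tm, tm_add, symb_update_mul]
  map_update_smul' := by
    intro inst M i c x
    have e : inst = instDecidableEqFin n := Subsingleton.elim _ _
    subst e
    rw [update_tm, update_tm, tm_smul, symb_update_zpow, Int.cast_smul_eq_zsmul]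
  map_eq_zero_of_eq' := by
    intro M i j h hij
    exact symb_self _ (i := i) (j := j) hij (by rw [h])

theorem altm_apply (t : Fin n → Lˣ) (M : Fin n → Fin n → ℤ) :
    altm t M = symb fun i => tm t (M i) := rfl

/-- `{t ^ M_0, ..., t ^ M_{n-1}} = det M {t_0, ..., t_{n-1}}`. -/
theorem symb_tm (t : Fin n → Lˣ) (M : Fin n → Fin n → ℤ) :
    symb (fun i => tm t (M i)) = (((Matrix.of M).det : ℤ) : ℚ) • symb t := by
  have h : altm t = (LinearMap.toSpanSingleton ℤ (KQ L n) (symb t)).compAlternatingMap
      (Matrix.detRowAlternating (R := ℤ) (n := Fin n)) := by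
    refine Module.Basis.ext_alternating (Pi.basisFun ℤ (Fin n)) fun v hv => ?_
    have hb : Function.Bijective v := Finite.injective_iff_bijective.1 hv
    set σ : Equiv.Perm (Fin n) := Equiv.ofBijective v hb with hσ
    have e1 : (fun i => (Pi.basisFun ℤ (Fin n)) (v i)) =
        (fun i => (Pi.basisFun ℤ (Fin n)) i) ∘ σ := rfl
    rw [e1, AlternatingMap.map_perm, AlternatingMap.map_perm]
    congr 1
    rw [altm_apply]
    have e2 : (fun i => tm t ((Pi.basisFun ℤ (Fin n)) i)) = t := by
      funext i
      rw [Pi.basisFun_apply]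
      exact tm_single t i
    rw [e2]
    have e3 : (Matrix.detRowAlternating (R := ℤ) (n := Fin n))
        (fun i => (Pi.basisFun ℤ (Fin n)) i) = 1 := by
      have e4 : (fun i => (Pi.basisFun ℤ (Fin n)) i) = (1 : Matrix (Fin n) (Fin n) ℤ) := by
        funext i
        rw [Pi.basisFun_apply]
        funext j
        rw [Matrix.one_apply, Pi.single_apply]
        simp [eq_comm]
      rw [e4]
      exact Matrix.det_one
    rw [LinearMap.compAlternatingMap_apply, e3, LinearMap.toSpanSingleton_apply, one_smul]
  have h2 := congrArg (fun f => f M) h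
  simp only [altm_apply, LinearMap.compAlternatingMap_apply, LinearMap.toSpanSingleton_apply] at h2
  rw [h2, Int.cast_smul_eq_zsmul]
  rfl

end tm

section extend

variable {n s : ℕ}

/-- Linearly independent integral vectors are rows of an integral matrix with nonzero
determinant. -/
theorem exists_extend (E : Fin s → Fin n → ℤ)
    (hE : LinearIndependent ℚ fun j i => ((E j i : ℤ) : ℚ)) :
    ∃ (M : Fin n → Fin n → ℤ) (ι : Fin s → Fin n), Function.Injective ι ∧ (∀ j, M (ι j) = E j) ∧
      (Matrix.of M).det ≠ 0 := by
  classical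
  set V := Fin n → ℚ
  set Eq : Fin s → V := fun j i => ((E j i : ℤ) : ℚ) with hEq
  set st : Fin n → V := fun i => Pi.single i 1 with hst
  have hs : LinearIndepOn ℚ id (Set.range Eq) := hE.linearIndepOn_id
  have hsub : Set.range Eq ⊆ Set.range Eq ∪ Set.range st := Set.subset_union_left
  set b := hs.extend hsub with hb
  have hb1 : LinearIndepOn ℚ id b := hs.linearIndepOn_extend hsub
  have hb2 : Set.range Eq ⊆ b := hs.subset_extend hsub
  have hb3 : b ⊆ Set.range Eq ∪ Set.range st := hs.extend_subset hsub
  have hb4 : (⊤ : Submodule ℚ V) ≤ Submodule.span ℚ b := by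
    have h1 : Set.range st ⊆ Submodule.span ℚ b :=
      Set.subset_union_right.trans (hs.subset_span_extend hsub)
    have h2 : Submodule.span ℚ (Set.range st) = ⊤ := by
      have h3 := (Pi.basisFun ℚ (Fin n)).span_eq
      have h4 : Set.range st = Set.range (Pi.basisFun ℚ (Fin n)) := by
        congr 1
        funext i
        rw [Pi.basisFun_apply]
      rw [h4]
      exact h3
    rw [← h2]
    exact Submodule.span_le.2 h1
  have hli : LinearIndependent ℚ ((↑) : b → V) := hb1
  let Bs : Module.Basis b ℚ V := Module.Basis.mk hli (by rw [Subtype.range_coe]; exact hb4)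
  have : Fintype b := FiniteDimensional.fintypeBasisIndex Bs
  have hcard : Fintype.card b = n := by
    rw [← Module.finrank_eq_card_basis Bs]
    simp [V]
  let eqv : Fin n ≃ b := (Fintype.equivFinOfCardEq hcard).symm
  have hint : ∀ x : b, ∃ w : Fin n → ℤ, ∀ i, ((w i : ℤ) : ℚ) = (x : V) i := by
    rintro ⟨x, hx⟩
    rcases hb3 hx with ⟨j, rfl⟩ | ⟨i, rfl⟩
    · exact ⟨E j, fun i => rfl⟩
    · refine ⟨Pi.single i 1, fun l => ?_⟩
      by_cases h : l = i
      · subst h
        simp [hst]
      · simp [hst, Pi.single_eq_of_ne h]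
  choose w hw using hint
  refine ⟨fun i => w (eqv i), fun j => eqv.symm ⟨Eq j, hb2 ⟨j, rfl⟩⟩, fun j k hjk => ?_,
    fun j => ?_, ?_⟩
  · have h1 := eqv.symm.injective hjk
    exact hE.injective (Subtype.ext_iff.1 h1)
  · funext i
    have h1 : ((w ⟨Eq j, hb2 ⟨j, rfl⟩⟩ i : ℤ) : ℚ) = ((E j i : ℤ) : ℚ) :=
      hw ⟨Eq j, hb2 ⟨j, rfl⟩⟩ i
    simp only [Equiv.apply_symm_apply]
    exact Int.cast_injective h1
  · have h1 : LinearIndependent ℚ fun i => ((eqv i : b) : V) := hli.comp _ eqv.injective
    have h2 : (fun i => ((eqv i : b) : V)) =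
        (Matrix.of fun i l => ((w (eqv i) l : ℤ) : ℚ)).row := by
      funext i l
      exact (hw (eqv i) l).symm
    rw [h2, Matrix.linearIndependent_rows_iff_isUnit] at h1
    rw [Matrix.isUnit_iff_isUnit_det] at h1
    have h3 : (Matrix.of fun i l => ((w (eqv i) l : ℤ) : ℚ)).det =
        (((Matrix.of fun i => w (eqv i)).det : ℤ) : ℚ) := by
      have := (RingHom.map_det (Int.castRingHom ℚ) (Matrix.of fun i => w (eqv i))).symm
      exact this
    rw [h3] at h1
    intro h0
    rw [h0, Int.cast_zero] at h1
    exact not_isUnit_zero h1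

variable {L : Type*} [Field L]

theorem mem_onePart_of_tm (v : Valuation L ℤᵐ⁰) (t : Fin n → Lˣ) (E : Fin s → Fin n → ℤ)
    (hE : LinearIndependent ℚ fun j i => ((E j i : ℤ) : ℚ))
    (h : symb (fun j => tm t (E j)) ∈ onePart v s) : symb t ∈ onePart v n := by
  obtain ⟨M, ι, hι, hM, hdet⟩ := exists_extend E hE
  have h1 : symb (fun i => tm t (M i)) ∈ onePart v n := by
    refine mem_onePart_of_comp v _ hι ?_
    simp only [hM]
    exact h
  rw [symb_tm] at h1
  have hm' : (((Matrix.of M).det : ℤ) : ℚ) ≠ 0 := by exact_mod_cast hdet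
  have h3 := (onePart v n).smul_mem ((((Matrix.of M).det : ℤ) : ℚ)⁻¹) h1
  rwa [smul_smul, inv_mul_cancel₀ hm', one_smul] at h3

end extend

section roots

variable {L : Type*} [Field L] {n : ℕ}

/-- roots of unity can be removed from the entries -/
theorem symb_mul_root (a ζ : Fin n → Lˣ) (hζ : ∀ i, ∃ k : ℕ, k ≠ 0 ∧ ζ i ^ k = 1) :
    symb (fun i => ζ i * a i) = symb a := by
  classical
  have key : ∀ T : Finset (Fin n), symb (fun i => if i ∈ T then ζ i * a i else a i) = symb a := by
    intro T
    induction T using Finset.induction_on with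
    | empty => simp
    | insert j T hj ih =>
      set b : Fin n → Lˣ := fun i => if i ∈ T then ζ i * a i else a i with hb
      have hbj : b j = a j := by simp [hb, hj]
      have e : (fun i => if i ∈ insert j T then ζ i * a i else a i) =
          Function.update b j (ζ j * a j) := by
        funext k
        by_cases h : k = j
        · subst h; simp
        · simp [h, hb]
      obtain ⟨k, hk, hk1⟩ := hζ j
      have h0 : symb (Function.update b j (ζ j)) = 0 := by
        have h1 := symb_update_zpow b j (ζ j) (k : ℤ)
        rw [zpow_natCast, hk1, symb_upd_one, Int.cast_natCast] at h1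
        have hk' : (k : ℚ) ≠ 0 := by exact_mod_cast hk
        exact (smul_eq_zero.1 h1.symm).resolve_left hk'
      rw [e, symb_update_mul, h0, zero_add, ← hbj, Function.update_eq_self]
      exact ih
  have h := key Finset.univ
  simpa using h

theorem symb_sub_mem (v : Valuation L ℤᵐ⁰) (a b : Fin n → Lˣ)
    (h : ∀ i, v (((a i / b i : Lˣ) : L) - 1) < 1) : symb a - symb b ∈ onePart v n := by
  classical
  have key : ∀ T : Finset (Fin n),
      symb (fun i => if i ∈ T then a i else b i) - symb b ∈ onePart v n := by
    intro T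
    induction T using Finset.induction_on with
    | empty => simp
    | insert j T hj ih =>
      set c : Fin n → Lˣ := fun i => if i ∈ T then a i else b i with hc
      have hcj : c j = b j := by simp [hc, hj]
      have e : (fun i => if i ∈ insert j T then a i else b i) = Function.update c j (a j) := by
        funext k
        by_cases h : k = j
        · subst h; simp
        · simp [h, hc]
      have h1 : symb (Function.update c j (a j)) = symb (Function.update c j (a j / b j)) +
          symb c := by
        conv_lhs => rw [← div_mul_cancel (a j) (b j)]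
        rw [symb_update_mul, ← hcj, Function.update_eq_self]
      rw [e, h1, add_sub_assoc]
      refine Submodule.add_mem _ (Submodule.subset_span ⟨_, j, ?_, rfl⟩) ih
      rw [Function.update_self]
      exact h j
  have h2 := key Finset.univ
  simpa using h2

end roots

end Pool.Agent.E8helper18.LF
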