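import Pool.Agent.E8helper18.LF.Def
import Pool.Agent.E8helper18.LF.Mon
import Pool.Agent.Y797.TW.Unr
import Pool.Agent.Y797.GC.Unr
set_option autoImplicit false

/-!
The symbol `{z_0, ..., z_N}` at the discrete valuations of fields over the coordinate ring.
-/

namespace Pool.Agent.E8helper18.LF

open scoped WithZero

open Pool.Agent.TH826.MK

open Pool.Agent.TH826.EF (onePart onePart_le mem_onePart_of_sum_lt)

open MvPolynomial

theorem exp_sum {ι : Type*} (s : Finset ι) (g : ι → ℤ) :
    (WithZero.exp (∑ i ∈ s, g i) : ℤᵐ⁰) = ∏ i ∈ s, WithZero.exp (g i) := by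
  classical
  induction s using Finset.induction_on with
  | empty => simp
  | insert i s hi ih => rw [Finset.sum_insert hi, Finset.prod_insert hi, WithZero.exp_add, ih]

theorem zpow_sum {G ι : Type*} [CommGroup G] (s : Finset ι) (x : G) (g : ι → ℤ) :
    x ^ (∑ i ∈ s, g i) = ∏ i ∈ s, x ^ g i := by
  classical
  induction s using Finset.induction_on with
  | empty => simp
  | insert i s hi ih => rw [Finset.sum_insert hi, Finset.prod_insert hi, zpow_add, ih]

section fib

variable {K : Type*} [Field K] {N n : ℕ} {D : Dat K N n} {lam : K} {L : Type*} [Field L]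
  (f : D.CRing lam →+* L)

/-- the polynomials as elements of `L` -/
noncomputable def FF : MvPolynomial (Var N n) K →+* L := f.comp (D.mkC lam)

/-- the constants -/
noncomputable def cF : K →+* L := (FF f).comp C

/-- the polynomials in the `x_j` as elements of `L` -/
noncomputable def GF : MvPolynomial (Fin (n + 1)) K →+* L := (FF f).comp (emb K)

/-- the images of the `z_i` -/
noncomputable def tF (i : Fin (N + 1)) : Lˣ := Units.map (f : D.CRing lam →* L) (D.uz lam i)

/-- the images of the `x_j - φ_{j,i}` -/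
noncomputable def bF (j : Fin (n + 1)) (i : Fin (D.B.r j + 1)) : Lˣ :=
  Units.map (f : D.CRing lam →* L) (D.ux lam j i)

theorem coe_tF (i : Fin (N + 1)) : (tF f i : L) = FF f (zv K i) := rfl

theorem coe_tF_inv (i : Fin (N + 1)) : (((tF f i)⁻¹ : Lˣ) : L) = FF f (zi K i) := rfl

theorem coe_bF (j : Fin (n + 1)) (i : Fin (D.B.r j + 1)) :
    (bF f j i : L) = GF f (D.B.fac j i) := rfl

theorem coe_bF' (j : Fin (n + 1)) (i : Fin (D.B.r j + 1)) :
    (bF f j i : L) = GF f (X j) - GF f (D.B.phi j i) := by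
  rw [coe_bF, ← map_sub]
  rfl

theorem GF_C (x : K) : GF f (C x) = cF f x := by
  unfold GF cF emb
  rw [RingHom.comp_apply, RingHom.comp_apply]
  congr 1
  exact MvPolynomial.rename_C _ _

theorem FF_mono (e : Fin (N + 1) → ℤ) : FF f (mono K e) = ((tm (tF f) e : Lˣ) : L) := by
  unfold mono tm
  rw [map_prod, Units.coe_prod]
  refine Finset.prod_congr rfl fun i _ => ?_
  rw [map_mul, map_pow, map_pow, ← coe_tF, ← coe_tF_inv, ← Units.val_pow_eq_pow_val,
    ← Units.val_pow_eq_pow_val, ← Units.val_mul]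
  congr 1
  rw [inv_pow, ← zpow_natCast, ← zpow_natCast, ← zpow_neg, ← zpow_add]
  congr 1
  have := Int.toNat_sub_toNat_neg (e i)
  omega

theorem FF_poly : FF f D.poly = ((tm (tF f) D.W.m0 : Lˣ) : L) *
    ∏ a, ∑ j, cF f (D.W.co a j) * ((tm (tF f) (D.W.ex a j) : Lˣ) : L) := by
  unfold Dat.poly
  rw [map_mul, FF_mono, map_prod]
  congr 1
  refine Finset.prod_congr rfl fun a _ => ?_
  rw [map_sum]
  refine Finset.sum_congr rfl fun j _ => ?_
  rw [map_mul, FF_mono]
  rfl

theorem FF_eqn : FF f D.poly = cF f lam * GF f D.Phi := by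
  have h := congrArg f (D.mkC_poly lam)
  rw [map_mul] at h
  exact h

variable (v : Valuation L ℤᵐ⁰)

theorem val_tm (t : Fin (N + 1) → Lˣ) (l : Fin (N + 1) → ℤ)
    (hl : ∀ i, v (t i : L) = WithZero.exp (l i)) (e : Fin (N + 1) → ℤ) :
    v ((tm t e : Lˣ) : L) = WithZero.exp (∑ i, l i * e i) := by
  unfold tm
  rw [Units.coe_prod, map_prod]
  have h : ∀ i, v ((t i ^ e i : Lˣ) : L) = WithZero.exp (l i * e i) := by
    intro i
    rw [Units.val_zpow_eq_zpow_val, map_zpow₀, hl, ← WithZero.exp_zsmul, smul_eq_mul, mul_comm]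
  simp only [h]
  exact (exp_sum Finset.univ fun i => l i * e i).symm

/-- At a valuation with `v(λ Φ) ≤ 1`, either the symbol `{z_0, ..., z_N}` is generated by symbols
with one-units, or the `z_i` and `λ Φ` are units. -/
theorem block_cases (hC : D.W.Cyclotomic) (hS : D.W.Simplices) (hI : D.W.Interior)
    (hPhi : v (cF f lam * GF f D.Phi) ≤ 1) :
    symb (tF f) ∈ onePart v (N + 1) ∨
      (v (cF f lam * GF f D.Phi) = 1 ∧ ∀ i, v (tF f i : L) = 1) := by
  classical
  set t := tF f with ht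
  have hco0 : ∀ a j, D.W.co a j ≠ 0 := by
    intro a j h0
    obtain ⟨k, hk, h1⟩ := hC a j
    rw [h0, zero_pow hk] at h1
    exact zero_ne_one h1
  set ζ : ∀ a, Fin (D.W.s a + 1) → Lˣ := fun a j =>
    Units.mk0 (cF f (D.W.co a j)) ((map_ne_zero _).2 (hco0 a j)) with hζ
  have hζ1 : ∀ a j, ∃ k : ℕ, k ≠ 0 ∧ ζ a j ^ k = 1 := by
    intro a j
    obtain ⟨k, hk, h1⟩ := hC a j
    refine ⟨k, hk, Units.ext ?_⟩
    rw [Units.val_pow_eq_pow_val, hζ, Units.val_mk0, ← map_pow, h1, map_one, Units.val_one]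
  have hζv : ∀ a j, v (ζ a j : L) = 1 := by
    intro a j
    obtain ⟨k, hk, h1⟩ := hζ1 a j
    have h2 := congrArg (fun u : Lˣ => v (u : L)) h1
    simp only [Units.val_pow_eq_pow_val, map_pow, Units.val_one, map_one] at h2
    exact (pow_eq_one_iff.1 h2).resolve_right hk
  set Z : ∀ a, Fin (D.W.s a + 1) → Lˣ := fun a j => ζ a j * tm t (D.W.ex a j) with hZ
  have hZsum : ∀ a, ∑ j, cF f (D.W.co a j) * ((tm t (D.W.ex a j) : Lˣ) : L) =
      ∑ j, (Z a j : L) := fun a => Finset.sum_congr rfl fun j _ => rfl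
  by_cases hlt : ∃ a l, v (∑ j, (Z a j : L)) < v (Z a l : L)
  · left
    obtain ⟨a, l, hl⟩ := hlt
    obtain ⟨l', -, hl'⟩ := Finset.exists_max_image Finset.univ (fun k => v (Z a k : L))
      ⟨l, Finset.mem_univ l⟩
    have h1 := mem_onePart_of_sum_lt v (Z a) l' (fun k => hl' k (Finset.mem_univ k))
      (hl.trans_le (hl' l (Finset.mem_univ l)))
    have h2 : (fun k : Fin (D.W.s a) => Z a k.succ / Z a 0) = fun k =>
        (ζ a k.succ / ζ a 0) * tm t (D.W.ex a k.succ - D.W.ex a 0) := by
      funext k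
      rw [tm_sub, hZ, mul_div_mul_comm]
    rw [h2, symb_mul_root] at h1
    · exact mem_onePart_of_tm v t (fun k => D.W.ex a k.succ - D.W.ex a 0) (hS a) h1
    · intro k
      obtain ⟨p, hp, hp1⟩ := hζ1 a k.succ
      obtain ⟨q, hq, hq1⟩ := hζ1 a 0
      refine ⟨p * q, mul_ne_zero hp hq, ?_⟩
      rw [div_pow, pow_mul, hp1, one_pow, mul_comm p q, pow_mul, hq1, one_pow, div_one]
  · right
    push Not at hlt
    choose l hl using fun i => exists_ord v (t i)
    have hv := val_tm v t l hl
    have hle : ∀ w : ∀ a, Fin (D.W.s a + 1),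
        v ((tm t (fun i => D.W.m0 i + ∑ a, D.W.ex a (w a) i) : Lˣ) : L) ≤
          v (cF f lam * GF f D.Phi) := by
      intro w
      rw [← FF_eqn, FF_poly, map_mul, map_prod]
      have e : tm t (fun i => D.W.m0 i + ∑ a, D.W.ex a (w a) i) =
          tm t D.W.m0 * ∏ a, tm t (D.W.ex a (w a)) := by
        unfold tm
        rw [Finset.prod_comm, ← Finset.prod_mul_distrib]
        refine Finset.prod_congr rfl fun i _ => ?_
        rw [zpow_add, zpow_sum]
      rw [e, Units.val_mul, map_mul, Units.coe_prod, map_prod]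
      refine mul_le_mul' le_rfl (Finset.prod_le_prod' fun a _ => ?_)
      rw [hZsum]
      refine le_trans (le_of_eq ?_) (hlt a (w a))
      rw [hZ, Units.val_mul, map_mul, hζv, one_mul]
    have hl0 : l = 0 := by
      by_contra hne
      obtain ⟨w, hw⟩ := hI l hne
      have h1 := (hle w).trans hPhi
      rw [hv, ← WithZero.exp_zero, WithZero.exp_le_exp] at h1
      exact absurd hw (not_lt.2 h1)
    have ht1 : ∀ i, v (t i : L) = 1 := by
      intro i
      rw [hl, hl0]
      rfl
    refine ⟨le_antisymm hPhi ?_, ht1⟩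
    have h1 := hle fun a => 0
    rw [hv, hl0] at h1
    simpa using h1

end fib

end Pool.Agent.E8helper18.LF
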