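import Mathlib
set_option autoImplicit false

/-!
An irreducibility criterion for polynomials in several variables over a domain with a discrete
valuation: the constant coefficient has the valuation `1` (in additive notation, `-1`), and all
other coefficients are units of valuation `0` or vanish.
-/

namespace Pool.Agent.E8helper18.LF

open MvPolynomial

open WithZero (exp log)

open scoped MonomialOrder WithZero

section crit

variable {S : Type*} [CommRing S] [IsDomain S] {ι : Type*} (m : MonomialOrder ι)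
  (v : Valuation S ℤᵐ⁰)

omit [IsDomain S] in
theorem exists_top (hv : ∀ x, v x = 0 → x = 0) {G : MvPolynomial ι S} (hG : G ≠ 0) :
    ∃ β, v (G.coeff β) ≠ 0 ∧ (∀ γ, v (G.coeff γ) ≤ v (G.coeff β)) ∧
      ∀ γ, β ≺[m] γ → v (G.coeff γ) < v (G.coeff β) := by
  classical
  have hne : G.support.Nonempty := MvPolynomial.support_nonempty.2 hG
  obtain ⟨β', hβ', hmax⟩ := Finset.exists_max_image G.support (fun β => v (G.coeff β)) hne
  set T := G.support.filter fun β => v (G.coeff β) = v (G.coeff β') with hT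
  have hTne : T.Nonempty := ⟨β', Finset.mem_filter.2 ⟨hβ', rfl⟩⟩
  obtain ⟨β, hβ, hmax2⟩ := Finset.exists_max_image T (fun β => m.toSyn β) hTne
  obtain ⟨hβs, hβe⟩ := Finset.mem_filter.1 hβ
  have hne0 : v (G.coeff β) ≠ 0 := fun h => MvPolynomial.mem_support_iff.1 hβs (hv _ h)
  have hle : ∀ γ, v (G.coeff γ) ≤ v (G.coeff β) := by
    intro γ
    by_cases hγ : γ ∈ G.support
    · rw [hβe]
      exact hmax γ hγ
    · rw [MvPolynomial.notMem_support_iff.1 hγ, map_zero]
      exact zero_le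
  refine ⟨β, hne0, hle, fun γ hγ => lt_of_le_of_ne (hle γ) fun he => ?_⟩
  have h1 : γ ∈ T := by
    refine Finset.mem_filter.2 ⟨MvPolynomial.mem_support_iff.2 fun h => ?_, he.trans hβe⟩
    rw [h, map_zero] at he
    exact hne0 he.symm
  exact absurd (hmax2 γ h1) (not_le.2 hγ)

omit [IsDomain S] in
theorem val_coeff_add {G H : MvPolynomial ι S} {β γ : ι →₀ ℕ} (hβ0 : v (G.coeff β) ≠ 0)
    (hβ1 : ∀ δ, v (G.coeff δ) ≤ v (G.coeff β)) (hβ2 : ∀ δ, β ≺[m] δ → v (G.coeff δ) <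
      v (G.coeff β)) (hγ0 : v (H.coeff γ) ≠ 0) (hγ1 : ∀ δ, v (H.coeff δ) ≤ v (H.coeff γ))
    (hγ2 : ∀ δ, γ ≺[m] δ → v (H.coeff δ) < v (H.coeff γ)) :
    v ((G * H).coeff (β + γ)) = v (G.coeff β) * v (H.coeff γ) := by
  classical
  rw [MvPolynomial.coeff_mul, ← Finset.add_sum_erase _ _ (Finset.HasAntidiagonal.mem_antidiagonal.2
    rfl : (β, γ) ∈ Finset.HasAntidiagonal.antidiagonal (β + γ))]
  have hlt : v (∑ x ∈ (Finset.HasAntidiagonal.antidiagonal (β + γ)).erase (β, γ), G.coeff x.1 * H.coeff x.2) <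
      v (G.coeff β) * v (H.coeff γ) := by
    refine v.map_sum_lt (mul_ne_zero hβ0 hγ0) fun x hx => ?_
    obtain ⟨hx1, hx2⟩ := Finset.mem_erase.1 hx
    rw [Finset.HasAntidiagonal.mem_antidiagonal] at hx2
    rw [map_mul]
    have h1 : β ≺[m] x.1 ∨ γ ≺[m] x.2 := by
      by_contra hcon
      push Not at hcon
      obtain ⟨h2, h3⟩ := hcon
      have h4 : m.toSyn x.1 + m.toSyn x.2 = m.toSyn β + m.toSyn γ := by
        rw [← map_add, ← map_add, hx2]
      have h5 : m.toSyn x.1 = m.toSyn β := by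
        refine le_antisymm h2 ?_
        by_contra h6
        rw [not_le] at h6
        have := add_lt_add_of_lt_of_le h6 h3
        exact absurd h4 this.ne
      have h6 : m.toSyn x.2 = m.toSyn γ := by
        rw [h5] at h4
        exact add_left_cancel h4
      exact hx1 (Prod.ext (m.toSyn.injective h5) (m.toSyn.injective h6))
    rcases h1 with h1 | h1
    · calc v (G.coeff x.1) * v (H.coeff x.2) ≤ v (G.coeff x.1) * v (H.coeff γ) :=
            mul_le_mul_right (hγ1 _) _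
        _ < v (G.coeff β) * v (H.coeff γ) :=
            mul_lt_mul_of_pos_right (hβ2 _ h1) (zero_lt_iff.2 hγ0)
    · calc v (G.coeff x.1) * v (H.coeff x.2) ≤ v (G.coeff β) * v (H.coeff x.2) :=
            mul_le_mul_left (hβ1 _) _
        _ < v (G.coeff β) * v (H.coeff γ) :=
            mul_lt_mul_of_pos_left (hγ2 _ h1) (zero_lt_iff.2 hβ0)
  rw [← map_mul] at hlt ⊢
  exact v.map_add_eq_of_lt_left hlt

omit [IsDomain S] in
theorem val_coeff_le {G H : MvPolynomial ι S} {β γ : ι →₀ ℕ}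
    (hβ1 : ∀ δ, v (G.coeff δ) ≤ v (G.coeff β)) (hγ1 : ∀ δ, v (H.coeff δ) ≤ v (H.coeff γ))
    (α : ι →₀ ℕ) :
    v ((G * H).coeff α) ≤ v (G.coeff β) * v (H.coeff γ) := by
  classical
  rw [MvPolynomial.coeff_mul]
  refine v.map_sum_le fun x _ => ?_
  rw [map_mul]
  exact mul_le_mul' (hβ1 _) (hγ1 _)

theorem unit_of_const {F G H : MvPolynomial ι S} (hF : F = G * H) (hG : m.degree G = 0)
    {α : ι →₀ ℕ} (hα : IsUnit (F.coeff α)) : IsUnit G := by
  have h1 := m.eq_C_of_degree_eq_zero hG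
  rw [h1]
  refine IsUnit.map (C : S →+* MvPolynomial ι S) ?_
  rw [hF, h1, MvPolynomial.coeff_C_mul] at hα
  exact isUnit_of_mul_isUnit_left hα

include m in
theorem irreducible_of_val (hv : ∀ x, v x = 0 → x = 0) {F : MvPolynomial ι S}
    (h0 : v (F.coeff 0) = exp (1 : ℤ))
    (h1 : ∀ α, α ≠ 0 → F.coeff α ≠ 0 → IsUnit (F.coeff α) ∧ v (F.coeff α) = 1)
    (h2 : ∃ α, α ≠ 0 ∧ F.coeff α ≠ 0) : Irreducible F := by
  classical
  obtain ⟨α, hα0, hα⟩ := h2
  have hF0 : F ≠ 0 := by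
    rintro rfl
    exact hα (MvPolynomial.coeff_zero _)
  refine ⟨fun hu => ?_, fun G H hGH => ?_⟩
  · obtain ⟨r, -, hr⟩ := MvPolynomial.isUnit_iff_eq_C_of_isReduced.1 hu
    rw [hr, MvPolynomial.coeff_C, if_neg (Ne.symm hα0)] at hα
    exact hα rfl
  have hG0 : G ≠ 0 := by
    rintro rfl
    rw [zero_mul] at hGH
    exact hF0 hGH
  have hH0 : H ≠ 0 := by
    rintro rfl
    rw [mul_zero] at hGH
    exact hF0 hGH
  obtain ⟨β, hβ0, hβ1, hβ2⟩ := exists_top m v hv hG0
  obtain ⟨γ, hγ0, hγ1, hγ2⟩ := exists_top m v hv hH0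
  have hle : exp (1 : ℤ) ≤ v (G.coeff β) * v (H.coeff γ) := by
    rw [← h0, hGH]
    exact val_coeff_le v hβ1 hγ1 0
  have heq : v (F.coeff (β + γ)) = v (G.coeff β) * v (H.coeff γ) := by
    rw [hGH]
    exact val_coeff_add m v hβ0 hβ1 hβ2 hγ0 hγ1 hγ2
  have h1lt : (1 : ℤᵐ⁰) < exp (1 : ℤ) := by
    rw [← WithZero.exp_zero, WithZero.exp_lt_exp]
    exact one_pos
  have hbg : β + γ = 0 := by
    by_contra hne
    have h3 : F.coeff (β + γ) ≠ 0 := by
      intro h
      rw [h, map_zero] at heq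
      exact mul_ne_zero hβ0 hγ0 heq.symm
    have h4 := (h1 _ hne h3).2
    rw [heq] at h4
    rw [h4] at hle
    exact absurd h1lt (not_lt.2 hle)
  have hβ : β = 0 := (add_eq_zero.1 hbg).1
  have hγ : γ = 0 := (add_eq_zero.1 hbg).2
  subst hβ hγ
  rw [hbg, h0] at heq
  have hpos : ∀ δ : ι →₀ ℕ, δ ≠ 0 → 0 ≺[m] δ := by
    intro δ hδ
    rw [map_zero]
    refine bot_lt_iff_ne_bot.2 fun h => hδ ?_
    exact (m.toSyn_eq_zero_iff δ).1 h
  by_cases hdG : m.degree G = 0
  · left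
    exact unit_of_const m hGH hdG (h1 α hα0 hα).1
  by_cases hdH : m.degree H = 0
  · right
    exact unit_of_const m (hGH.trans (mul_comm G H)) hdH (h1 α hα0 hα).1
  exfalso
  have hlc : F.coeff (m.degree G + m.degree H) = m.leadingCoeff G * m.leadingCoeff H := by
    rw [hGH, m.coeff_mul_of_degree_add]
  have hlG : m.leadingCoeff G ≠ 0 := m.leadingCoeff_ne_zero_iff.2 hG0
  have hlH : m.leadingCoeff H ≠ 0 := m.leadingCoeff_ne_zero_iff.2 hH0
  have hne : m.degree G + m.degree H ≠ 0 := fun h => hdG (add_eq_zero.1 h).1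
  have h5 := (h1 _ hne (by rw [hlc]; exact mul_ne_zero hlG hlH)).2
  rw [hlc, map_mul] at h5
  have h6 : v (m.leadingCoeff G) < v (G.coeff 0) := hβ2 _ (hpos _ hdG)
  have h7 : v (m.leadingCoeff H) < v (H.coeff 0) := hγ2 _ (hpos _ hdH)
  have h8 : v (m.leadingCoeff G) ≠ 0 := fun h => hlG (hv _ h)
  have h9 : v (m.leadingCoeff H) ≠ 0 := fun h => hlH (hv _ h)
  rw [← WithZero.log_lt_log h8 hβ0] at h6
  rw [← WithZero.log_lt_log h9 hγ0] at h7
  have h10 := congrArg log h5
  rw [WithZero.log_mul h8 h9, WithZero.log_one] at h10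
  have h11 := congrArg log heq
  rw [WithZero.log_mul hβ0 hγ0, WithZero.log_exp] at h11
  omega

end crit

end Pool.Agent.E8helper18.LF
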