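import Pool.Agent.E8helper18.LF.Tor
set_option autoImplicit false

/-!
The regulators of the symbols on the tori near the corners.
-/

namespace Pool.Agent.E8helper18.LF

open Pool.Agent.TH826.MK

open Pool.Agent.TH577.UA (mmon mrow yrow det_yrow)

open Pool.Agent.TH826.SX (pairing_close)

open Pool.Agent.Y797.TW (Tower wcc prod_wcc contDiff_wcc wcc_zero fct exists_chart nex ex mch hh
  exists_rapid eval_mch hh_zero contDiff_hh sum_nex det_ex IsLow)

open MvPolynomial

section main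

variable {K : Type*} [Field K] {N n : ℕ} {D : Dat K N n}

theorem exists_torus (σ : K →+* ℂ) (hC : D.W.Cyclotomic) (hS : D.W.Simplices)
    (hI : D.W.Interior) (hG : D.B.Graphs) (c : D.Ix) :
    ∃ D0 : ℝ, D0 ≠ 0 ∧ ∀ ε : ℝ, 0 < ε →
    ∃ Λ : ℝ, 1 < Λ ∧ ∀ lam : K, Λ ≤ ‖σ lam‖ → ∃ Γ : Torus (D.CRing lam) (N + 1 + n),
      (∀ θ x, Γ.e θ (D.mkC lam (C x)) = σ x) ∧
      ∀ k, |Γ.reg (symb (D.ent lam k)) / (-Real.log ‖σ lam‖) -
          (if k = c then 1 else 0) * D0| ≤ ε := by
  classical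
  obtain ⟨U, w, hU, hpos, hpos0⟩ := Laurent.exists_fan hS hI
  obtain ⟨xp, al, hal, hal1, hal2⟩ := exists_chart D.B σ hG c
  set Da : ℕ := ∑ e, ∑ j, al e j with hDa
  have hD : ∀ e j, al e j ≤ Da := fun e j =>
    (Finset.single_le_sum (f := fun j => al e j) (fun _ _ => Nat.zero_le _)
      (Finset.mem_univ j)).trans
    (Finset.single_le_sum (f := fun e => ∑ j, al e j) (fun _ _ => Nat.zero_le _)
      (Finset.mem_univ e))
  obtain ⟨m, hm⟩ := exists_rapid Da (n + 1)
  set cc : Fin (N + 1) → ℕ := fun l =>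
    (∑ i, U l i * (D.W.m0 i + ∑ a, D.W.ex a (w a) i)).toNat with hcc
  have hccz : ∀ l, (cc l : ℤ) = ∑ i, U l i * (D.W.m0 i + ∑ a, D.W.ex a (w a) i) := fun l =>
    Int.toNat_of_nonneg (le_trans zero_le_one (hpos0 l))
  have hcc1 : ∀ l, 1 ≤ cc l := fun l => by
    have h1 := hpos0 l
    rw [← hccz] at h1
    exact_mod_cast h1
  -- the exponents
  set μ : Option ((j : Fin (n + 1)) × Fin (D.B.r j + 1)) ⊕ Option (Fin (N + 1)) →
      Fin (N + 1 + n + 1) → ℕ := Sum.elim (fun e => mm 0 (nex m fun i => al e i))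
        fun o => o.elim (mm cc 0) fun l => mm (Pi.single l 1) 0 with hμdef
  set nn : Option ((j : Fin (n + 1)) × Fin (D.B.r j + 1)) ⊕ Option (Fin (N + 1)) → ℕ :=
    Sum.elim (fun e => e.elim 1 fun e => D.nu e.1 e.2) fun o => o.elim 1 fun _ => 0 with hnn
  have hmm0 : ∀ (μ : Fin (N + 1) → ℕ) (ν : Fin (n + 1) → ℕ), mm μ ν 0 = μ 0 := by
    intro μ ν
    have h1 : (0 : Fin (N + 1 + (n + 1))) = Fin.castAdd (n + 1) 0 := rfl
    show (Fin.append μ ν : Fin (N + 1 + (n + 1)) → ℕ) 0 = μ 0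
    rw [h1, Fin.append_left]
  set q : ℕ := ∑ e, nn e * μ e 0 with hq
  set N' : Fin (N + 1 + n) → ℕ := fun k => ∑ e, nn e * μ e k.succ with hN
  have hq0 : 0 < q := by
    refine lt_of_lt_of_le one_pos (le_trans ?_ (Finset.single_le_sum
      (f := fun e => nn e * μ e 0) (fun _ _ => Nat.zero_le _)
      (Finset.mem_univ (Sum.inr none))))
    have h1 : nn (Sum.inr none) = 1 := rfl
    have h2 : μ (Sum.inr none) = mm cc 0 := rfl
    simp only [h1, h2, hmm0, one_mul]
    exact hcc1 0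
  have hdetU : (Matrix.of fun i l => -((U l i : ℤ) : ℝ)).det ≠ 0 := by
    have e : (Matrix.of fun i l => -((U l i : ℤ) : ℝ)) =
        -((Matrix.of U).map (Int.castRingHom ℝ)).transpose := by
      ext i l
      simp
    rw [e, Matrix.det_neg, Matrix.det_transpose]
    refine mul_ne_zero (pow_ne_zero _ (by norm_num)) ?_
    have h1 := RingHom.map_det (Int.castRingHom ℝ) (Matrix.of U)
    have h2 : ((Matrix.of U).map (Int.castRingHom ℝ)).det = (((Matrix.of U).det : ℤ) : ℝ) :=
      h1.symm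
    rw [h2]
    exact_mod_cast hU
  refine ⟨(2 * Real.pi) ^ (N + 1 + n) * ((Matrix.of fun i l => -((U l i : ℤ) : ℝ)).det *
    (Matrix.of (yrow q N')).det), mul_ne_zero (pow_ne_zero _ (by have := Real.pi_pos; positivity))
    (mul_ne_zero hdetU (det_yrow hq0 N')), fun ε hε => ?_⟩
  -- the rows
  set R : D.Ix → Matrix (Fin (N + 1 + n + 1)) (Fin (N + 1 + n + 1)) ℝ := fun k => Matrix.of
    (Fin.append (fun i t => ∑ l, -((U l i : ℤ) : ℝ) * mrow q N' (μ (Sum.inr (some l))) t)
      (fun j t => mrow q N' (μ (Sum.inl (some ⟨j, k j⟩))) t) :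
        Fin (N + 1 + (n + 1)) → Fin (N + 1 + n + 1) → ℝ) with hR
  have hRdet : ∀ k, (R k).det = (if k = c then 1 else 0) *
      ((Matrix.of fun i l => -((U l i : ℤ) : ℝ)).det * (Matrix.of (yrow q N')).det) := by
    intro k
    have e : R k = (Matrix.of (Fin.append
        (fun i => Fin.append ((Matrix.of fun i l => -((U l i : ℤ) : ℝ)) i) (fun _ => 0))
        (fun j => Fin.append (fun _ => 0) ((Matrix.of fun l j =>
          ((nex m (fun i => al (some ⟨l, k l⟩) i) j : ℕ) : ℝ)) j))) :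
          Matrix (Fin (N + 1 + (n + 1))) (Fin (N + 1 + (n + 1))) ℝ) *
        (Matrix.of (yrow q N') : Matrix (Fin (N + 1 + n + 1)) (Fin (N + 1 + n + 1)) ℝ) := by
      ext s t
      rw [Matrix.mul_apply]
      have hsum := fun g : Fin (N + 1 + (n + 1)) → ℝ =>
        Fin.sum_univ_add (a := N + 1) (b := n + 1) (M := ℝ) g
      refine Eq.trans ?_ (hsum _).symm
      simp only [hR, Matrix.of_apply]
      revert s
      intro s
      refine Fin.addCases (m := N + 1) (n := n + 1) (fun i => ?_) (fun j => ?_) s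
      · simp only [Fin.append_left, Fin.append_right, zero_mul, Finset.sum_const_zero, add_zero]
        refine Finset.sum_congr rfl fun l _ => ?_
        congr 1
        unfold mrow
        refine (hsum _).trans ?_
        have h1 : ∀ l', ((μ (Sum.inr (some l)) (Fin.castAdd (n + 1) l') : ℕ) : ℝ) =
            if l' = l then 1 else 0 := by
          intro l'
          show (((Fin.append (Pi.single l 1) 0 : Fin (N + 1 + (n + 1)) → ℕ)
            (Fin.castAdd (n + 1) l') : ℕ) : ℝ) = _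
          rw [Fin.append_left, Pi.single_apply]
          split_ifs <;> simp
        have h2 : ∀ j' : Fin (n + 1), ((μ (Sum.inr (some l)) (Fin.natAdd (N + 1) j') : ℕ) : ℝ) =
            0 := by
          intro j'
          show (((Fin.append (Pi.single l 1) 0 : Fin (N + 1 + (n + 1)) → ℕ)
            (Fin.natAdd (N + 1) j') : ℕ) : ℝ) = _
          rw [Fin.append_right]
          simp
        simp only [h1, h2, zero_mul, Finset.sum_const_zero, add_zero, ite_mul, one_mul,
          Finset.sum_ite_eq', Finset.mem_univ, if_true]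
      · simp only [Fin.append_left, Fin.append_right, zero_mul, Finset.sum_const_zero, zero_add]
        unfold mrow
        refine (hsum _).trans ?_
        have h1 : ∀ l', ((μ (Sum.inl (some ⟨j, k j⟩)) (Fin.castAdd (n + 1) l') : ℕ) : ℝ) = 0 := by
          intro l'
          show (((Fin.append 0 (nex m fun i => al (some ⟨j, k j⟩) i) :
            Fin (N + 1 + (n + 1)) → ℕ) (Fin.castAdd (n + 1) l') : ℕ) : ℝ) = _
          rw [Fin.append_left]
          simp
        have h2 : ∀ j' : Fin (n + 1),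
            ((μ (Sum.inl (some ⟨j, k j⟩)) (Fin.natAdd (N + 1) j') : ℕ) : ℝ) =
            ((nex m (fun i => al (some ⟨j, k j⟩) i) j' : ℕ) : ℝ) := by
          intro j'
          show (((Fin.append 0 (nex m fun i => al (some ⟨j, k j⟩) i) :
            Fin (N + 1 + (n + 1)) → ℕ) (Fin.natAdd (N + 1) j') : ℕ) : ℝ) = _
          rw [Fin.append_right]
        simp only [h1, h2, zero_mul, Finset.sum_const_zero, zero_add]
        rfl
    rw [e, Matrix.det_mul, det_append, det_tower m al c hal1 hal2 k]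
    ring
  choose δ hδ hclose using fun k : D.Ix => pairing_close (R k) hε
  obtain ⟨k0, -, hk0⟩ := Finset.exists_min_image Finset.univ δ ⟨c, Finset.mem_univ _⟩
  set S : ℝ := ∑ i, ∑ l, |((U l i : ℤ) : ℝ)| with hSdef
  have hS0 : 0 ≤ S := Finset.sum_nonneg fun _ _ => Finset.sum_nonneg fun _ _ => abs_nonneg _
  have hSi : ∀ i, ∑ l, |((U l i : ℤ) : ℝ)| ≤ S := fun i =>
    Finset.single_le_sum (f := fun i => ∑ l, |((U l i : ℤ) : ℝ)|)
      (fun _ _ => Finset.sum_nonneg fun _ _ => abs_nonneg _) (Finset.mem_univ i)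
  set δ0 : ℝ := δ k0 / (2 * (S + 1)) with hδ0
  have hδ0pos : 0 < δ0 := by
    have := hδ k0
    rw [hδ0]
    positivity
  have hδle : ∀ k, (S + 1) * δ0 < δ k := by
    intro k
    have h1 := hk0 k (Finset.mem_univ k)
    have h2 := hδ k0
    have h3 : (S + 1) * δ0 = δ k0 / 2 := by
      rw [hδ0]
      field_simp
    rw [h3]
    linarith
  obtain ⟨η0, hη0, hX⟩ := exists_points' (q := q) (N := N')
    (H := Sum.elim (fun e u => MvPolynomial.eval (mch m (ws u)) (bind₁ xp (map σ (fct D.B e))))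
      fun o => o.elim (fun u => (∏ l, wz u l ^ cc l) * (∏ a, Qa D.W U w σ a (wz u))⁻¹)
        fun l u => wz u l)
    (h := Sum.elim (fun e u => hh m (bind₁ xp (map σ (fct D.B e))) (al e) (ws u))
      fun o => o.elim (fun u => (∏ a, Qa D.W U w σ a (wz u))⁻¹) fun l u => 1)
    (μ := μ) (nn := nn)
    (fun e u => by
      rcases e with e | (_ | l)
      · show MvPolynomial.eval (mch m (ws u)) (bind₁ xp (map σ (fct D.B e))) =
          mmon (mm 0 (nex m fun i => al e i)) u * hh m (bind₁ xp (map σ (fct D.B e))) (al e) (ws u)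
        rw [eval_mch hm (hal e) (hD e), mmon_mm]
        simp
      · show (∏ l, wz u l ^ cc l) * (∏ a, Qa D.W U w σ a (wz u))⁻¹ =
          mmon (mm cc 0) u * (∏ a, Qa D.W U w σ a (wz u))⁻¹
        rw [mmon_mm]
        simp
      · show wz u l = mmon (mm (Pi.single l 1) 0) u * 1
        rw [mmon_mm, Finset.prod_eq_single l]
        · simp
        · intro l' _ hl'
          rw [Pi.single_eq_of_ne hl', pow_zero]
        · intro h
          exact absurd (Finset.mem_univ _) h)
    (fun e => by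
      rcases e with e | (_ | l)
      · exact ((contDiff_hh m _ _).comp contDiff_ws).contDiffAt
      · have h1 : ContDiffAt ℂ 2 (fun u : (Fin (N + 1 + n) → ℂ) × ℂ =>
            ∏ a, Qa D.W U w σ a (wz u)) 0 :=
          (contDiff_prod fun a _ => (contDiff_Qa D.W U w σ a).comp contDiff_wz).contDiffAt
        refine h1.inv ?_
        refine Finset.prod_ne_zero_iff.2 fun a _ => ?_
        rw [wz_zero, Qa_zero D.W U w σ hpos]
        refine (map_ne_zero σ).2 fun h0 => ?_
        obtain ⟨k, hk, h1⟩ := hC a (w a)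
        rw [h0, zero_pow hk] at h1
        exact zero_ne_one h1
      · exact contDiffAt_const)
    (fun e => by
      rcases e with e | (_ | l)
      · show hh m (bind₁ xp (map σ (fct D.B e))) (al e) (ws 0) ≠ 0
        rw [ws_zero]
        exact hh_zero hm (hal e) (hD e)
      · show (∏ a, Qa D.W U w σ a (wz 0))⁻¹ ≠ 0
        refine inv_ne_zero (Finset.prod_ne_zero_iff.2 fun a _ => ?_)
        rw [wz_zero, Qa_zero D.W U w σ hpos]
        refine (map_ne_zero σ).2 fun h0 => ?_
        obtain ⟨k, hk, h1⟩ := hC a (w a)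
        rw [h0, zero_pow hk] at h1
        exact zero_ne_one h1
      · exact one_ne_zero)
    rfl hq0 (fun k => rfl) hδ0pos
  have hinvpos : 0 < 1 / η0 := by positivity
  refine ⟨1 / η0 + 2, by linarith, fun lam hlam => ?_⟩
  have hln : 0 < ‖σ lam‖ := by linarith
  have hl0 : σ lam ≠ 0 := norm_pos_iff.1 hln
  have hη : ‖(σ lam)⁻¹‖ < η0 := by
    rw [norm_inv, inv_lt_comm₀ hln hη0, ← one_div]
    linarith
  obtain ⟨hlog, X, hXc, hXp, hXe, hXg, hXest⟩ := hX _ (inv_ne_zero hl0) hη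
  have hlogeq : Real.log ‖(σ lam)⁻¹‖ = -Real.log ‖σ lam‖ := by rw [norm_inv, Real.log_inv]
  rw [hlogeq] at hlog hXest
  set s : ℝ := -Real.log ‖σ lam‖ with hs
  have hs0 : s ≠ 0 := hlog.ne
  set Z : (Fin (N + 1 + n) → ℝ) → (Fin (N + 1) → ℂ) := fun θ => zz U (wz (X θ)) with hZdef
  set Y : (Fin (N + 1 + n) → ℝ) → (Fin (n + 1) → ℂ) := fun θ j =>
    MvPolynomial.eval (mch m (ws (X θ))) (xp j) with hYdef
  have hval : ∀ (p : MvPolynomial (Fin (n + 1)) K) θ, eval₂ σ (Y θ) p =
      MvPolynomial.eval (mch m (ws (X θ))) (bind₁ xp (map σ p)) := by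
    intro p θ
    unfold MvPolynomial.eval
    rw [MvPolynomial.eval₂Hom_bind₁]
    show _ = MvPolynomial.eval₂ (RingHom.id ℂ) _ (map σ p)
    rw [MvPolynomial.eval₂_map, RingHom.id_comp]
    rfl
  have hwg : ∀ l, Good fun θ => wz (X θ) l := fun l => hXg (Sum.inr (some l))
  have hwne : ∀ θ l, wz (X θ) l ≠ 0 := fun θ l => (hwg l).ne_zero θ
  have hZg : ∀ i, Good fun θ => Z θ i := fun i => good_zprod hwg fun l => -U l i
  have hgoodL : ∀ e, Good fun θ => eval₂ σ (Y θ) (fct D.B e) := fun e => by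
    have h1 := hXg (Sum.inl e)
    simp only [hval]
    exact h1
  have hmch : ContDiff ℂ 2 fun u : (Fin (N + 1 + n) → ℂ) × ℂ => mch m (ws u) := by
    refine contDiff_pi.2 fun j => ?_
    unfold mch
    exact contDiff_prod fun l _ => (contDiff_pi.1 contDiff_ws l).pow _
  have hYc : ∀ k, ContDiff ℝ 2 fun θ => Y θ k := by
    intro k
    have h1 : ∀ p : MvPolynomial (Fin (n + 1)) ℂ, ContDiff ℂ 2
        fun u : (Fin (N + 1 + n) → ℂ) × ℂ => MvPolynomial.eval (mch m (ws u)) p := by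
      intro p
      induction p using MvPolynomial.induction_on with
      | C c => simpa using contDiff_const
      | add p q hp hq => simpa using hp.add hq
      | mul_X p k hp => simpa using hp.mul (contDiff_pi.1 hmch k)
    exact ((h1 (xp k)).restrict_scalars ℝ).comp hXc
  have hYp : ∀ θ i, Y (θ + Pi.single i 1) = Y θ := fun θ i => by
    simp only [hYdef, hXp]
  have hZp : ∀ θ i, Z (θ + Pi.single i 1) = Z θ := fun θ i => by
    simp only [hZdef, hXp]
  have hWinv : ∀ θ, (∏ l, wz (X θ) l ^ cc l) * (∏ a, Qa D.W U w σ a (wz (X θ)))⁻¹ ≠ 0 :=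
    fun θ => (hXg (Sum.inr none)).ne_zero θ
  have hWval : ∀ θ, D.W.eval σ (Z θ) =
      ((∏ l, wz (X θ) l ^ cc l) * (∏ a, Qa D.W U w σ a (wz (X θ)))⁻¹)⁻¹ := by
    intro θ
    rw [hZdef]
    rw [eval_zz D.W U w σ hpos (hwne θ), mul_inv, inv_inv]
    congr 1
    rw [← Finset.prod_inv_distrib]
    refine Finset.prod_congr rfl fun l _ => ?_
    rw [← hccz, zpow_neg, zpow_natCast]
  have hPt : ∀ θ, Pt D σ lam (Z θ) (Y θ) := by
    intro θ
    refine ⟨fun i => (hZg i).ne_zero θ, ?_, fun j i => (hgoodL (some ⟨j, i⟩)).ne_zero θ⟩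
    have h1 := hXe θ
    rw [Fintype.prod_sum_type, Fintype.prod_option, Fintype.prod_option, Fintype.prod_sigma] at h1
    have h2 : (eval₂ σ (Y θ) D.B.g ^ 1 * ∏ j, ∏ i, eval₂ σ (Y θ) (D.B.fac j i) ^ D.nu j i) *
        (((∏ l, wz (X θ) l ^ cc l) * (∏ a, Qa D.W U w σ a (wz (X θ)))⁻¹) ^ 1 *
          ∏ l : Fin (N + 1), wz (X θ) l ^ 0) = (σ lam)⁻¹ := by
      simp only [hval]
      exact h1
    simp only [pow_one, pow_zero, Finset.prod_const_one, mul_one] at h2
    rw [← eval_Phi] at h2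
    rw [hWval]
    symm
    have h3 := hWinv θ
    refine eq_inv_of_mul_eq_one_left ?_
    rw [mul_assoc, h2]
    exact mul_inv_cancel₀ hl0
  have hest : ∀ j i θ, |Real.log ‖eval₂ σ (Y θ) (D.B.fac j i)‖ / s -
      mrow q N' (μ (Sum.inl (some ⟨j, i⟩))) 0| ≤ δ0 ∧
      ∀ l, ‖lw (fun θ => eval₂ σ (Y θ) (D.B.fac j i)) l θ - 2 * Real.pi * Complex.I *
        mrow q N' (μ (Sum.inl (some ⟨j, i⟩))) l.succ‖ ≤ δ0 := fun j i θ => by
    have h1 := hXest (Sum.inl (some ⟨j, i⟩)) θ
    simp only [hval]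
    exact h1
  have hestw : ∀ l θ, |Real.log ‖wz (X θ) l‖ / s - mrow q N' (μ (Sum.inr (some l))) 0| ≤ δ0 ∧
      ∀ t, ‖lw (fun θ => wz (X θ) l) t θ - 2 * Real.pi * Complex.I *
        mrow q N' (μ (Sum.inr (some l))) t.succ‖ ≤ δ0 := fun l θ => hXest (Sum.inr (some l)) θ
  refine ⟨mkT Z Y (fun k => (hZg k).smooth) hYc hZp hYp hPt, fun θ y => mkT_C _ _ _ _ _ _ _ θ y,
    fun k => ?_⟩
  have hfin : (if k = c then 1 else 0) * ((2 * Real.pi) ^ (N + 1 + n) *
      ((Matrix.of fun i l => -((U l i : ℤ) : ℝ)).det * (Matrix.of (yrow q N')).det)) =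
      (2 * Real.pi) ^ (N + 1 + n) * (R k).det := by
    rw [hRdet]
    ring
  set Γ := mkT Z Y (fun k => (hZg k).smooth) hYc hZp hYp hPt with hΓ
  rw [hfin]
  refine Eq.trans_le ?_ (hclose k (fun l => Γ.fn (D.ent lam k l : D.CRing lam)) s hs0
    (fun l => Γ.good _) (fun l θ => ?_) (fun l t θ => ?_))
  · congr 3
    exact Torus.reg_symb Γ (D.ent lam k)
  · refine Fin.addCases (m := N + 1) (n := n + 1) (fun i => ?_) (fun j => ?_) l
    · have e1 : Γ.fn (D.ent lam k (Fin.castAdd (n + 1) i) : D.CRing lam) = fun θ => Z θ i := by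
        unfold Dat.ent
        rw [Fin.append_left]
        exact mkT_uz _ _ _ _ _ _ _ i
      have e2 : R k (Fin.castAdd (n + 1) i) 0 =
          ∑ l, -((U l i : ℤ) : ℝ) * mrow q N' (μ (Sum.inr (some l))) 0 := by
        simp only [hR, Matrix.of_apply, Fin.append_left]
      change |Real.log ‖Γ.fn (D.ent lam k (Fin.castAdd (n + 1) i) : D.CRing lam) θ‖ / s -
        R k (Fin.castAdd (n + 1) i) 0| < δ k
      rw [e1, e2]
      have e3 : Real.log ‖Z θ i‖ = ∑ l, ((-U l i : ℤ) : ℝ) * Real.log ‖wz (X θ) l‖ :=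
        log_zprod hwg (fun l => -U l i) θ
      have e4 : Real.log ‖Z θ i‖ / s - ∑ l, -((U l i : ℤ) : ℝ) *
          mrow q N' (μ (Sum.inr (some l))) 0 = ∑ l, -((U l i : ℤ) : ℝ) *
            (Real.log ‖wz (X θ) l‖ / s - mrow q N' (μ (Sum.inr (some l))) 0) := by
        rw [e3, Finset.sum_div, ← Finset.sum_sub_distrib]
        refine Finset.sum_congr rfl fun l _ => ?_
        push_cast
        ring
      refine lt_of_le_of_lt ?_ (hδle k)
      simp only [e4]
      refine (Finset.abs_sum_le_sum_abs _ _).trans ?_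
      have h5 : ∀ l, |-((U l i : ℤ) : ℝ) * (Real.log ‖wz (X θ) l‖ / s -
          mrow q N' (μ (Sum.inr (some l))) 0)| ≤ |((U l i : ℤ) : ℝ)| * δ0 := by
        intro l
        rw [abs_mul, abs_neg]
        exact mul_le_mul_of_nonneg_left (hestw l θ).1 (abs_nonneg _)
      refine (Finset.sum_le_sum fun l _ => h5 l).trans ?_
      rw [← Finset.sum_mul]
      have := hSi i
      exact mul_le_mul_of_nonneg_right (by linarith) hδ0pos.le
    · have e1 : Γ.fn (D.ent lam k (Fin.natAdd (N + 1) j) : D.CRing lam) =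
          fun θ => eval₂ σ (Y θ) (D.B.fac j (k j)) := by
        unfold Dat.ent
        rw [Fin.append_right]
        exact mkT_ux _ _ _ _ _ _ _ j (k j)
      have e2 : R k (Fin.natAdd (N + 1) j) 0 = mrow q N' (μ (Sum.inl (some ⟨j, k j⟩))) 0 := by
        simp only [hR, Matrix.of_apply, Fin.append_right]
      change |Real.log ‖Γ.fn (D.ent lam k (Fin.natAdd (N + 1) j) : D.CRing lam) θ‖ / s -
        R k (Fin.natAdd (N + 1) j) 0| < δ k
      rw [e1, e2]
      refine lt_of_le_of_lt ((hest j (k j) θ).1.trans ?_) (hδle k)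
      nlinarith
  · refine Fin.addCases (m := N + 1) (n := n + 1) (fun i => ?_) (fun j => ?_) l
    · have e1 : Γ.fn (D.ent lam k (Fin.castAdd (n + 1) i) : D.CRing lam) = fun θ => Z θ i := by
        unfold Dat.ent
        rw [Fin.append_left]
        exact mkT_uz _ _ _ _ _ _ _ i
      have e2 : R k (Fin.castAdd (n + 1) i) t.succ =
          ∑ l, -((U l i : ℤ) : ℝ) * mrow q N' (μ (Sum.inr (some l))) t.succ := by
        simp only [hR, Matrix.of_apply, Fin.append_left]
      change ‖lw (Γ.fn (D.ent lam k (Fin.castAdd (n + 1) i) : D.CRing lam)) t θ -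
        2 * Real.pi * Complex.I * ((R k (Fin.castAdd (n + 1) i) t.succ : ℝ) : ℂ)‖ < δ k
      rw [e1, e2]
      have e3 : lw (fun θ => Z θ i) t θ = ∑ l, ((-U l i : ℤ) : ℂ) *
          lw (fun θ => wz (X θ) l) t θ := lw_zprod hwg (fun l => -U l i) t θ
      have e4 : lw (fun θ => Z θ i) t θ - 2 * Real.pi * Complex.I *
          ((∑ l, -((U l i : ℤ) : ℝ) * mrow q N' (μ (Sum.inr (some l))) t.succ : ℝ) : ℂ) =
          ∑ l, -((U l i : ℤ) : ℂ) * (lw (fun θ => wz (X θ) l) t θ - 2 * Real.pi * Complex.I *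
            mrow q N' (μ (Sum.inr (some l))) t.succ) := by
        rw [e3]
        push_cast
        rw [Finset.mul_sum, ← Finset.sum_sub_distrib]
        refine Finset.sum_congr rfl fun l _ => ?_
        ring
      refine lt_of_le_of_lt ?_ (hδle k)
      rw [e4]
      refine (norm_sum_le _ _).trans ?_
      have h5 : ∀ l, ‖-((U l i : ℤ) : ℂ) * (lw (fun θ => wz (X θ) l) t θ -
          2 * Real.pi * Complex.I * mrow q N' (μ (Sum.inr (some l))) t.succ)‖ ≤
          |((U l i : ℤ) : ℝ)| * δ0 := by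
        intro l
        rw [norm_mul, norm_neg]
        have h6 : ‖((U l i : ℤ) : ℂ)‖ = |((U l i : ℤ) : ℝ)| := Complex.norm_intCast _
        rw [h6]
        exact mul_le_mul_of_nonneg_left ((hestw l θ).2 t) (abs_nonneg _)
      refine (Finset.sum_le_sum fun l _ => h5 l).trans ?_
      rw [← Finset.sum_mul]
      have := hSi i
      exact mul_le_mul_of_nonneg_right (by linarith) hδ0pos.le
    · have e1 : Γ.fn (D.ent lam k (Fin.natAdd (N + 1) j) : D.CRing lam) =
          fun θ => eval₂ σ (Y θ) (D.B.fac j (k j)) := by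
        unfold Dat.ent
        rw [Fin.append_right]
        exact mkT_ux _ _ _ _ _ _ _ j (k j)
      have e2 : R k (Fin.natAdd (N + 1) j) t.succ =
          mrow q N' (μ (Sum.inl (some ⟨j, k j⟩))) t.succ := by
        simp only [hR, Matrix.of_apply, Fin.append_right]
      change ‖lw (Γ.fn (D.ent lam k (Fin.natAdd (N + 1) j) : D.CRing lam)) t θ -
        2 * Real.pi * Complex.I * ((R k (Fin.natAdd (N + 1) j) t.succ : ℝ) : ℂ)‖ < δ k
      rw [e1, e2]
      refine lt_of_le_of_lt (((hest j (k j) θ).2 t).trans ?_) (hδle k)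
      nlinarith

theorem exists_tori (σ : K →+* ℂ) (hC : D.W.Cyclotomic) (hS : D.W.Simplices)
    (hI : D.W.Interior) (hG : D.B.Graphs) :
    ∃ Λ : ℝ, 1 < Λ ∧ ∀ lam : K, Λ ≤ ‖σ lam‖ → ∃ Γ : D.Ix → Torus (D.CRing lam) (N + 1 + n),
      (∀ t θ x, (Γ t).e θ (D.mkC lam (C x)) = σ x) ∧
      (Matrix.of fun t k : D.Ix => (Γ t).reg (symb (D.ent lam k))).det ≠ 0 := by
  classical
  choose D0 hD0 hD using fun c => exists_torus (D := D) σ hC hS hI hG c
  have hdiag : (Matrix.diagonal D0).det ≠ 0 := by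
    rw [Matrix.det_diagonal]
    exact Finset.prod_ne_zero_iff.2 fun c _ => hD0 c
  obtain ⟨δ, hδ, hnear⟩ := Pool.Agent.TH826.SX.det_ne_zero_near _ hdiag
  choose Λ hΛ1 hΛ using fun c => hD c (δ / 2) (by linarith)
  refine ⟨2 + ∑ c, |Λ c|, by
    have : 0 ≤ ∑ c, |Λ c| := Finset.sum_nonneg fun _ _ => abs_nonneg _
    linarith, fun lam hlam => ?_⟩
  have hle : ∀ c, Λ c ≤ ‖σ lam‖ := fun c => by
    have h1 := Finset.single_le_sum (f := fun c => |Λ c|) (fun _ _ => abs_nonneg _)
      (Finset.mem_univ c)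
    have h2 := le_abs_self (Λ c)
    linarith
  choose Γ hΓσ hΓ using fun c => hΛ c lam (hle c)
  refine ⟨Γ, hΓσ, ?_⟩
  have h1 := hnear (Matrix.of fun t k : D.Ix =>
    (Γ t).reg (symb (D.ent lam k)) / (-Real.log ‖σ lam‖)) (fun t k => by
      have h2 := hΓ t k
      have h3 : Matrix.diagonal D0 t k = (if k = t then 1 else 0) * D0 t := by
        by_cases h : k = t
        · subst h
          rw [Matrix.diagonal_apply_eq, if_pos rfl, one_mul]
        · rw [Matrix.diagonal_apply_ne _ (Ne.symm h), if_neg h, zero_mul]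
      rw [Matrix.of_apply, h3]
      exact lt_of_le_of_lt h2 (by linarith))
  intro h0
  apply h1
  have h4 : (Matrix.of fun t k : D.Ix =>
      (Γ t).reg (symb (D.ent lam k)) / (-Real.log ‖σ lam‖)) =
      (-Real.log ‖σ lam‖)⁻¹ • Matrix.of fun t k : D.Ix =>
        (Γ t).reg (symb (D.ent lam k)) := by
    ext t k
    rw [Matrix.smul_apply, Matrix.of_apply, Matrix.of_apply, smul_eq_mul, div_eq_inv_mul]
  rw [h4, Matrix.det_smul, h0, mul_zero]

end main

end Pool.Agent.E8helper18.LF
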