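import Pool.Agent.E8helper18.LF.Dim
set_option autoImplicit false

/-!
A lower bound for the dimension of the space of the admissible coefficients.
-/

namespace Pool.Agent.E8helper18.LF

section Z

variable {n : ℕ} (r : Fin (n + 1) → ℕ)

/-- the functions on a product whose sums over each level vanish -/
def ZS : Submodule ℚ ((∀ j, Fin (r j + 1)) → ℚ) where
  carrier := {m | ∀ (j : Fin (n + 1)) (k : ∀ j, Fin (r j + 1)), ∑ i, m (Function.update k j i) = 0}
  add_mem' := by
    intro a b ha hb j k
    simp only [Pi.add_apply, Finset.sum_add_distrib, ha j k, hb j k, add_zero]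
  zero_mem' := fun j k => by simp
  smul_mem' := by
    intro c a ha j k
    simp only [Pi.smul_apply, smul_eq_mul, ← Finset.mul_sum, ha j k, mul_zero]

theorem finrank_ZS : Module.finrank ℚ (ZS r) = ∏ j, r j := by
  -- the data with these levels and positive multiplicities
  let D : Dat ℚ 0 n := ⟨⟨0, 0, fun _ => 0, fun _ _ => 0, fun _ _ => 0⟩,
    ⟨r, fun _ _ => 0, 0⟩, fun _ _ => 1⟩
  have h1 : D.Adm = ZS r := by
    ext m
    constructor
    · exact fun h => h.1
    · exact fun h => ⟨h, fun j k hk => absurd hk one_ne_zero⟩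
  have h2 := finrank_Adm D fun _ _ => one_ne_zero
  rw [h1] at h2
  exact h2

variable {r}

/-- summation over all updates of one coordinate -/
theorem sum_update (F : (∀ j, Fin (r j + 1)) → ℚ) (l : Fin (n + 1)) :
    ∑ k, ∑ i, F (Function.update k l i) = (r l + 1 : ℚ) * ∑ k, F k := by
  classical
  have h1 : ∑ k, ∑ i, F (Function.update k l i) =
      ∑ x : (∀ j, Fin (r j + 1)) × Fin (r l + 1), F (Function.update x.1 l x.2) := by
    rw [Fintype.sum_prod_type]
  have h2 : ∑ x : (∀ j, Fin (r j + 1)) × Fin (r l + 1), F (Function.update x.1 l x.2) =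
      ∑ x : (∀ j, Fin (r j + 1)) × Fin (r l + 1), F x.1 := by
    refine Fintype.sum_equiv ⟨fun x => (Function.update x.1 l x.2, x.1 l),
      fun x => (Function.update x.1 l x.2, x.1 l), fun x => ?_, fun x => ?_⟩ _ _ fun x => rfl
    · simp
    · simp
  rw [h1, h2, Fintype.sum_prod_type]
  simp only [Finset.sum_const, Finset.card_univ, Fintype.card_fin, nsmul_eq_mul]
  rw [← Finset.mul_sum]
  push_cast
  rfl

/-- the sum of a function with vanishing sums over a level, over a set which does not depend on
this level, vanishes -/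
theorem sum_cond {m : (∀ j, Fin (r j + 1)) → ℚ} {l : Fin (n + 1)}
    (hm : ∀ k : ∀ j, Fin (r j + 1), ∑ i, m (Function.update k l i) = 0)
    (P : (∀ j, Fin (r j + 1)) → Prop) [DecidablePred P]
    (hP : ∀ k i, P (Function.update k l i) ↔ P k) : ∑ k, (if P k then m k else 0) = 0 := by
  have h1 := sum_update (fun k => if P k then m k else 0) l
  have h2 : ∑ k : (∀ j, Fin (r j + 1)), ∑ i, (if P (Function.update k l i) then
      m (Function.update k l i) else 0) = 0 := by
    refine Finset.sum_eq_zero fun k _ => ?_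
    simp only [hP]
    split_ifs
    · exact hm k
    · simp
  rw [h2] at h1
  have h3 : (r l + 1 : ℚ) ≠ 0 := by positivity
  exact (mul_eq_zero.1 h1.symm).resolve_left h3

end Z

section quot

theorem exists_quot {r : ℕ} {α : Type*} [DecidableEq α] (f : Fin (r + 1) → α) :
    ∃ q : Fin (r + 1) → Fin ((Finset.univ.image f).card - 1 + 1), ∀ a b, q a = q b ↔
      f a = f b := by
  have h1 : 1 ≤ (Finset.univ.image f).card :=
    Finset.card_pos.2 ⟨f 0, Finset.mem_image_of_mem _ (Finset.mem_univ _)⟩
  have h2 : (Finset.univ.image f).card = (Finset.univ.image f).card - 1 + 1 := by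
    omega
  set e := Finset.equivFinOfCardEq h2
  refine ⟨fun a => e ⟨f a, Finset.mem_image_of_mem _ (Finset.mem_univ _)⟩, fun a b => ?_⟩
  rw [e.apply_eq_iff_eq, Subtype.mk.injEq]

end quot

section main

variable {K : Type*} [Field K] {N n : ℕ} (D : Dat K N n)

theorem exists_Q (j : Fin (n + 1)) (i : Fin (D.B.r j + 1)) (l : Fin (n + 1)) :
    ∃ q : Fin (D.B.r l + 1) → Fin (D.rr j i l + 1), (l < j → ∀ a b, q a = q b ↔
      D.rphi j i l a = D.rphi j i l b) ∧ (j < l → ∀ a b, q a = q b ↔ a = b) := by
  classical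
  by_cases h1 : l < j
  · obtain ⟨q, hq⟩ := exists_quot fun t => D.rphi j i l t
    have h2 : D.rr j i l = D.nres j i l - 1 := by
      unfold Dat.rr
      rw [if_pos h1]
    rw [h2]
    exact ⟨q, fun _ => hq, fun h => absurd h (not_lt.2 h1.le)⟩
  · by_cases h2 : l = j
    · exact ⟨fun _ => 0, fun h => absurd h h1, fun h => absurd h2.symm h.ne⟩
    · have h3 : D.rr j i l = D.B.r l := by
        unfold Dat.rr
        rw [if_neg h1, if_neg h2]
      rw [h3]
      exact ⟨id, fun h => absurd h h1, fun _ a b => Iff.rfl⟩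

/-- the quotient maps -/
noncomputable def QQ (j : Fin (n + 1)) (i : Fin (D.B.r j + 1)) (l : Fin (n + 1)) :
    Fin (D.B.r l + 1) → Fin (D.rr j i l + 1) := (exists_Q D j i l).choose

theorem QQ_lt (j : Fin (n + 1)) (i : Fin (D.B.r j + 1)) {l : Fin (n + 1)} (h : l < j)
    (a b : Fin (D.B.r l + 1)) : QQ D j i l a = QQ D j i l b ↔
      D.rphi j i l a = D.rphi j i l b :=
  (exists_Q D j i l).choose_spec.1 h a b

theorem QQ_gt (j : Fin (n + 1)) (i : Fin (D.B.r j + 1)) {l : Fin (n + 1)} (h : j < l)
    (a b : Fin (D.B.r l + 1)) : QQ D j i l a = QQ D j i l b ↔ a = b :=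
  (exists_Q D j i l).choose_spec.2 h a b

/-- the condition for the class sums -/
def PP (j : Fin (n + 1)) (i : Fin (D.B.r j + 1)) (c : ∀ l, Fin (D.rr j i l + 1)) (k : D.Ix) :
    Prop := k j = i ∧ ∀ l, l ≠ j → QQ D j i l (k l) = c l

open Classical in
/-- the class sums -/
noncomputable def TT (j : Fin (n + 1)) (i : Fin (D.B.r j + 1)) :
    (D.Ix → ℚ) →ₗ[ℚ] ((∀ l, Fin (D.rr j i l + 1)) → ℚ) where
  toFun m c := (if c j = 0 then -1 else 1) * ∑ k, if PP D j i c k then m k else 0
  map_add' a b := by
    funext c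
    rw [Pi.add_apply, ← mul_add, ← Finset.sum_add_distrib]
    congr 1
    refine Finset.sum_congr rfl fun k _ => ?_
    split_ifs <;> simp
  map_smul' t a := by
    funext c
    have h : ∑ k : D.Ix, (if PP D j i c k then (t • a) k else 0) =
        t * ∑ k : D.Ix, if PP D j i c k then a k else 0 := by
      rw [Finset.mul_sum]
      refine Finset.sum_congr rfl fun k _ => ?_
      split_ifs <;> simp
    rw [Pi.smul_apply, RingHom.id_apply, smul_eq_mul, h]
    ring

open Classical in
theorem TT_apply (j : Fin (n + 1)) (i : Fin (D.B.r j + 1)) (m : D.Ix → ℚ)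
    (c : ∀ l, Fin (D.rr j i l + 1)) :
    TT D j i m c = (if c j = 0 then -1 else 1) * ∑ k, if PP D j i c k then m k else 0 := rfl

theorem TT_mem (j : Fin (n + 1)) (i : Fin (D.B.r j + 1)) {m : D.Ix → ℚ} (hm : m ∈ ZS D.B.r) :
    TT D j i m ∈ ZS (D.rr j i) := by
  classical
  intro l c
  by_cases hl : l = j
  · subst hl
    have h1 : ∀ (t : Fin (D.rr l i l + 1)) (k : D.Ix),
        PP D l i (Function.update c l t) k ↔ PP D l i c k := by
      intro t k
      unfold PP
      refine and_congr_right fun _ => forall_congr' fun l' => ?_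
      refine imp_congr_right fun h => ?_
      rw [Function.update_of_ne h]
    simp only [TT_apply, h1, Function.update_self]
    rw [← Finset.sum_mul]
    have h2 : D.rr l i l = 1 := by
      unfold Dat.rr
      rw [if_neg (lt_irrefl _), if_pos rfl]
    have h3 : ∀ s : ℕ, s = 1 → ∑ t : Fin (s + 1), (if t = 0 then (-1 : ℚ) else 1) = 0 := by
      rintro s rfl
      rw [Fin.sum_univ_two]
      simp
    rw [h3 _ h2, zero_mul]
  · simp only [TT_apply]
    have h1 : ∀ t : Fin (D.rr j i l + 1), (Function.update c l t) j = c j := fun t => by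
      rw [Function.update_of_ne (Ne.symm hl)]
    simp only [h1]
    rw [← Finset.mul_sum, Finset.sum_comm]
    have h2 : ∀ k : D.Ix, ∑ t, (if PP D j i (Function.update c l t) k then m k else 0) =
        if (k j = i ∧ ∀ l', l' ≠ j → l' ≠ l → QQ D j i l' (k l') = c l') then m k else 0 := by
      intro k
      rw [Finset.sum_eq_single (QQ D j i l (k l))]
      · refine if_congr ?_ rfl rfl
        unfold PP
        refine and_congr_right fun _ => ?_
        constructor
        · intro h l' h1 h2
          have h3 := h l' h1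
          rwa [Function.update_of_ne h2] at h3
        · intro h l' h1
          by_cases h2 : l' = l
          · subst h2
            rw [Function.update_self]
          · rw [Function.update_of_ne h2]
            exact h l' h1 h2
      · intro t _ ht
        rw [if_neg]
        rintro ⟨-, h⟩
        have h3 := h l hl
        rw [Function.update_self] at h3
        exact ht h3.symm
      · intro h
        exact absurd (Finset.mem_univ _) h
    simp only [h2]
    rw [sum_cond (hm l) _ fun k t => ?_, mul_zero]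
    rw [Function.update_of_ne (Ne.symm hl)]
    refine and_congr_right fun _ => forall_congr' fun l' => ?_
    refine imp_congr_right fun _ => imp_congr_right fun h => ?_
    rw [Function.update_of_ne h]

theorem mem_Adm {m : D.Ix → ℚ} (hm : m ∈ ZS D.B.r)
    (h : ∀ j i, D.nu j i = 0 → TT D j i m = 0) : m ∈ D.Adm := by
  classical
  refine ⟨hm, fun j k hk => ?_⟩
  have h2 : D.rr j (k j) j = 1 := by
    unfold Dat.rr
    rw [if_neg (lt_irrefl _), if_pos rfl]
  -- a value of the last coordinate different from zero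
  obtain ⟨t, ht⟩ : ∃ t : Fin (D.rr j (k j) j + 1), t ≠ 0 := by
    rw [h2]
    exact ⟨1, by decide⟩
  have h1 := congrFun (h j (k j) hk) (Function.update (fun l => QQ D j (k j) l (k l)) j t)
  rw [TT_apply, Function.update_self, if_neg ht, one_mul, Pi.zero_apply] at h1
  rw [← h1, ← Finset.sum_filter]
  refine Finset.sum_congr ?_ fun _ _ => rfl
  ext k'
  simp only [Finset.mem_filter, Finset.mem_univ, true_and]
  unfold Dat.Same PP
  refine and_congr_right fun _ => ?_
  constructor
  · rintro ⟨h3, h4⟩ l hl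
    rw [Function.update_of_ne hl]
    rcases lt_or_gt_of_ne hl with h5 | h5
    · exact (QQ_lt D j (k j) h5 _ _).2 (h4 l h5)
    · exact (QQ_gt D j (k j) h5 _ _).2 (h3 l h5)
  · intro h3
    refine ⟨fun l hl => ?_, fun l hl => ?_⟩
    · have h4 := h3 l hl.ne'
      rw [Function.update_of_ne hl.ne'] at h4
      exact (QQ_gt D j (k j) hl _ _).1 h4
    · have h4 := h3 l hl.ne
      rw [Function.update_of_ne hl.ne] at h4
      exact (QQ_lt D j (k j) hl _ _).1 h4

/-- the graphs of multiplicity zero -/
abbrev NG : Type := {x : (j : Fin (n + 1)) × Fin (D.B.r j + 1) // D.nu x.1 x.2 = 0}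

/-- all class sums -/
noncomputable def TA : ZS D.B.r →ₗ[ℚ] ∀ x : NG D, ZS (D.rr x.1.1 x.1.2) :=
  LinearMap.pi fun x => ((TT D x.1.1 x.1.2).comp (ZS D.B.r).subtype).codRestrict _
    fun m => TT_mem D _ _ m.2

theorem le_finrank : ∏ l, D.B.r l ≤ Module.finrank ℚ D.Adm +
    ∑ x : NG D, ∏ l, D.rr x.1.1 x.1.2 l := by
  classical
  have h1 := (TA D).finrank_range_add_finrank_ker
  rw [finrank_ZS] at h1
  have h2 : Module.finrank ℚ (LinearMap.range (TA D)) ≤ ∑ x : NG D, ∏ l, D.rr x.1.1 x.1.2 l := by
    refine (Submodule.finrank_le _).trans_eq ?_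
    rw [Module.finrank_pi_fintype]
    exact Finset.sum_congr rfl fun x _ => finrank_ZS _
  have h3 : Module.finrank ℚ (LinearMap.ker (TA D)) ≤ Module.finrank ℚ D.Adm := by
    have hmem : ∀ m : LinearMap.ker (TA D), ((m : ZS D.B.r) : D.Ix → ℚ) ∈ D.Adm := by
      rintro ⟨m, hm⟩
      refine mem_Adm D m.2 fun j i hji => ?_
      have h4 := congrFun (LinearMap.mem_ker.1 hm) ⟨⟨j, i⟩, hji⟩
      exact congrArg Subtype.val h4
    refine LinearMap.finrank_le_finrank_of_injective
      (f := LinearMap.codRestrict D.Adm ((ZS D.B.r).subtype.comp (LinearMap.ker (TA D)).subtype)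
        hmem) ?_
    intro a b hab
    have h5 := congrArg Subtype.val hab
    exact Subtype.ext (Subtype.ext h5)
  omega

theorem le_dim : ∏ l, D.B.r l ≤ D.dim + D.defect := by
  classical
  refine (le_finrank D).trans_eq ?_
  unfold Dat.dim
  congr 1
  unfold Dat.defect
  have h1 : ∑ j, ∑ i, (if D.nu j i = 0 then ∏ l, D.rr j i l else 0) =
      ∑ x : (j : Fin (n + 1)) × Fin (D.B.r j + 1), if D.nu x.1 x.2 = 0 then
        ∏ l, D.rr x.1 x.2 l else 0 := by
    rw [Fintype.sum_sigma]
  rw [h1, ← Finset.sum_filter]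
  refine (Finset.sum_subtype (Finset.univ.filter fun x : (j : Fin (n + 1)) × Fin (D.B.r j + 1) =>
    D.nu x.1 x.2 = 0) (fun x => ?_) fun x => ∏ l, D.rr x.1 x.2 l).symm
  simp only [Finset.mem_filter, Finset.mem_univ, true_and]

end main

end Pool.Agent.E8helper18.LF
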