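import Pool.Agent.E8helper18.LF.Main
set_option autoImplicit false

/-!
The determinants of the regulators of the admissible classes.
-/

namespace Pool.Agent.E8helper18.LF

open Pool.Agent.TH826.MK

open MvPolynomial (C)

section lin

theorem exists_minor' {F : Type*} [Field F] {b : ℕ} {E : Type*} [Fintype E]
    (M : Matrix (Fin b) E F) (h : LinearIndependent F M.row) :
    ∃ e : Fin b → E, (M.submatrix id e).det ≠ 0 := by
  classical
  have h1 : M.rank = b := by rw [h.rank_matrix, Fintype.card_fin]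
  have h2 : Submodule.span F (Set.range M.col) = ⊤ := by
    refine Submodule.eq_top_of_finrank_eq ?_
    rw [← Matrix.rank_eq_finrank_span_cols, h1, Module.finrank_fin_fun]
  obtain ⟨κ, a, ha, hs, hl⟩ := exists_linearIndependent' F M.col
  have : Finite κ := Finite.of_injective a ha
  have := Fintype.ofFinite κ
  rw [h2] at hs
  have hcard : Fintype.card κ = b := by
    have h3 := Module.finrank_eq_card_basis (Module.Basis.mk hl hs.ge)
    rw [Module.finrank_fin_fun] at h3
    exact h3.symm
  refine ⟨a ∘ (Fintype.equivFinOfCardEq hcard).symm, ?_⟩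
  have h4 : LinearIndependent F (M.submatrix id
      (a ∘ (Fintype.equivFinOfCardEq hcard).symm)).col :=
    hl.comp _ (Fintype.equivFinOfCardEq hcard).symm.injective
  rw [Matrix.linearIndependent_cols_iff_isUnit, Matrix.isUnit_iff_isUnit_det] at h4
  exact h4.ne_zero

/-- rational linearly independent rows stay linearly independent after multiplication with an
invertible real matrix -/
theorem li_mul {b : ℕ} {E : Type*} [Fintype E] [DecidableEq E] (V : Matrix (Fin b) E ℚ)
    (h : LinearIndependent ℚ V.row) (M : Matrix E E ℝ) (hM : M.det ≠ 0) :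
    LinearIndependent ℝ (V.map (Rat.castHom ℝ) * M).row := by
  obtain ⟨e, he⟩ := exists_minor' V h
  rw [← Matrix.vecMul_injective_iff]
  refine (injective_iff_map_eq_zero
    (Matrix.vecMulLinear (V.map (Rat.castHom ℝ) * M))).2 fun c hc => ?_
  change Matrix.vecMul c (V.map (Rat.castHom ℝ) * M) = 0 at hc
  rw [← Matrix.vecMul_vecMul] at hc
  have h1 : Matrix.vecMul c (V.map (Rat.castHom ℝ)) = 0 := Matrix.eq_zero_of_vecMul_eq_zero hM hc
  have h2 : Matrix.vecMul c ((V.submatrix id e).map (Rat.castHom ℝ)) = 0 := by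
    funext m
    exact congrFun h1 (e m)
  refine Matrix.eq_zero_of_vecMul_eq_zero ?_ h2
  rw [← RingHom.mapMatrix_apply, ← RingHom.map_det]
  exact (map_ne_zero _).2 he

end lin

section main

variable {K : Type*} [Field K] {N n : ℕ} (D : Dat K N n) (lam : K)

/-- the class of `m` as a linear function of `m` -/
noncomputable def clm : (D.Ix → ℚ) →ₗ[ℚ] KQ (D.CRing lam) (N + 1 + (n + 1)) where
  toFun := D.cl lam
  map_add' m n := by
    unfold Dat.cl Dat.sy
    simp only [Pi.add_apply, add_smul, Finset.sum_add_distrib]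
  map_smul' c n := by
    unfold Dat.cl Dat.sy
    simp only [Pi.smul_apply, smul_eq_mul, mul_smul, ← Finset.smul_sum, RingHom.id_apply]

variable {D lam}

/-- The tori for the admissible classes. -/
theorem exists_minor_tori (Γ : D.Ix → Torus (D.CRing lam) (N + 1 + n))
    (hΓ : (Matrix.of fun t k : D.Ix => (Γ t).reg (symb (D.ent lam k))).det ≠ 0) :
    ∃ e : Fin (Module.finrank ℚ D.Adm) → D.Ix,
      ∀ B : Fin (Module.finrank ℚ D.Adm) → D.Ix → ℚ, (∀ m, B m ∈ D.Adm) →
        LinearIndependent ℚ B →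
        (Matrix.of fun l m => (Γ (e l)).reg (D.cl lam (B m))).det ≠ 0 := by
  classical
  set b := Module.finrank ℚ D.Adm with hb
  set B0 : Module.Basis (Fin b) ℚ D.Adm := Module.finBasis ℚ D.Adm with hB0
  set V : Matrix (Fin b) D.Ix ℚ := Matrix.of fun m k => (B0 m : D.Ix → ℚ) k with hV
  have hVl : LinearIndependent ℚ V.row :=
    B0.linearIndependent.map' D.Adm.subtype (Submodule.ker_subtype _)
  set M : Matrix D.Ix D.Ix ℝ := (Matrix.of fun t k : D.Ix =>
    (Γ t).reg (symb (D.ent lam k))).transpose with hM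
  have hMdet : M.det ≠ 0 := by
    rw [hM, Matrix.det_transpose]
    exact hΓ
  obtain ⟨e, he⟩ := exists_minor' _ (li_mul V hVl M hMdet)
  have hreg : ∀ (t : D.Ix) (m : D.Ix → ℚ), (Γ t).reg (D.cl lam m) =
      ∑ k, (m k : ℝ) * (Γ t).reg (symb (D.ent lam k)) := by
    intro t m
    unfold Dat.cl Dat.sy
    rw [map_sum]
    refine Finset.sum_congr rfl fun k _ => ?_
    rw [map_smul, Rat.smul_def]
  refine ⟨e, fun B hB hBl => ?_⟩
  rcases Nat.eq_zero_or_pos b with h0 | hpos
  · have hE : IsEmpty (Fin b) := by rw [h0]; infer_instance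
    rw [Matrix.det_isEmpty]
    exact one_ne_zero
  have : Nonempty (Fin b) := ⟨⟨0, hpos⟩⟩
  have hBl' : LinearIndependent ℚ fun m => (⟨B m, hB m⟩ : D.Adm) := by
    refine LinearIndependent.of_comp D.Adm.subtype ?_
    exact hBl
  set B' : Module.Basis (Fin b) ℚ D.Adm :=
    basisOfLinearIndependentOfCardEqFinrank hBl' (Fintype.card_fin b) with hB'
  have hB'e : ∀ m, (B' m : D.Ix → ℚ) = B m := by
    intro m
    rw [hB', coe_basisOfLinearIndependentOfCardEqFinrank]
  have h4 : (Matrix.of fun l m => (Γ (e l)).reg (D.cl lam (B m))) =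
      ((V.map (Rat.castHom ℝ) * M).submatrix id e).transpose *
        (B0.toMatrix B').map (Rat.castHom ℝ) := by
    ext l m
    rw [Matrix.mul_apply, Matrix.of_apply, ← hB'e]
    set ρ : D.Adm →ₗ[ℚ] ℝ := (Γ (e l)).reg.comp ((clm D lam).comp D.Adm.subtype) with hρ
    have h5 : ρ (B' m) = ∑ j, ((Γ (e l)).reg (D.cl lam (B0 j : D.Ix → ℚ))) *
        ((B0.toMatrix B' j m : ℚ) : ℝ) := by
      conv_lhs => rw [← B0.sum_toMatrix_smul_self B' m]
      rw [map_sum]
      refine Finset.sum_congr rfl fun j _ => ?_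
      rw [map_smul, Rat.smul_def, mul_comm]
      rfl
    refine Eq.trans h5 (Finset.sum_congr rfl fun j _ => ?_)
    rw [hreg]
    rfl
  rw [h4, Matrix.det_mul, Matrix.det_transpose]
  refine mul_ne_zero he ?_
  rw [← RingHom.mapMatrix_apply, ← RingHom.map_det]
  refine (map_ne_zero _).2 ?_
  have h6 := B0.toMatrix_mul_toMatrix_flip B'
  have h7 := congrArg Matrix.det h6
  rw [Matrix.det_mul, Matrix.det_one] at h7
  exact left_ne_zero_of_mul_eq_one h7

end main

end Pool.Agent.E8helper18.LF
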