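import Pool.Agent.E8helper18.LF.Ev
import Pool.Agent.Y797.GC.Sard
set_option autoImplicit false

/-!
The varieties are smooth at the points with `Φ ≠ 0` for large `λ`.
-/

namespace Pool.Agent.E8helper18.LF

open MvPolynomial

section curve

variable {ι : Type*} [Fintype ι] [DecidableEq ι]

theorem hasDerivAt_curve (Q : MvPolynomial ι ℂ) (c : ℂ → ι → ℂ) (c' : ι → ℂ) (t0 : ℂ)
    (hc : ∀ k, HasDerivAt (fun t => c t k) (c' k) t0) :
    HasDerivAt (fun t => eval (c t) Q) (∑ k, c' k * eval (c t0) (pderiv k Q)) t0 := by
  induction Q using MvPolynomial.induction_on with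
  | C a =>
    simp only [eval_C, pderiv_C, map_zero, mul_zero, Finset.sum_const_zero]
    exact hasDerivAt_const _ _
  | add a b ha hb =>
    simp only [map_add, mul_add, Finset.sum_add_distrib]
    exact ha.add hb
  | mul_X a j ha =>
    simp only [map_mul, eval_X]
    refine (ha.mul (hc j)).congr_deriv ?_
    have h1 : ∀ k, c' k * eval (c t0) (pderiv k (a * X j)) =
        (c' k * eval (c t0) (pderiv k a)) * c t0 j +
          eval (c t0) a * (if k = j then c' j else 0) := by
      intro k
      rw [Derivation.leibniz]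
      simp only [smul_eq_mul, map_add, map_mul, eval_X]
      by_cases hk : k = j
      · subst hk
        rw [pderiv_X_self, map_one, if_pos rfl]
        ring
      · rw [pderiv_X_of_ne (Ne.symm hk), map_zero, if_neg hk]
        ring
    simp only [h1, Finset.sum_add_distrib, ← Finset.sum_mul, ← Finset.mul_sum,
      Finset.sum_ite_eq', Finset.mem_univ, if_true]

theorem hasDerivAt_update (Q : MvPolynomial ι ℂ) (q : ι → ℂ) (v : ι) :
    HasDerivAt (fun t => eval (Function.update q v t) Q) (eval q (pderiv v Q)) (q v) := by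
  have h := hasDerivAt_curve Q (fun t => Function.update q v t) (fun k => if k = v then 1 else 0)
    (q v) (fun k => by
      by_cases hk : k = v
      · subst hk
        simp only [Function.update_self, if_true]
        exact hasDerivAt_id _
      · simp only [Function.update_of_ne hk, if_neg hk]
        exact hasDerivAt_const _ _)
  refine h.congr_deriv ?_
  simp only [Function.update_eq_self, ite_mul, one_mul, zero_mul, Finset.sum_ite_eq',
    Finset.mem_univ, if_true]

end curve

section ren

variable {ι κ : Type*}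

theorem pderiv_inr (p : MvPolynomial ι ℂ) (k : κ) :
    pderiv (Sum.inr k : ι ⊕ κ) (rename Sum.inl p) = 0 := by
  induction p using MvPolynomial.induction_on with
  | C a => rw [rename_C, pderiv_C]
  | add a b ha hb => rw [map_add, map_add, ha, hb, add_zero]
  | mul_X a j ha =>
    rw [map_mul, rename_X, Derivation.leibniz, ha, pderiv_X_of_ne (by simp)]
    simp

end ren

section smooth

variable {K : Type*} [Field K] {N n : ℕ} (D : Dat K N n) (σ : K →+* ℂ)

/-- the values of the variables -/
def pt (z : Fin (N + 1) → ℂ) (w : Fin (N + 1) → ℂ) (c : ℂ) (x : Fin (n + 1) → ℂ) : Var N n → ℂ :=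
  Sum.elim (Sum.elim z w) fun o => o.elim c x

theorem eval_pW {z w : Fin (N + 1) → ℂ} {c : ℂ} {x : Fin (n + 1) → ℂ}
    (h : ∀ i, z i * w i = 1) : eval (pt z w c x) (map σ D.poly) = D.W.eval σ z := by
  have h1 := map_poly D (eval₂Hom σ (pt z w c x)) (fun i => by
    unfold zv zi
    rw [MvPolynomial.eval₂Hom_X', MvPolynomial.eval₂Hom_X']
    exact h i)
  have e1 : (eval₂Hom σ (pt z w c x)).comp (C : K →+* MvPolynomial (Var N n) K) = σ := by
    ext a
    exact MvPolynomial.eval₂Hom_C _ _ _
  have e2 : (fun i => eval₂Hom σ (pt z w c x) (zv K i)) = z := by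
    funext i
    unfold zv
    rw [MvPolynomial.eval₂Hom_X']
    rfl
  rw [e1, e2] at h1
  rw [eval_map]
  exact h1

theorem eval_pP (z w : Fin (N + 1) → ℂ) (c : ℂ) (x : Fin (n + 1) → ℂ) :
    eval (pt z w c x) (map σ (emb K D.Phi)) = eval₂ σ x D.Phi := by
  rw [eval_map]
  unfold emb
  show eval₂ σ (pt z w c x) (rename _ D.Phi) = _
  rw [MvPolynomial.eval₂_rename]
  rfl

variable (z w : Fin (N + 1) → ℂ) (c : ℂ) (x : Fin (n + 1) → ℂ)

theorem update_inr_none (t : ℂ) :
    Function.update (pt z w c x) (Sum.inr none) t = pt z w t x := by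
  funext v
  by_cases h : v = Sum.inr none
  · subst h
    rw [Function.update_self]
    rfl
  · rw [Function.update_of_ne h]
    rcases v with v | (_ | v)
    · rfl
    · exact absurd rfl h
    · rfl

theorem update_inr_some (j : Fin (n + 1)) (t : ℂ) :
    Function.update (pt z w c x) (Sum.inr (some j)) t = pt z w c (Function.update x j t) := by
  funext v
  by_cases h : v = Sum.inr (some j)
  · subst h
    rw [Function.update_self]
    exact (Function.update_self j t x).symm
  · rw [Function.update_of_ne h]
    rcases v with v | (_ | v)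
    · rfl
    · rfl
    · have h1 : v ≠ j := fun h2 => h (by rw [h2])
      exact (Function.update_of_ne h1 t x).symm

theorem update_inl_inl (i : Fin (N + 1)) (t : ℂ) :
    Function.update (pt z w c x) (Sum.inl (Sum.inl i)) t = pt (Function.update z i t) w c x := by
  funext v
  by_cases h : v = Sum.inl (Sum.inl i)
  · subst h
    rw [Function.update_self]
    exact (Function.update_self i t z).symm
  · rw [Function.update_of_ne h]
    rcases v with (v | v) | v
    · have h1 : v ≠ i := fun h2 => h (by rw [h2])
      exact (Function.update_of_ne h1 t z).symm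
    · rfl
    · rfl

theorem update_inl_inr (i : Fin (N + 1)) (t : ℂ) :
    Function.update (pt z w c x) (Sum.inl (Sum.inr i)) t = pt z (Function.update w i t) c x := by
  funext v
  by_cases h : v = Sum.inl (Sum.inr i)
  · subst h
    rw [Function.update_self]
    exact (Function.update_self i t w).symm
  · rw [Function.update_of_ne h]
    rcases v with (v | v) | v
    · rfl
    · have h1 : v ≠ i := fun h2 => h (by rw [h2])
      exact (Function.update_of_ne h1 t w).symm
    · rfl

variable {z w c x}

theorem dW_inr (h : ∀ i, z i * w i = 1) (o : Option (Fin (n + 1))) :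
    eval (pt z w c x) (pderiv (Sum.inr o) (map σ D.poly)) = 0 := by
  have h1 := hasDerivAt_update (map σ D.poly) (pt z w c x) (Sum.inr o)
  have h2 : (fun t => eval (Function.update (pt z w c x) (Sum.inr o) t) (map σ D.poly)) =
      fun _ => D.W.eval σ z := by
    funext t
    rcases o with _ | j
    · rw [update_inr_none, eval_pW D σ h]
    · rw [update_inr_some, eval_pW D σ h]
  rw [h2] at h1
  exact h1.unique (hasDerivAt_const _ _)

theorem dP_inl (v : Fin (N + 1) ⊕ Fin (N + 1)) :
    eval (pt z w c x) (pderiv (Sum.inl v) (map σ (emb K D.Phi))) = 0 := by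
  have h1 := hasDerivAt_update (map σ (emb K D.Phi)) (pt z w c x) (Sum.inl v)
  have h2 : (fun t => eval (Function.update (pt z w c x) (Sum.inl v) t)
      (map σ (emb K D.Phi))) = fun _ => eval₂ σ x D.Phi := by
    funext t
    rcases v with i | i
    · rw [update_inl_inl, eval_pP D σ]
    · rw [update_inl_inr, eval_pP D σ]
  rw [h2] at h1
  exact h1.unique (hasDerivAt_const _ _)

theorem dP_none :
    eval (pt z w c x) (pderiv (Sum.inr none) (map σ (emb K D.Phi))) = 0 := by
  have h1 := hasDerivAt_update (map σ (emb K D.Phi)) (pt z w c x) (Sum.inr none)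
  have h2 : (fun t => eval (Function.update (pt z w c x) (Sum.inr none) t)
      (map σ (emb K D.Phi))) = fun _ => eval₂ σ x D.Phi := by
    funext t
    rw [update_inr_none, eval_pP D σ]
  rw [h2] at h1
  exact h1.unique (hasDerivAt_const _ _)

theorem dP_some (j : Fin (n + 1)) :
    eval (pt z w c x) (pderiv (Sum.inr (some j)) (map σ (emb K D.Phi))) =
      deriv (fun t => eval₂ σ (Function.update x j t) D.Phi) (x j) := by
  have h1 := hasDerivAt_update (map σ (emb K D.Phi)) (pt z w c x) (Sum.inr (some j))
  have h2 : (fun t => eval (Function.update (pt z w c x) (Sum.inr (some j)) t)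
      (map σ (emb K D.Phi))) = fun t => eval₂ σ (Function.update x j t) D.Phi := by
    funext t
    rw [update_inr_some, eval_pP D σ]
  rw [h2] at h1
  exact h1.deriv.symm

theorem dW_inl (h0 : ∀ i, z i ≠ 0) (i : Fin (N + 1)) :
    eval (pt z (fun i => (z i)⁻¹) c x) (pderiv (Sum.inl (Sum.inl i)) (map σ D.poly)) -
      ((z i) ^ 2)⁻¹ * eval (pt z (fun i => (z i)⁻¹) c x)
        (pderiv (Sum.inl (Sum.inr i)) (map σ D.poly)) =
      deriv (fun t => D.W.eval σ (Function.update z i t)) (z i) := by
  classical
  set cu : ℂ → Var N n → ℂ := fun t =>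
    pt (Function.update z i t) (fun l => (Function.update z i t l)⁻¹) c x with hcu
  set cu' : Var N n → ℂ := fun v => if v = Sum.inl (Sum.inl i) then 1 else
    if v = Sum.inl (Sum.inr i) then -((z i) ^ 2)⁻¹ else 0 with hcu'
  have h1 := hasDerivAt_curve (map σ D.poly) cu cu' (z i) (fun k => by
    rcases k with (k | k) | (_ | k)
    · by_cases hk : k = i
      · subst hk
        simp only [hcu, hcu', pt, Sum.elim_inl, Function.update_self, if_true]
        exact hasDerivAt_id _
      · have h2 : (Sum.inl (Sum.inl k) : Var N n) ≠ Sum.inl (Sum.inl i) := by simp [hk]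
        simp only [hcu, hcu', pt, Sum.elim_inl, Function.update_of_ne hk, if_neg h2]
        rw [if_neg (by simp)]
        exact hasDerivAt_const _ _
    · by_cases hk : k = i
      · subst hk
        simp only [hcu, hcu', pt, Sum.elim_inl, Sum.elim_inr, Function.update_self, if_true]
        rw [if_neg (by simp)]
        exact hasDerivAt_inv (h0 k)
      · have h2 : (Sum.inl (Sum.inr k) : Var N n) ≠ Sum.inl (Sum.inr i) := by simp [hk]
        simp only [hcu, hcu', pt, Sum.elim_inl, Sum.elim_inr, Function.update_of_ne hk,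
          if_neg h2]
        rw [if_neg (by simp)]
        exact hasDerivAt_const _ _
    · simp only [hcu, hcu', pt, Sum.elim_inr]
      rw [if_neg (by simp), if_neg (by simp)]
      exact hasDerivAt_const _ _
    · simp only [hcu, hcu', pt, Sum.elim_inr]
      rw [if_neg (by simp), if_neg (by simp)]
      exact hasDerivAt_const _ _)
  have h3 : cu (z i) = pt z (fun i => (z i)⁻¹) c x := by
    simp only [hcu, Function.update_eq_self]
  have h4 : (fun t => eval (cu t) (map σ D.poly)) =ᶠ[nhds (z i)]
      fun t => D.W.eval σ (Function.update z i t) := by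
    filter_upwards [isOpen_ne.mem_nhds (h0 i)] with t ht
    refine eval_pW D σ fun l => mul_inv_cancel₀ ?_
    by_cases hl : l = i
    · subst hl
      rw [Function.update_self]
      exact ht
    · rw [Function.update_of_ne hl]
      exact h0 l
  rw [h3] at h1
  have h5 := (h1.congr_of_eventuallyEq h4.symm).deriv
  rw [h5]
  have h6 : ∀ v, cu' v * eval (pt z (fun i => (z i)⁻¹) c x) (pderiv v (map σ D.poly)) =
      (if v = Sum.inl (Sum.inl i) then
        eval (pt z (fun i => (z i)⁻¹) c x) (pderiv v (map σ D.poly)) else 0) +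
      (if v = Sum.inl (Sum.inr i) then
        -((z i) ^ 2)⁻¹ * eval (pt z (fun i => (z i)⁻¹) c x) (pderiv v (map σ D.poly))
        else 0) := by
    intro v
    simp only [hcu']
    by_cases hv1 : v = Sum.inl (Sum.inl i)
    · subst hv1
      rw [if_pos rfl, if_pos rfl, if_neg (by simp), one_mul, add_zero]
    · by_cases hv2 : v = Sum.inl (Sum.inr i)
      · rw [if_neg hv1, if_pos hv2, if_neg hv1, if_pos hv2, zero_add]
      · rw [if_neg hv1, if_neg hv2, if_neg hv1, if_neg hv2, zero_mul, add_zero]
  simp only [h6, Finset.sum_add_distrib, Finset.sum_ite_eq', Finset.mem_univ, if_true]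
  ring

/-- the Lagrange function -/
noncomputable def lag : MvPolynomial (Var N n ⊕ (Fin (N + 1) ⊕ Fin 2)) ℂ :=
  rename Sum.inl (map σ (emb K D.Phi)) * X (Sum.inr (Sum.inr 0)) +
    ∑ i, X (Sum.inr (Sum.inl i)) * rename Sum.inl (zv ℂ i * zi ℂ i - 1) +
    X (Sum.inr (Sum.inr 1)) * (X (Sum.inr (Sum.inr 0)) * rename Sum.inl (map σ D.poly) - 1)

theorem exists_smooth : ∃ Λ : ℝ, 1 < Λ ∧ ∀ lam : K, Λ ≤ ‖σ lam‖ →
    ∀ (z : Fin (N + 1) → ℂ) (x : Fin (n + 1) → ℂ), (∀ i, z i ≠ 0) →
      D.W.eval σ z = σ lam * eval₂ σ x D.Phi → eval₂ σ x D.Phi ≠ 0 →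
      (∃ i, deriv (fun t => D.W.eval σ (Function.update z i t)) (z i) ≠ 0) ∨
      ∃ j, deriv (fun t => eval₂ σ (Function.update x j t) D.Phi) (x j) ≠ 0 := by
  classical
  obtain ⟨ε, hε, h⟩ := Pool.Agent.Y797.GC.exists_level (lag D σ)
  have hinv : 0 < 1 / ε := by positivity
  refine ⟨1 / ε + 2, by linarith, fun lam hlam z x hz heq hP => ?_⟩
  have hln : 0 < ‖σ lam‖ := by linarith
  have hl0 : σ lam ≠ 0 := norm_pos_iff.1 hln
  have hη : ‖(σ lam)⁻¹‖ < ε := by
    rw [norm_inv, inv_lt_comm₀ hln hε, ← one_div]
    linarith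
  by_contra hcon
  push Not at hcon
  obtain ⟨hc1, hc2⟩ := hcon
  set q : Var N n → ℂ := pt z (fun i => (z i)⁻¹) 0 x with hq
  have hzz : ∀ i, z i * (z i)⁻¹ = 1 := fun i => mul_inv_cancel₀ (hz i)
  have hW0 : D.W.eval σ z ≠ 0 := by
    rw [heq]
    exact mul_ne_zero hl0 hP
  set y : ℂ := (D.W.eval σ z)⁻¹ with hy
  set κ : ℂ := -(σ lam)⁻¹ with hκ
  set Dz : Fin (N + 1) → ℂ := fun i => eval q (pderiv (Sum.inl (Sum.inl i)) (map σ D.poly))
    with hDz
  set Dw : Fin (N + 1) → ℂ := fun i => eval q (pderiv (Sum.inl (Sum.inr i)) (map σ D.poly))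
    with hDw
  have hD : ∀ i, Dw i = (z i) ^ 2 * Dz i := by
    intro i
    have h1 := dW_inl D σ (c := 0) (x := x) hz i
    rw [hc1 i] at h1
    have h2 := hz i
    have h3 : Dz i - ((z i) ^ 2)⁻¹ * Dw i = 0 := h1
    field_simp at h3
    linear_combination -h3
  set μ : Fin (N + 1) → ℂ := fun i => -(κ * y * z i * Dz i) with hμ
  set Q : (Var N n ⊕ (Fin (N + 1) ⊕ Fin 2)) → ℂ := Sum.elim q (Sum.elim μ ![y, κ]) with hQ
  have hQ1 : ∀ p : MvPolynomial (Var N n) ℂ, eval Q (rename Sum.inl p) = eval q p := by
    intro p
    rw [eval_rename]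
    rfl
  have hQy : Q (Sum.inr (Sum.inr 0)) = y := rfl
  have hQk : Q (Sum.inr (Sum.inr 1)) = κ := rfl
  have hQm : ∀ i, Q (Sum.inr (Sum.inl i)) = μ i := fun i => rfl
  have hqz : ∀ i, eval q (zv ℂ i * zi ℂ i - 1) = 0 := by
    intro i
    unfold zv zi
    rw [map_sub, map_mul, eval_X, eval_X, map_one]
    show z i * (z i)⁻¹ - 1 = 0
    rw [hzz, sub_self]
  have hqW : eval q (map σ D.poly) = D.W.eval σ z := eval_pW D σ hzz
  have hqP : eval q (map σ (emb K D.Phi)) = eval₂ σ x D.Phi := eval_pP D σ _ _ _ _
  have hyW : y * D.W.eval σ z = 1 := inv_mul_cancel₀ hW0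
  have hval : eval Q (lag D σ) = (σ lam)⁻¹ := by
    unfold lag
    rw [map_add, map_add, map_mul, map_sum, map_mul, map_sub, map_mul, eval_X, eval_X, hQ1, hQ1,
      hqP, hqW, hQy, hQk, hyW, map_one, sub_self, mul_zero, add_zero,
      Finset.sum_eq_zero (fun i _ => ?_), add_zero]
    · rw [hy, heq, mul_inv]
      field_simp
    · rw [map_mul, hQ1, hqz, mul_zero]
  obtain ⟨v, hv⟩ := h _ (inv_ne_zero hl0) hη Q hval
  apply hv
  rcases v with v | (i | b)
  · -- the derivative with respect to the variables of the variety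
    have e1 : pderiv (Sum.inl v) (lag D σ) =
        rename Sum.inl (pderiv v (map σ (emb K D.Phi))) * X (Sum.inr (Sum.inr 0)) +
        ∑ i, X (Sum.inr (Sum.inl i)) * rename Sum.inl (pderiv v (zv ℂ i * zi ℂ i - 1)) +
        X (Sum.inr (Sum.inr 1)) * (X (Sum.inr (Sum.inr 0)) *
          rename Sum.inl (pderiv v (map σ D.poly))) := by
      unfold lag
      rw [map_add, map_add, map_sum, Derivation.leibniz, Derivation.leibniz, map_sub,
        Derivation.leibniz, pderiv_X_of_ne (by simp), pderiv_X_of_ne (by simp), Derivation.map_one_eq_zero]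
      simp only [smul_eq_mul, mul_zero, zero_add, sub_zero, add_zero,
        pderiv_rename Sum.inl_injective]
      congr 1
      congr 1
      · ring
      · refine Finset.sum_congr rfl fun i _ => ?_
        rw [Derivation.leibniz, pderiv_X_of_ne (by simp), pderiv_rename Sum.inl_injective]
        simp only [smul_eq_mul, mul_zero, add_zero]
    rw [e1]
    simp only [map_add, map_mul, map_sum, eval_X, hQ1, hQy, hQk, hQm]
    have e2 : ∀ i, eval q (pderiv v (zv ℂ i * zi ℂ i - 1)) =
        (if v = Sum.inl (Sum.inl i) then (z i)⁻¹ else 0) +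
        (if v = Sum.inl (Sum.inr i) then z i else 0) := by
      intro i
      unfold zv zi
      rw [map_sub, Derivation.leibniz, Derivation.map_one_eq_zero, sub_zero]
      simp only [smul_eq_mul, map_add, map_mul, eval_X, pderiv_X]
      have f1 : q (Sum.inl (Sum.inl i)) = z i := rfl
      have f2 : q (Sum.inl (Sum.inr i)) = (z i)⁻¹ := rfl
      rw [f1, f2]
      rcases v with (v | v) | v
      · by_cases hvi : v = i
        · subst hvi
          simp [Pi.single_apply]
        · simp [Pi.single_apply, hvi, Ne.symm hvi, eq_comm]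
      · by_cases hvi : v = i
        · subst hvi
          simp [Pi.single_apply]
        · simp [Pi.single_apply, hvi, Ne.symm hvi, eq_comm]
      · simp [Pi.single_apply]
    simp only [e2]
    rcases v with (i | i) | (_ | j)
    · rw [dP_inl]
      have g1 : eval q (pderiv (Sum.inl (Sum.inl i)) (map σ D.poly)) = Dz i := rfl
      rw [g1, Finset.sum_eq_single i]
      · rw [if_pos rfl, if_neg (by simp)]
        simp only [hμ]
        have := hz i
        field_simp
        ring
      · intro l _ hl
        rw [if_neg (by simp [Ne.symm hl]), if_neg (by simp)]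
        ring
      · intro h
        exact absurd (Finset.mem_univ _) h
    · rw [dP_inl]
      have g1 : eval q (pderiv (Sum.inl (Sum.inr i)) (map σ D.poly)) = Dw i := rfl
      rw [g1, Finset.sum_eq_single i]
      · rw [if_neg (by simp), if_pos rfl, hD]
        simp only [hμ]
        ring
      · intro l _ hl
        rw [if_neg (by simp), if_neg (by simp [Ne.symm hl])]
        ring
      · intro h
        exact absurd (Finset.mem_univ _) h
    · rw [dP_none, dW_inr D σ hzz none, Finset.sum_eq_zero]
      · ring
      · intro l _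
        rw [if_neg (by simp), if_neg (by simp)]
        ring
    · rw [dP_some, dW_inr D σ hzz (some j), hc2, Finset.sum_eq_zero]
      · ring
      · intro l _
        rw [if_neg (by simp), if_neg (by simp)]
        ring
  · -- the multipliers
    have e1 : pderiv (Sum.inr (Sum.inl i)) (lag D σ) = rename Sum.inl (zv ℂ i * zi ℂ i - 1) := by
      unfold lag
      rw [map_add, map_add, map_sum, Derivation.leibniz, Derivation.leibniz, map_sub,
        Derivation.leibniz, pderiv_X_of_ne (by simp), pderiv_X_of_ne (by simp),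
        Derivation.map_one_eq_zero, pderiv_inr, pderiv_inr, Finset.sum_eq_single i]
      · rw [Derivation.leibniz, pderiv_inr, pderiv_X_self]
        simp
      · intro l _ hl
        rw [Derivation.leibniz, pderiv_inr, pderiv_X_of_ne (by simp [hl])]
        simp
      · intro h
        exact absurd (Finset.mem_univ _) h
    rw [e1, hQ1, hqz]
  · fin_cases b
    · have e1 : pderiv (Sum.inr (Sum.inr 0)) (lag D σ) =
          rename Sum.inl (map σ (emb K D.Phi)) + X (Sum.inr (Sum.inr 1)) *
            rename Sum.inl (map σ D.poly) := by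
        unfold lag
        rw [map_add, map_add, map_sum, Derivation.leibniz, Derivation.leibniz, map_sub,
          Derivation.leibniz, pderiv_X_self, pderiv_X_of_ne (by simp),
          Derivation.map_one_eq_zero, pderiv_inr, pderiv_inr, Finset.sum_eq_zero]
        · simp
        · intro l _
          rw [Derivation.leibniz, pderiv_inr, pderiv_X_of_ne (by simp)]
          simp
      show eval Q (pderiv (Sum.inr (Sum.inr 0)) (lag D σ)) = 0
      rw [e1, map_add, map_mul, eval_X, hQ1, hQ1, hQk, hqP, hqW, heq]
      simp only [hκ]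
      field_simp
      ring
    · have e1 : pderiv (Sum.inr (Sum.inr 1)) (lag D σ) =
          X (Sum.inr (Sum.inr 0)) * rename Sum.inl (map σ D.poly) - 1 := by
        unfold lag
        rw [map_add, map_add, map_sum, Derivation.leibniz, Derivation.leibniz, map_sub,
          Derivation.leibniz, pderiv_X_self, pderiv_X_of_ne (by simp),
          Derivation.map_one_eq_zero, pderiv_inr, pderiv_inr, Finset.sum_eq_zero]
        · simp
        · intro l _
          rw [Derivation.leibniz, pderiv_inr, pderiv_X_of_ne (by simp)]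
          simp
      show eval Q (pderiv (Sum.inr (Sum.inr 1)) (lag D σ)) = 0
      rw [e1, map_sub, map_mul, eval_X, hQ1, hQy, hqW, hyW, map_one, sub_self]

end smooth

end Pool.Agent.E8helper18.LF
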