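import Pool.Agent.E8helper18.LF.Ev
import Pool.Agent.E8helper18.LF.Fan
import Pool.Agent.E8helper18.LF.Pts
import Pool.Agent.Y797.TW.Tor
set_option autoImplicit false

/-!
The tori near the corners, and the regulators of the symbols on them.
-/

namespace Pool.Agent.E8helper18.LF

open Pool.Agent.TH826.MK

open Pool.Agent.TH577.UA (mmon mrow yrow det_yrow)

open Pool.Agent.TH826.SX (pairing_close)

open Pool.Agent.Y797.TW (Tower wcc prod_wcc contDiff_wcc wcc_zero fct exists_chart nex ex mch hh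
  exists_rapid eval_mch hh_zero contDiff_hh sum_nex det_ex IsLow)

open MvPolynomial

section blocks

variable {p q : ℕ}

theorem det_append (A : Matrix (Fin p) (Fin p) ℝ) (B : Matrix (Fin q) (Fin q) ℝ) :
    (Matrix.of (Fin.append (fun i => Fin.append (A i) (fun _ => 0))
      (fun j => Fin.append (fun _ => 0) (B j))) : Matrix (Fin (p + q)) (Fin (p + q)) ℝ).det =
      A.det * B.det := by
  rw [← Matrix.det_submatrix_equiv_self (finSumFinEquiv (m := p) (n := q))]
  have e : (Matrix.of (Fin.append (fun i => Fin.append (A i) (fun _ => 0))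
      (fun j => Fin.append (fun _ => 0) (B j))) :
        Matrix (Fin (p + q)) (Fin (p + q)) ℝ).submatrix finSumFinEquiv finSumFinEquiv =
      Matrix.fromBlocks A 0 0 B := by
    ext i j
    rcases i with i | i <;> rcases j with j | j <;> simp
  rw [e, Matrix.det_fromBlocks_zero₂₁]

end blocks

section coord

variable {N n : ℕ}

/-- the coordinates of the first kind -/
def wz (u : (Fin (N + 1 + n) → ℂ) × ℂ) (l : Fin (N + 1)) : ℂ :=
  wcc (n := N + 1 + n) u (Fin.castAdd (n + 1) l)

/-- the coordinates of the second kind -/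
def ws (u : (Fin (N + 1 + n) → ℂ) × ℂ) (j : Fin (n + 1)) : ℂ :=
  wcc (n := N + 1 + n) u (Fin.natAdd (N + 1) j)

theorem contDiff_wz : ContDiff ℂ 2 (wz (N := N) (n := n)) :=
  contDiff_pi.2 fun l => contDiff_pi.1 (contDiff_wcc (n := N + 1 + n)) (Fin.castAdd (n + 1) l)

theorem contDiff_ws : ContDiff ℂ 2 (ws (N := N) (n := n)) :=
  contDiff_pi.2 fun l => contDiff_pi.1 (contDiff_wcc (n := N + 1 + n)) (Fin.natAdd (N + 1) l)

theorem wz_zero : wz (0 : (Fin (N + 1 + n) → ℂ) × ℂ) = 0 := by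
  funext l
  unfold wz
  rw [wcc_zero]
  rfl

theorem ws_zero : ws (0 : (Fin (N + 1 + n) → ℂ) × ℂ) = 0 := by
  funext l
  unfold ws
  rw [wcc_zero]
  rfl

/-- exponents of both kinds -/
def mm (μ : Fin (N + 1) → ℕ) (ν : Fin (n + 1) → ℕ) : Fin (N + 1 + n + 1) → ℕ :=
  (Fin.append μ ν : Fin (N + 1 + (n + 1)) → ℕ)

theorem mmon_mm (μ : Fin (N + 1) → ℕ) (ν : Fin (n + 1) → ℕ) (u : (Fin (N + 1 + n) → ℂ) × ℂ) :
    mmon (mm μ ν) u = (∏ l, wz u l ^ μ l) * ∏ j, ws u j ^ ν j := by
  rw [← prod_wcc]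
  have h := Fin.prod_univ_add (a := N + 1) (b := n + 1) (M := ℂ) fun l =>
    wcc (n := N + 1 + n) u l ^ (Fin.append μ ν : Fin (N + 1 + (n + 1)) → ℕ) l
  refine Eq.trans h ?_
  congr 1
  · refine Finset.prod_congr rfl fun l _ => ?_
    rw [Fin.append_left]
    rfl
  · refine Finset.prod_congr rfl fun l _ => ?_
    rw [Fin.append_right]
    rfl

end coord

section det

variable {N n : ℕ} {r : Fin (n + 1) → ℕ}

/-- the determinant of the orders of the functions of the tower -/
theorem det_tower (m : Fin (n + 1) → ℕ)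
    (al : Option ((j : Fin (n + 1)) × Fin (r j + 1)) → Fin (n + 1) →₀ ℕ)
    (c : ∀ j, Fin (r j + 1)) (h1 : ∀ j, al (some ⟨j, c j⟩) = Finsupp.single j 1)
    (h2 : ∀ j i, i ≠ c j → ∀ l, l ≤ j → al (some ⟨j, i⟩) l = 0) (k : ∀ j, Fin (r j + 1)) :
    (Matrix.of fun l j => ((nex m (fun i => al (some ⟨l, k l⟩) i) j : ℕ) : ℝ)).det =
      if k = c then 1 else 0 := by
  have h : (Matrix.of fun l j => ((nex m (fun i => al (some ⟨l, k l⟩) i) j : ℕ) : ℝ)) =
      (Matrix.of fun l i => ((al (some ⟨l, k l⟩) i : ℕ) : ℝ)) *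
      (Matrix.of fun j l => ((ex m j l : ℕ) : ℝ)) := by
    ext l j
    rw [Matrix.mul_apply]
    simp only [Matrix.of_apply]
    rw [sum_nex]
  rw [h, Matrix.det_mul, det_ex, mul_one, Matrix.det_of_isUpperTriangular]
  · by_cases hk : k = c
    · subst hk
      rw [if_pos rfl]
      refine Finset.prod_eq_one fun l _ => ?_
      rw [Matrix.of_apply, h1, Finsupp.single_eq_same]
      norm_num
    · rw [if_neg hk]
      obtain ⟨l, hl⟩ := Function.ne_iff.1 hk
      refine Finset.prod_eq_zero (Finset.mem_univ l) ?_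
      rw [Matrix.of_apply, h2 l (k l) hl l le_rfl, Nat.cast_zero]
  · intro l j hlj
    have hlj' : j < l := hlj
    rw [Matrix.of_apply]
    by_cases hk : k l = c l
    · rw [hk, h1, Finsupp.single_eq_of_ne hlj'.ne, Nat.cast_zero]
    · rw [h2 l (k l) hk j hlj'.le, Nat.cast_zero]

end det

section W

variable {K : Type*} [Field K] {N : ℕ} (W : Laurent K N) (U : Fin (N + 1) → Fin (N + 1) → ℤ)
  (w : ∀ a, Fin (W.s a + 1)) (σ : K →+* ℂ)

/-- the exponents of the monomials of a factor, divided by the largest one -/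
def eE (a : Fin W.A) (j : Fin (W.s a + 1)) (l : Fin (N + 1)) : ℕ :=
  (∑ i, U l i * (W.ex a (w a) i - W.ex a j i)).toNat

/-- the factors, divided by their largest monomials -/
noncomputable def Qa (a : Fin W.A) (y : Fin (N + 1) → ℂ) : ℂ :=
  ∑ j, σ (W.co a j) * ∏ l, y l ^ eE W U w a j l

theorem contDiff_Qa (a : Fin W.A) : ContDiff ℂ 2 (Qa W U w σ a) := by
  unfold Qa
  refine ContDiff.sum fun j _ => contDiff_const.mul ?_
  exact contDiff_prod fun l _ => (contDiff_apply ℂ ℂ l).pow _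

theorem Qa_zero (h : ∀ a j, j ≠ w a → ∀ l, 1 ≤ ∑ i, U l i * (W.ex a (w a) i - W.ex a j i))
    (a : Fin W.A) : Qa W U w σ a 0 = σ (W.co a (w a)) := by
  unfold Qa
  rw [Finset.sum_eq_single (w a)]
  · have e : ∀ l, eE W U w a (w a) l = 0 := by
      intro l
      unfold eE
      simp
    simp only [e, pow_zero, Finset.prod_const_one, mul_one]
  · intro j _ hj
    rw [Finset.prod_eq_zero (Finset.mem_univ 0), mul_zero]
    rw [Pi.zero_apply]
    refine zero_pow ?_
    have h1 := h a j hj 0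
    unfold eE
    omega
  · intro h1
    exact absurd (Finset.mem_univ _) h1

/-- `z_i` in the coordinates `y_l` -/
noncomputable def zz (y : Fin (N + 1) → ℂ) (i : Fin (N + 1)) : ℂ := ∏ l, y l ^ (-U l i)

theorem prod_zz {y : Fin (N + 1) → ℂ} (hy : ∀ l, y l ≠ 0) (e : Fin (N + 1) → ℤ) :
    ∏ i, zz U y i ^ e i = ∏ l, y l ^ (-∑ i, U l i * e i) := by
  unfold zz
  have h1 : ∀ i, (∏ l, y l ^ (-U l i)) ^ e i = ∏ l, y l ^ (-(U l i * e i)) := by
    intro i
    rw [← Finset.prod_zpow]
    refine Finset.prod_congr rfl fun l _ => ?_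
    rw [← zpow_mul, neg_mul]
  simp only [h1]
  rw [Finset.prod_comm]
  refine Finset.prod_congr rfl fun l _ => ?_
  rw [← Finset.sum_neg_distrib]
  have h2 : ∀ s : Finset (Fin (N + 1)), ∏ i ∈ s, y l ^ (-(U l i * e i)) =
      y l ^ (∑ i ∈ s, -(U l i * e i)) := by
    classical
    intro s
    induction s using Finset.induction_on with
    | empty => simp
    | insert i s hi ih =>
      rw [Finset.prod_insert hi, Finset.sum_insert hi, zpow_add₀ (hy l), ih]
  exact h2 _

theorem eval_zz (h : ∀ a j, j ≠ w a → ∀ l, 1 ≤ ∑ i, U l i * (W.ex a (w a) i - W.ex a j i))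
    {y : Fin (N + 1) → ℂ} (hy : ∀ l, y l ≠ 0) :
    W.eval σ (zz U y) = (∏ l, y l ^ (-∑ i, U l i * (W.m0 i + ∑ a, W.ex a (w a) i))) *
      ∏ a, Qa W U w σ a y := by
  unfold Laurent.eval
  rw [prod_zz U hy]
  have h1 : ∀ a, ∑ j, σ (W.co a j) * ∏ i, zz U y i ^ W.ex a j i =
      (∏ l, y l ^ (-∑ i, U l i * W.ex a (w a) i)) * Qa W U w σ a y := by
    intro a
    unfold Qa
    rw [Finset.mul_sum]
    refine Finset.sum_congr rfl fun j _ => ?_
    rw [prod_zz U hy, mul_left_comm, ← Finset.prod_mul_distrib]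
    congr 1
    refine Finset.prod_congr rfl fun l _ => ?_
    have h2 : (eE W U w a j l : ℤ) = ∑ i, U l i * (W.ex a (w a) i - W.ex a j i) := by
      unfold eE
      refine Int.toNat_of_nonneg ?_
      by_cases hj : j = w a
      · rw [hj]
        simp
      · exact le_trans zero_le_one (h a j hj l)
    rw [← zpow_natCast, h2, ← zpow_add₀ (hy l)]
    congr 1
    simp only [mul_sub, Finset.sum_sub_distrib]
    ring
  simp only [h1]
  rw [Finset.prod_mul_distrib, ← mul_assoc, Finset.prod_comm, ← Finset.prod_mul_distrib]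
  congr 1
  refine Finset.prod_congr rfl fun l _ => ?_
  have h3 : ∀ s : Finset (Fin W.A), ∏ a ∈ s, y l ^ (-∑ i, U l i * W.ex a (w a) i) =
      y l ^ (∑ a ∈ s, -∑ i, U l i * W.ex a (w a) i) := by
    classical
    intro s
    induction s using Finset.induction_on with
    | empty => simp
    | insert i s hi ih =>
      rw [Finset.prod_insert hi, Finset.sum_insert hi, zpow_add₀ (hy l), ih]
  rw [h3, ← zpow_add₀ (hy l)]
  congr 1
  simp only [mul_add, Finset.sum_add_distrib, Finset.mul_sum, Finset.sum_neg_distrib, neg_add]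
  rw [Finset.sum_comm]

end W

end Pool.Agent.E8helper18.LF
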