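import Pool.Agent.E8helper18.LF.Fib
set_option autoImplicit false

/-!
The admissible combinations of the symbols are unramified.
-/

namespace Pool.Agent.E8helper18.LF

open scoped WithZero

open Pool.Agent.TH826.MK

open Pool.Agent.TH826.EF (onePart onePart_le)

open Pool.Agent.TH690.SF (mem_onePart_of_comp)

open Pool.Agent.Y797.GC (sum_mem_of_class val_div_sub_one val_pow_sub)

open Pool.Agent.Y797.TW (Tower val_le_one)

open MvPolynomial

section val

variable {K L : Type*} [Field K] [Field L] {ι : Type*} (v : Valuation L ℤᵐ⁰)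

theorem val_prod_sub {x y : ι → L} (hx : ∀ l, v (x l) ≤ 1) (hy : ∀ l, v (y l) ≤ 1) {γ : ℤᵐ⁰}
    (h : ∀ l, v (x l - y l) ≤ γ) (s : Finset ι) (m : ι → ℕ) :
    v (∏ l ∈ s, x l ^ m l - ∏ l ∈ s, y l ^ m l) ≤ γ := by
  classical
  induction s using Finset.induction_on with
  | empty => simp
  | insert i s hi ih =>
    rw [Finset.prod_insert hi, Finset.prod_insert hi]
    have e : x i ^ m i * ∏ l ∈ s, x l ^ m l - y i ^ m i * ∏ l ∈ s, y l ^ m l =
        x i ^ m i * (∏ l ∈ s, x l ^ m l - ∏ l ∈ s, y l ^ m l) +
          (x i ^ m i - y i ^ m i) * ∏ l ∈ s, y l ^ m l := by ring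
    rw [e]
    refine (v.map_add _ _).trans (max_le ?_ ?_)
    · rw [map_mul, map_pow]
      exact (mul_le_mul' (pow_le_one' (hx i) _) ih).trans_eq (one_mul _)
    · rw [map_mul, map_prod]
      refine (mul_le_mul' ((val_pow_sub v (hx i) (hy i) _).trans (h i))
        (Finset.prod_le_one' fun l _ => ?_)).trans_eq (mul_one _)
      rw [map_pow]
      exact pow_le_one' (hy l) _

/-- congruent points have congruent values -/
theorem val_sub_le (G G' : MvPolynomial ι K →+* L) (hC : ∀ a, G (C a) = G' (C a))
    (hx : ∀ l, v (G (X l)) ≤ 1) (hy : ∀ l, v (G' (X l)) ≤ 1) {γ : ℤᵐ⁰}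
    (h : ∀ l, v (G (X l) - G' (X l)) ≤ γ) {p : MvPolynomial ι K}
    (hp : ∀ m, IsIntegral ℤ (p.coeff m)) : v (G p - G' p) ≤ γ := by
  classical
  rw [p.as_sum, map_sum, map_sum, ← Finset.sum_sub_distrib]
  refine Valuation.map_sum_le _ fun m _ => ?_
  rw [MvPolynomial.monomial_eq, map_mul, map_mul, ← hC, ← mul_sub, map_mul]
  unfold Finsupp.prod
  rw [map_prod, map_prod]
  simp only [map_pow]
  refine (mul_le_mul' ?_ (val_prod_sub v hx hy h m.support m)).trans_eq (one_mul _)
  exact val_le_one_of_integral v
    (map_isIntegral_int (G.comp (C : K →+* MvPolynomial ι K)) (hp m))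

end val

section comb

variable {K : Type*} [Field K] {N n : ℕ} {D : Dat K N n} {lam : K} {L : Type*} [Field L]
  (f : D.CRing lam →+* L) (v : Valuation L ℤᵐ⁰)

/-- the entries in `L` -/
noncomputable def eF (k : D.Ix) : Fin (N + 1 + (n + 1)) → Lˣ :=
  Fin.append (tF f) fun j => bF f j (k j)

theorem map_cl (m : D.Ix → ℚ) :
    KQ.map (N + 1 + (n + 1)) f (D.cl lam m) = ∑ k, m k • symb (eF f k) := by
  unfold Dat.cl Dat.sy
  rw [map_sum]
  refine Finset.sum_congr rfl fun k _ => ?_
  rw [map_smul, KQ.map_symb]
  congr 2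
  funext l
  unfold eF Dat.ent
  refine Fin.addCases (fun i => ?_) (fun j => ?_) l
  · rw [Fin.append_left, Fin.append_left]
    rfl
  · rw [Fin.append_right, Fin.append_right]
    rfl

/-- Symbols whose entries of the second kind are equal or congruent are congruent. -/
theorem symb_eF_sub (k k' : D.Ix)
    (h : ∀ j, k j = k' j ∨ v ((bF f j (k j) : L) - bF f j (k' j)) < v (bF f j (k' j) : L)) :
    symb (eF f k) - symb (eF f k') ∈ onePart v (N + 1 + (n + 1)) := by
  refine symb_sub_mem v _ _ fun l => ?_
  unfold eF
  refine Fin.addCases (fun i => ?_) (fun j => ?_) l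
  · rw [Fin.append_left, Fin.append_left, div_self']
    simp
  · rw [Fin.append_right, Fin.append_right]
    rcases h j with h1 | h1
    · rw [h1, div_self']
      simp
    · rw [Units.val_div_eq_div_val]
      exact val_div_sub_one v (bF f j (k' j)).ne_zero h1

variable (hG : D.B.Graphs) (hB : D.B.Integral)

include hG hB

/-- The case of a pole of one of the `x_j`. -/
theorem sum_mem_of_pole (h : ∃ j, 1 < v (GF f (X j))) {m : D.Ix → ℚ} (hm : m ∈ D.Adm) :
    ∑ k, m k • symb (eF f k) ∈ unitPart v (N + 1 + (n + 1)) := by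
  classical
  have hne : (Finset.univ.filter fun j : Fin (n + 1) => 1 < v (GF f (X j))).Nonempty := by
    obtain ⟨j, hj⟩ := h
    exact ⟨j, Finset.mem_filter.2 ⟨Finset.mem_univ _, hj⟩⟩
  set j := (Finset.univ.filter fun j : Fin (n + 1) => 1 < v (GF f (X j))).max' hne with hjdef
  have hj : 1 < v (GF f (X j)) := (Finset.mem_filter.1 (Finset.max'_mem _ hne)).2
  have hlt : ∀ l, j < l → v (GF f (X l)) ≤ 1 := by
    intro l hl
    by_contra hcon
    refine absurd (Finset.le_max' _ l (Finset.mem_filter.2 ⟨Finset.mem_univ _, ?_⟩))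
      (not_le.2 hl)
    exact not_le.1 hcon
  have hphi : ∀ i, v (GF f (D.B.phi j i)) ≤ 1 := fun i =>
    val_le_one (GF f) v (hB.1 j i) fun l hl => hlt l (hG.1 j i l hl)
  have hbv : ∀ i, v (bF f j i : L) = v (GF f (X j)) := fun i => by
    rw [coe_bF']
    exact Valuation.map_sub_eq_of_lt_left v ((hphi i).trans_lt hj)
  refine sum_mem_of_class _ (fun k : D.Ix => Function.update k j 0) _ _ (fun k k' hkk => ?_)
    fun a => ?_
  · refine onePart_le v (symb_eF_sub f v k k' fun l => ?_)
    by_cases hl : l = j
    · right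
      subst hl
      rw [hbv, coe_bF', coe_bF']
      have e : GF f (X j) - GF f (D.B.phi j (k j)) - (GF f (X j) - GF f (D.B.phi j (k' j))) =
        GF f (D.B.phi j (k' j)) - GF f (D.B.phi j (k j)) := by ring
      rw [e]
      exact ((v.map_sub _ _).trans (max_le (hphi _) (hphi _))).trans_lt hj
    · left
      have h1 := congrFun hkk l
      simpa only [Function.update_of_ne hl] using h1
  · by_cases ha : a j = 0
    · rw [← hm.1 j a]
      refine Finset.sum_bij (fun k _ => k j) (fun k _ => Finset.mem_univ _) ?_ ?_ ?_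
      · intro k hk k' hk' e
        have h1 := (Finset.mem_filter.1 hk).2
        have h2 := (Finset.mem_filter.1 hk').2
        funext l
        by_cases hl : l = j
        · subst hl
          exact e
        · have h3 := congrFun (h1.trans h2.symm) l
          simpa only [Function.update_of_ne hl] using h3
      · intro i _
        refine ⟨Function.update a j i, Finset.mem_filter.2 ⟨Finset.mem_univ _, ?_⟩, by simp⟩
        rw [Function.update_idem]
        rw [← ha, Function.update_eq_self]
      · intro k hk
        have h1 := (Finset.mem_filter.1 hk).2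
        congr 1
        rw [← h1, Function.update_idem, Function.update_eq_self]
    · refine Finset.sum_eq_zero fun k hk => ?_
      exfalso
      apply ha
      rw [← (Finset.mem_filter.1 hk).2, Function.update_self]

variable (hx : ∀ j, v (GF f (X j)) ≤ 1)

include hx

theorem val_GF_le {p : MvPolynomial (Fin (n + 1)) K} (hp : ∀ m, IsIntegral ℤ (p.coeff m)) :
    v (GF f p) ≤ 1 :=
  val_le_one (GF f) v hp fun l _ => hx l

theorem val_bF_le (j : Fin (n + 1)) (i : Fin (D.B.r j + 1)) : v (bF f j i : L) ≤ 1 := by
  rw [coe_bF']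
  exact (v.map_sub _ _).trans (max_le (hx j) (val_GF_le f v hG hB hx (hB.1 j i)))

/-- restriction to a graph that contains the point modulo the maximal ideal -/
theorem val_res (j : Fin (n + 1)) (i : Fin (D.B.r j + 1)) {p : MvPolynomial (Fin (n + 1)) K}
    (hp : ∀ m, IsIntegral ℤ (p.coeff m)) :
    v (GF f p - GF f (D.res j i p)) ≤ v (bF f j i : L) := by
  classical
  set G' : MvPolynomial (Fin (n + 1)) K →+* L := (GF f).comp (D.res j i).toRingHom with hG'
  have hX : ∀ l, G' (X l) = GF f (Function.update X j (D.B.phi j i) l) := by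
    intro l
    rw [hG', RingHom.comp_apply]
    congr 1
    exact bind₁_X_right _ _
  refine val_sub_le v (GF f) G' (fun a => ?_) hx (fun l => ?_) (fun l => ?_) hp
  · rw [hG', RingHom.comp_apply]
    congr 1
    exact (bind₁_C_right _ _).symm
  · rw [hX]
    by_cases hl : l = j
    · subst hl
      rw [Function.update_self]
      exact val_GF_le f v hG hB hx (hB.1 l i)
    · rw [Function.update_of_ne hl]
      exact hx l
  · rw [hX]
    by_cases hl : l = j
    · subst hl
      rw [Function.update_self, ← coe_bF']
    · rw [Function.update_of_ne hl, sub_self, map_zero]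
      exact zero_le'

/-- the case of integral `x_j` and of units `z_i` -/
theorem sum_mem_of_units (ht : ∀ i, v (tF f i : L) = 1)
    (hb : ∀ j i, D.nu j i ≠ 0 → v (bF f j i : L) = 1) {m : D.Ix → ℚ} (hm : m ∈ D.Adm) :
    ∑ k, m k • symb (eF f k) ∈ unitPart v (N + 1 + (n + 1)) := by
  classical
  -- the smallest level with a nonunit
  set Q : D.Ix → Prop := fun k => ∀ j, v (bF f j (k j) : L) = 1 with hQ
  set P : Fin (n + 1) → D.Ix → Prop := fun j k =>
    v (bF f j (k j) : L) < 1 ∧ ∀ l, l < j → v (bF f l (k l) : L) = 1 with hP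
  have hsplit : ∀ k, m k • symb (eF f k) = (if Q k then m k • symb (eF f k) else 0) +
      ∑ j, (if P j k then m k • symb (eF f k) else 0) := by
    intro k
    by_cases hQk : Q k
    · rw [if_pos hQk, Finset.sum_eq_zero, add_zero]
      intro j _
      rw [if_neg]
      intro h1
      exact absurd (hQk j) h1.1.ne
    · rw [if_neg hQk, zero_add]
      have hne : (Finset.univ.filter fun j : Fin (n + 1) =>
          v (bF f j (k j) : L) < 1).Nonempty := by
        simp only [hQ] at hQk
        push Not at hQk
        obtain ⟨j, hj⟩ := hQk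
        exact ⟨j, Finset.mem_filter.2 ⟨Finset.mem_univ _,
          lt_of_le_of_ne (val_bF_le f v hG hB hx _ _) hj⟩⟩
      set j := (Finset.univ.filter fun j : Fin (n + 1) =>
          v (bF f j (k j) : L) < 1).min' hne with hjdef
      have hj : v (bF f j (k j) : L) < 1 := (Finset.mem_filter.1 (Finset.min'_mem _ hne)).2
      have hjl : ∀ l, l < j → v (bF f l (k l) : L) = 1 := by
        intro l hl
        by_contra hcon
        refine absurd (Finset.min'_le _ l (Finset.mem_filter.2 ⟨Finset.mem_univ _, ?_⟩))
          (not_le.2 hl)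
        exact lt_of_le_of_ne (val_bF_le f v hG hB hx _ _) hcon
      have hPj : P j k := ⟨hj, hjl⟩
      rw [Finset.sum_eq_single j, if_pos hPj]
      · intro j' _ hj'
        rw [if_neg]
        rintro ⟨h1, h2⟩
        rcases lt_or_gt_of_ne hj' with h3 | h3
        · exact absurd (hjl j' h3) h1.ne
        · exact absurd (h2 j h3) hj.ne
      · intro h1
        exact absurd (Finset.mem_univ _) h1
  rw [Finset.sum_congr rfl fun k _ => hsplit k, Finset.sum_add_distrib, Finset.sum_comm]
  refine Submodule.add_mem _ (Submodule.sum_mem _ fun k _ => ?_)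
    (Submodule.sum_mem _ fun j _ => ?_)
  · by_cases hQk : Q k
    · rw [if_pos hQk]
      refine Submodule.smul_mem _ _ (Submodule.subset_span ⟨_, fun l => ?_, rfl⟩)
      unfold eF
      refine Fin.addCases (fun i => ?_) (fun j => ?_) l
      · rw [Fin.append_left]
        exact ht i
      · rw [Fin.append_right]
        exact hQk j
    · rw [if_neg hQk]
      exact Submodule.zero_mem _
  · -- the classes
    set κ : D.Ix → Fin (D.B.r j + 1) × D.Ix × (Fin (n + 1) → MvPolynomial (Fin (n + 1)) K) :=
      fun k => (k j, (fun l => if j < l then k l else 0),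
        fun l => if l < j then D.res j (k j) (D.B.phi l (k l)) else 0) with hκ
    have hsame : ∀ k k', κ k' = κ k ↔ D.Same j k k' := by
      intro k k'
      simp only [hκ, Prod.mk.injEq]
      unfold Dat.Same
      constructor
      · rintro ⟨h1, h2, h3⟩
        refine ⟨h1, fun l hl => ?_, fun l hl => ?_⟩
        · have h4 := congrFun h2 l
          simpa only [if_pos hl] using h4
        · have h4 := congrFun h3 l
          simp only [if_pos hl] at h4
          rw [h1] at h4
          exact h4
      · rintro ⟨h1, h2, h3⟩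
        refine ⟨h1, funext fun l => ?_, funext fun l => ?_⟩
        · by_cases hl : j < l
          · rw [if_pos hl, if_pos hl, h2 l hl]
          · rw [if_neg hl, if_neg hl]
        · by_cases hl : l < j
          · rw [if_pos hl, if_pos hl, h1]
            exact h3 l hl
          · rw [if_neg hl, if_neg hl]
    -- congruences in a class
    have hcong : ∀ k k', κ k' = κ k → v (bF f j (k j) : L) < 1 → ∀ l, l < j →
        v ((bF f l (k l) : L) - bF f l (k' l)) < 1 := by
      intro k k' hkk hk l hl
      have h1 : D.res j (k j) (D.B.phi l (k' l)) = D.res j (k j) (D.B.phi l (k l)) :=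
        ((hsame k k').1 hkk).2.2 l hl
      have h2 := val_res f v hG hB hx j (k j) (hB.1 l (k l))
      have h3 := val_res f v hG hB hx j (k j) (hB.1 l (k' l))
      rw [h1] at h3
      have e : (bF f l (k l) : L) - bF f l (k' l) =
          (GF f (D.B.phi l (k' l)) - GF f (D.res j (k j) (D.B.phi l (k l)))) -
          (GF f (D.B.phi l (k l)) - GF f (D.res j (k j) (D.B.phi l (k l)))) := by
        rw [coe_bF', coe_bF']
        ring
      rw [e]
      exact (v.map_sub _ _).trans_lt (max_lt (h3.trans_lt hk) (h2.trans_lt hk))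
    have hPP : ∀ k k', κ k' = κ k → P j k → P j k' := by
      intro k k' hkk hk
      obtain ⟨h1, h2, h3⟩ := (hsame k k').1 hkk
      refine ⟨by rw [h1]; exact hk.1, fun l hl => ?_⟩
      have h4 := hcong k k' hkk hk.1 l hl
      have h5 := hk.2 l hl
      have e : (bF f l (k' l) : L) = bF f l (k l) - ((bF f l (k l) : L) - bF f l (k' l)) := by
        ring
      rw [e, Valuation.map_sub_eq_of_lt_left v (by rwa [h5]), h5]
    have heq : ∀ k, (if P j k then m k • symb (eF f k) else 0) =
        (if P j k then m k else 0) • (if P j k then symb (eF f k) else 0) := by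
      intro k
      by_cases hk : P j k
      · simp only [if_pos hk]
      · simp only [if_neg hk, smul_zero]
    simp only [heq]
    refine sum_mem_of_class _ κ _ _ (fun k k' hkk => ?_) fun a => ?_
    · by_cases hk : P j k
      · have hk' : P j k' := hPP k k' hkk.symm hk
        rw [if_pos hk, if_pos hk']
        refine onePart_le v (symb_eF_sub f v k k' fun l => ?_)
        obtain ⟨h1, h2, h3⟩ := (hsame k k').1 hkk.symm
        rcases lt_trichotomy l j with hl | hl | hl
        · right
          rw [hk'.2 l hl]
          exact hcong k k' hkk.symm hk.1 l hl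
        · left
          subst hl
          exact h1.symm
        · left
          exact (h2 l hl).symm
      · have hk' : ¬ P j k' := fun h => hk (hPP k' k hkk h)
        rw [if_neg hk, if_neg hk', sub_zero]
        exact Submodule.zero_mem _
    · by_cases hex : ∃ k, κ k = a ∧ P j k
      · obtain ⟨k, rfl, hk⟩ := hex
        have hnu : D.nu j (k j) = 0 := by
          by_contra hne
          exact absurd (hb j (k j) hne) hk.1.ne
        have h1 := hm.2 j k hnu
        rw [← h1]
        refine (Finset.sum_congr ?_ fun k' hk' => ?_)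
        · ext k'
          rw [Finset.mem_filter, Finset.mem_filter, hsame]
        · have h2 := (Finset.mem_filter.1 hk').2
          rw [if_pos (hPP k k' ((hsame k k').2 h2) hk)]
      · refine Finset.sum_eq_zero fun k hk => ?_
        rw [if_neg]
        intro h1
        exact hex ⟨k, (Finset.mem_filter.1 hk).2, h1⟩

end comb

section main

variable {K : Type*} [Field K] {N n : ℕ} {D : Dat K N n} {lam : K} {L : Type*} [Field L]
  (f : D.CRing lam →+* L)

theorem cl_mem_unitPart (hC : D.W.Cyclotomic) (hS : D.W.Simplices) (hI : D.W.Interior)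
    (hG : D.B.Graphs) (hB : D.B.Integral) (hlam : IsIntegral ℤ lam) {m : D.Ix → ℚ}
    (hm : m ∈ D.Adm) (v : Valuation L ℤᵐ⁰) :
    KQ.map (N + 1 + (n + 1)) f (D.cl lam m) ∈ unitPart v (N + 1 + (n + 1)) := by
  classical
  rw [map_cl]
  by_cases hp : ∃ j, 1 < v (GF f (X j))
  · exact sum_mem_of_pole f v hG hB hp hm
  · push Not at hp
    have hlam' : v (cF f lam) ≤ 1 :=
      val_le_one_of_integral v (map_isIntegral_int (cF f) hlam)
    have hg : v (GF f D.B.g) ≤ 1 := val_GF_le f v hG hB hp hB.2
    have hbl : ∀ j i, v (bF f j i : L) ≤ 1 := fun j i => val_bF_le f v hG hB hp j i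
    have hPhi : cF f lam * GF f D.Phi =
        cF f lam * (GF f D.B.g * ∏ j, ∏ i, (bF f j i : L) ^ D.nu j i) := by
      unfold Dat.Phi
      simp only [map_mul, map_prod, map_pow]
      rfl
    have hprod : ∀ j, v (∏ i, (bF f j i : L) ^ D.nu j i) ≤ 1 := by
      intro j
      rw [map_prod]
      refine Finset.prod_le_one' fun i _ => ?_
      rw [map_pow]
      exact pow_le_one' (hbl j i) _
    have hle : v (cF f lam * GF f D.Phi) ≤ 1 := by
      rw [hPhi, map_mul, map_mul, map_prod]
      exact mul_le_one' hlam' (mul_le_one' hg (Finset.prod_le_one' fun j _ => hprod j))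
    rcases block_cases f v hC hS hI hle with h1 | ⟨h1, h2⟩
    · refine Submodule.sum_mem _ fun k _ => Submodule.smul_mem _ _ (onePart_le v ?_)
      refine mem_onePart_of_comp v (eF f k) (Fin.castAdd_injective (N + 1) (n + 1)) ?_
      have e : (fun l => eF f k (Fin.castAdd (n + 1) l)) = tF f := by
        funext l
        unfold eF
        rw [Fin.append_left]
      rw [e]
      exact h1
    · refine sum_mem_of_units f v hG hB hp h2 (fun j i hnu => ?_) hm
      refine le_antisymm (hbl j i) ?_
      have h3 : v (bF f j i : L) ^ D.nu j i ≤ v (bF f j i : L) := by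
        obtain ⟨k, hk⟩ := Nat.exists_eq_succ_of_ne_zero hnu
        rw [hk, pow_succ]
        exact (mul_le_mul' (pow_le_one' (hbl j i) _) le_rfl).trans_eq (one_mul _)
      refine le_trans ?_ h3
      rw [← h1, hPhi, map_mul, map_mul, map_prod, ← Finset.mul_prod_erase _ _ (Finset.mem_univ j),
        map_prod, ← Finset.mul_prod_erase _ _ (Finset.mem_univ i)]
      have h4 : ∏ x ∈ Finset.univ.erase i, v ((bF f j x : L) ^ D.nu j x) ≤ 1 := by
        refine Finset.prod_le_one' fun x _ => ?_
        rw [map_pow]
        exact pow_le_one' (hbl j x) _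
      have h5 : ∏ x ∈ Finset.univ.erase j, v (∏ i, (bF f x i : L) ^ D.nu x i) ≤ 1 :=
        Finset.prod_le_one' fun x _ => hprod x
      calc v (cF f lam) * (v (GF f D.B.g) * (v ((bF f j i : L) ^ D.nu j i) *
            (∏ x ∈ Finset.univ.erase i, v ((bF f j x : L) ^ D.nu j x)) *
            ∏ x ∈ Finset.univ.erase j, v (∏ i, (bF f x i : L) ^ D.nu x i)))
          ≤ 1 * (1 * (v ((bF f j i : L) ^ D.nu j i) * 1 * 1)) :=
            mul_le_mul' hlam' (mul_le_mul' hg (mul_le_mul' (mul_le_mul' le_rfl h4) h5))
        _ = v (bF f j i : L) ^ D.nu j i := by rw [one_mul, one_mul, mul_one, mul_one, map_pow]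

theorem cl_mem_unramified (hC : D.W.Cyclotomic) (hS : D.W.Simplices) (hI : D.W.Interior)
    (hG : D.B.Graphs) (hB : D.B.Integral) (hlam : IsIntegral ℤ lam) {m : D.Ix → ℚ}
    (hm : m ∈ D.Adm) :
    KQ.map (N + 1 + (n + 1)) f (D.cl lam m) ∈ Unramified L (N + 1 + (n + 1)) := by
  unfold Unramified
  simp only [Submodule.mem_iInf]
  intro v _
  exact cl_mem_unitPart f hC hS hI hG hB hlam hm v

end main

end Pool.Agent.E8helper18.LF
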